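import Pool.Agent.Y7.AN.Fin

/-!
The powers of the analytic constants (helper7).
-/

set_option autoImplicit false

namespace Pool.Agent.Y7

lemma rpow_bound {C₀ ν K : ℝ} {m n : ℕ} {c : ℝ} (hc : 1 ≤ c) (hν : 0 < ν) (hK : 0 < K)
    (hKc : K ≤ c ^ (n + 1) * n.factorial) (hC₀ : 0 ≤ C₀) :
    C₀ * (K * ν) ^ (m / (n + 2) : ℝ) ≤ C₀ * c ^ m * (n + 1) ^ m * ν ^ (m / (n + 2) : ℝ) := by
  have h1 : K ≤ (c * (n + 1)) ^ (n + 2) := by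
    refine hKc.trans ?_
    rw [mul_pow]
    apply mul_le_mul (pow_le_pow_right₀ hc (by omega)) _ (by positivity) (by positivity)
    have h2 : (n.factorial : ℝ) ≤ (n : ℝ) ^ n := by exact_mod_cast Nat.factorial_le_pow n
    have h3 : (n : ℝ) ^ n ≤ ((n : ℝ) + 1) ^ n := pow_le_pow_left₀ (by positivity) (by linarith) n
    have h4 : ((n : ℝ) + 1) ^ n ≤ ((n : ℝ) + 1) ^ (n + 2) :=
      pow_le_pow_right₀ (by linarith [(Nat.cast_nonneg n : (0 : ℝ) ≤ n)]) (by omega)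
    linarith
  have hn : (0 : ℝ) < (n : ℝ) + 2 := by positivity
  have h5 : K ^ (m / (n + 2) : ℝ) ≤ (c * (n + 1)) ^ m := by
    refine (Real.rpow_le_rpow hK.le h1 (by positivity)).trans (le_of_eq ?_)
    rw [← Real.rpow_natCast, ← Real.rpow_mul (by positivity)]
    have e : ((n + 2 : ℕ) : ℝ) * (m / (n + 2)) = m := by
      push_cast
      field_simp
    rw [e, Real.rpow_natCast]
  rw [Real.mul_rpow hK.le hν.le]
  have h6 : 0 ≤ ν ^ (m / (n + 2) : ℝ) := Real.rpow_nonneg hν.le _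
  calc C₀ * (K ^ (m / (n + 2) : ℝ) * ν ^ (m / (n + 2) : ℝ))
      ≤ C₀ * ((c * (n + 1)) ^ m * ν ^ (m / (n + 2) : ℝ)) := by gcongr
    _ = _ := by
      rw [mul_pow]
      ring

/-- One constant for all the estimates. -/
lemma one_const {C₀ c : ℝ} {K : ℕ → ℝ} (hC₀ : 0 < C₀) (hc : 1 ≤ c) (hK0 : ∀ n, 0 < K n)
    (hKc : ∀ n, K n ≤ c ^ (n + 1) * n.factorial) :
    ∃ C : ℝ, 0 < C ∧ C₀ ≤ C ∧ (∀ n, K n ≤ C ^ (n + 1) * n.factorial) ∧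
      (∀ (n : ℕ) (ν : ℝ), 0 < ν → C₀ * (K n * ν) ^ (4 / (n + 2) : ℝ)
        ≤ C * (n + 1) ^ 4 * ν ^ (4 / (n + 2) : ℝ)) ∧
      ∀ (n : ℕ) (ν : ℝ), 0 < ν → C₀ * (K n * ν) ^ (2 / (n + 2) : ℝ)
        ≤ C * (n + 1) ^ 2 * ν ^ (2 / (n + 2) : ℝ) := by
  have hc0 : 0 < c := by linarith
  have hc2 : c ≤ c ^ 2 := by nlinarith
  have hc24 : c ^ 2 ≤ c ^ 4 := pow_le_pow_right₀ hc (by norm_num)
  have h1c2 : 1 ≤ c ^ 2 := one_le_pow₀ hc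
  obtain ⟨C, hCd⟩ : ∃ C, C = (C₀ + 1) * c ^ 4 := ⟨_, rfl⟩
  have hC : 0 < C := by rw [hCd]; positivity
  have hC4 : C₀ * c ^ 4 ≤ C := by
    rw [hCd]
    nlinarith [show 0 < c ^ 4 by positivity]
  have hC2 : C₀ * c ^ 2 ≤ C := le_trans (mul_le_mul_of_nonneg_left hc24 hC₀.le) hC4
  have hC1 : C₀ ≤ C := le_trans (le_mul_of_one_le_right hC₀.le h1c2) hC2
  have hcC : c ≤ C := by
    rw [hCd]
    nlinarith [show 0 < C₀ * c ^ 4 by positivity]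
  refine ⟨C, hC, hC1, fun n => (hKc n).trans (by gcongr), fun n ν hν => ?_, fun n ν hν => ?_⟩
  · have h := rpow_bound (m := 4) hc hν (hK0 n) (hKc n) hC₀.le
    have h' : C₀ * (K n * ν) ^ (4 / (n + 2) : ℝ)
      ≤ C₀ * c ^ 4 * (n + 1) ^ 4 * ν ^ (4 / (n + 2) : ℝ) := by exact_mod_cast h
    refine h'.trans ?_
    gcongr
  · have h := rpow_bound (m := 2) hc hν (hK0 n) (hKc n) hC₀.le
    have h' : C₀ * (K n * ν) ^ (2 / (n + 2) : ℝ)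
      ≤ C₀ * c ^ 2 * (n + 1) ^ 2 * ν ^ (2 / (n + 2) : ℝ) := by exact_mod_cast h
    refine h'.trans ?_
    gcongr

end Pool.Agent.Y7
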