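import Pool.Agent.Y7.AN.Stm

/-!
Analytic growth of the constants (helper7).
-/

set_option autoImplicit false
set_option linter.unusedVariables false

open MeasureTheory Set Metric Filter Topology
open scoped ContDiff

namespace Pool.Agent.Y7

open H459R3.NS W221.NS Pool.Agent.TH305.DR

/-- Positive constants with the growth of the squares of the derivatives of an analytic
function. -/
def GK (K : ℕ → ℝ) : Prop :=
  (∀ n, 0 < K n) ∧ ∃ c : ℝ, 1 ≤ c ∧ ∀ n, K n ≤ (c ^ (n + 1) * n.factorial) ^ 2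

/-- Positive constants with the growth of the derivatives of an analytic function. -/
def GQ (K : ℕ → ℝ) : Prop :=
  (∀ n, 0 < K n) ∧ ∃ c : ℝ, 1 ≤ c ∧ ∀ n, K n ≤ c ^ (n + 1) * n.factorial

lemma GK.shift {K : ℕ → ℝ} (h : GK K) : GK (fun n => K (n + 1) + K n) := by
  obtain ⟨h0, c, hc, h1⟩ := h
  refine ⟨fun n => add_pos (h0 _) (h0 _), 4 * c ^ 2, by nlinarith, fun n => ?_⟩
  have hc0 : 0 < c := by linarith
  have h2 := h1 (n + 1)
  have h3 := h1 n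
  obtain ⟨P, hP⟩ : ∃ P : ℝ, P = (c ^ (n + 1) * n.factorial) ^ 2 := ⟨_, rfl⟩
  have hP0 : 0 ≤ P := hP ▸ sq_nonneg _
  have e1 : (c ^ (n + 1 + 1) * ((n + 1).factorial : ℝ)) ^ 2 = P * (c * ((n : ℝ) + 1)) ^ 2 := by
    rw [hP, Nat.factorial_succ]
    push_cast
    ring
  have e2 : ((4 * c ^ 2) ^ (n + 1) * (n.factorial : ℝ)) ^ 2
      = P * ((4 : ℝ) ^ (n + 1) * c ^ (n + 1)) ^ 2 := by
    rw [hP]
    ring
  have h4 : (n : ℝ) + 1 ≤ 2 ^ (n + 1) := by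
    have := one_add_mul_le_pow (a := (1 : ℝ)) (by norm_num) (n + 1)
    push_cast at this
    norm_num at this
    linarith
  have h5 : c ≤ c ^ (n + 1) := by
    calc c = c ^ 1 := (pow_one c).symm
      _ ≤ c ^ (n + 1) := pow_le_pow_right₀ hc (by omega)
  have h6 : c * ((n : ℝ) + 1) ≤ c ^ (n + 1) * 2 ^ (n + 1) :=
    mul_le_mul h5 h4 (by positivity) (by positivity)
  have h7 : (c * ((n : ℝ) + 1)) ^ 2 ≤ (c ^ (n + 1) * 2 ^ (n + 1)) ^ 2 :=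
    pow_le_pow_left₀ (by positivity) h6 2
  have h8 : (1 : ℝ) ≤ (c ^ (n + 1) * 2 ^ (n + 1)) ^ 2 := by
    apply one_le_pow₀
    have a1 : (1 : ℝ) ≤ c ^ (n + 1) := one_le_pow₀ hc
    have a2 : (1 : ℝ) ≤ 2 ^ (n + 1) := one_le_pow₀ (by norm_num)
    nlinarith
  have h9 : 2 * (c ^ (n + 1) * 2 ^ (n + 1)) ^ 2 ≤ ((4 : ℝ) ^ (n + 1) * c ^ (n + 1)) ^ 2 := by
    have e3 : ((4 : ℝ) ^ (n + 1) * c ^ (n + 1)) ^ 2
        = (2 ^ (n + 1)) ^ 2 * (c ^ (n + 1) * 2 ^ (n + 1)) ^ 2 := by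
      have e4 : (4 : ℝ) ^ (n + 1) = 2 ^ (n + 1) * 2 ^ (n + 1) := by
        rw [← mul_pow]
        norm_num
      rw [e4]
      ring
    rw [e3]
    apply mul_le_mul_of_nonneg_right _ (by positivity)
    have a2 : (2 : ℝ) ≤ 2 ^ (n + 1) := by
      calc (2 : ℝ) = 2 ^ 1 := by norm_num
        _ ≤ 2 ^ (n + 1) := pow_le_pow_right₀ (by norm_num) (by omega)
    nlinarith
  rw [e2]
  rw [e1] at h2
  rw [← hP] at h3
  calc K (n + 1) + K n ≤ P * (c * ((n : ℝ) + 1)) ^ 2 + P := add_le_add h2 h3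
    _ ≤ P * (c ^ (n + 1) * 2 ^ (n + 1)) ^ 2 + P * (c ^ (n + 1) * 2 ^ (n + 1)) ^ 2 := by
        gcongr
        nlinarith
    _ = P * (2 * (c ^ (n + 1) * 2 ^ (n + 1)) ^ 2) := by ring
    _ ≤ _ := mul_le_mul_of_nonneg_left h9 hP0

lemma GK.sqrt {K : ℕ → ℝ} (h : GK K) : GQ (fun n => √(3 ^ (n + 2) * K n)) := by
  obtain ⟨h0, c, hc, h1⟩ := h
  refine ⟨fun n => by
    have := h0 n
    positivity, 3 * c, by linarith, fun n => ?_⟩
  have hc0 : 0 < c := by linarith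
  show √(3 ^ (n + 2) * K n) ≤ (3 * c) ^ (n + 1) * (n.factorial : ℝ)
  rw [Real.sqrt_le_left (by positivity)]
  have e : ((3 * c) ^ (n + 1) * (n.factorial : ℝ)) ^ 2
      = (3 ^ (n + 1)) ^ 2 * (c ^ (n + 1) * n.factorial) ^ 2 := by ring
  rw [e]
  apply mul_le_mul _ (h1 n) (h0 n).le (by positivity)
  rw [← pow_mul]
  exact pow_le_pow_right₀ (by norm_num) (by omega)

lemma GK.sqrt' {K : ℕ → ℝ} (h : GK K) : GQ (fun n => √(9 * 3 ^ n * K n)) := by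
  have e : (fun n => √(9 * 3 ^ n * K n)) = fun n => √(3 ^ (n + 2) * K n) := by
    funext n
    congr 1
    ring
  rw [e]
  exact h.sqrt

lemma GQ.add {K K' : ℕ → ℝ} (h : GQ K) (h' : GQ K') : GQ (fun n => K n + K' n) := by
  obtain ⟨h0, c, hc, h1⟩ := h
  obtain ⟨h0', c', hc', h1'⟩ := h'
  refine ⟨fun n => add_pos (h0 n) (h0' n), c + c', by linarith, fun n => ?_⟩
  have h2 : c ^ (n + 1) + c' ^ (n + 1) ≤ (c + c') ^ (n + 1) := by
    have a1 : c ^ n ≤ (c + c') ^ n := pow_le_pow_left₀ (by linarith) (by linarith) n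
    have a2 : c' ^ n ≤ (c + c') ^ n := pow_le_pow_left₀ (by linarith) (by linarith) n
    rw [pow_succ, pow_succ, pow_succ]
    nlinarith
  calc K n + K' n ≤ c ^ (n + 1) * n.factorial + c' ^ (n + 1) * n.factorial :=
        add_le_add (h1 n) (h1' n)
    _ = (c ^ (n + 1) + c' ^ (n + 1)) * n.factorial := by ring
    _ ≤ _ := mul_le_mul_of_nonneg_right h2 (by positivity)

/-- Weak local solutions with small dissipation: analytic bounds. -/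
def S_WDERP : Prop := ∃ ε : ℝ, 0 < ε ∧ ∃ C : ℕ → ℝ, GK C ∧
  ∀ (H : Set ℝ) (v : ℝ → V → V) (q : ℝ → V → ℝ) (k : ℝ → ℝ), Pool.Agent.Y8.WL2 H v q k →
    IntegrableOn (fun t => B2 0 8 (v t)) (Ioo (-1) 0) →
    ∫ t in Ioo (-1) 0, B2 0 8 (v t) ≤ ε →
      ∀ n, ∀ t ∈ H, -1 / 32 < t → ∀ x ∈ ball (0 : V) (1 / 16),
        ST n (v t) x ≤ C n ∧ SV n (v t) x ≤ C n * (1 + A2 0 4 (v t))

/-- Smooth local solutions with small dissipation: analytic bounds. -/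
def S_LOCP : Prop := ∃ ε : ℝ, 0 < ε ∧ ∃ C : ℕ → ℝ, GK C ∧
    ∀ (v : ℝ → V → V) (q : ℝ → V → ℝ), Loc2 v q →
      IntegrableOn (fun t => B2 0 8 (v t)) (Ioo (-1) 0) →
      ∫ t in Ioo (-1) 0, B2 0 8 (v t) ≤ ε →
      ∀ n, ∀ t ∈ Ioo (-1 / 32 : ℝ) 0, ∀ x ∈ ball (0 : V) (1 / 16),
        ST n (v t) x ≤ C n ∧ SV n (v t) x ≤ C n * (1 + A2 0 4 (v t))

lemma gk_c {c : ℝ} (hc : 1 ≤ c) : GK (fun n => (c ^ (n + 1) * (n.factorial : ℝ)) ^ 2) :=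
  ⟨fun n => by
    have : 0 < c := by linarith
    positivity, c, hc, fun n => le_rfl⟩

theorem t_wderp (h : AN.S_WDERA) : S_WDERP := by
  obtain ⟨ε, hε, c, hc, H⟩ := h
  exact ⟨ε, hε, _, gk_c hc, H⟩

theorem t_locp (h : AN.S_LOCA) : S_LOCP := by
  obtain ⟨ε, hε, c, hc, H⟩ := h
  exact ⟨ε, hε, _, gk_c hc, H⟩

end Pool.Agent.Y7
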