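import Pool.Agent.Y7.DCore
import Pool.Agent.Y7.AN.DRegA

/-!
The integral of the regularity scale, solutions in a domain, analytic constants (helper7; after
`Y7.DCore`).
-/

set_option autoImplicit false
set_option linter.unusedVariables false

open MeasureTheory Set Metric Filter Topology
open scoped ContDiff ENNReal NNReal

namespace Pool.Agent.Y7.D

open H459R3.NS W221.NS Pool.Agent.TH305.LW Pool.Agent.TH305.DR Pool.Agent.TH305.LG Pool.Agent.Y7
open Pool.Agent.Y7.Cov1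

/-- The core estimate. -/
theorem coreA (hDP : S_LOCP) : ∃ (C : ℝ) (K : ℕ → ℝ), 0 < C ∧ GK K ∧
    ∀ (T : ℝ) (O : Set V) (u : ℝ → V → V) (p : ℝ → V → ℝ), DSol T O u p → ∀ R₀ : ℝ, 0 < R₀ →
      ∀ (Og Ki : Set V) (δ : ℝ), IsOpen Og → MeasurableSet Ki → Ki ⊆ Og → 0 < δ →
      (∀ x ∈ Og, ball x (10 * sc R₀ 0) ⊆ O) → (∀ x ∈ Ki, ∀ y, y ∉ Og → δ ≤ ‖x - y‖) →
      ∀ (t₁ t₂ : ℝ), 0 < t₁ → t₁ < t₂ → t₂ < T →
      ∫⁻ t in Ioo t₁ t₂, ∫⁻ y in Ki, (Reg K 1 (u t) y - ENNReal.ofReal C *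
          (ENNReal.ofReal (1 / sc R₀ 0 ^ 4) + ENNReal.ofReal (1 / (t - t₁) ^ 2)))
        ≤ ENNReal.ofReal C * ((∫⁻ t in Ioo t₁ t₂, ∫⁻ y in Og, Fx R₀ (u t) y)
          + ENNReal.ofReal (sc R₀ 0 ^ 2 / δ ^ 3) *
            ∫⁻ t in Ioo t₁ t₂, ∫⁻ y in Og, ‖u t y‖ₑ ^ (3 : ℝ)) := by
  obtain ⟨η, C, K, hη, hC, hK, H⟩ := partA hDP
  refine ⟨C * (16 / 3 / η + 2), K, by positivity, hK, ?_⟩
  intro T O u p hN R₀ hR₀ Og Ki δ hOg hKi hKO hδ hball hsep t₁ t₂ h1 h12 h2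
  obtain ⟨F, hF2, hF3, hF4, hF5⟩ := flowN hN h1 h12 h2
  obtain ⟨h₀, hh₀⟩ : ∃ h₀, h₀ = sc R₀ 0 ^ 2 := ⟨_, rfl⟩
  have hsc := sc_pos hR₀ 0
  have h₀0 : 0 < h₀ := by rw [hh₀]; positivity
  rw [← hh₀]
  have hu := hN.smooth_u
  obtain ⟨f, hf⟩ : ∃ f, f = f1 R₀ Og u t₁ t₂ F := ⟨_, rfl⟩
  obtain ⟨f', hf'⟩ : ∃ f', f' = f2 Og t₁ t₂ F := ⟨_, rfl⟩
  obtain ⟨g, hg⟩ : ∃ g, g = gg Og u t₁ t₂ F := ⟨_, rfl⟩
  have hfm : Measurable f := by
    rw [hf]
    exact f1_meas hu R₀ h1 h12 h2 hOg hF3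
  have hfm' : Measurable f' := by
    rw [hf']
    exact f2_meas h12 hOg hF3
  have hgm : Measurable g := by
    rw [hg]
    exact gg_meas hu h1 h12 h2 hOg hF3
  have hHm := Hs_meas hfm h₀ η
  have hEm := Ex_meas hgm h₀ (1 / δ ^ 3)
  have hFxm : ∀ t ∈ Ioo t₁ t₂, Measurable (Fx R₀ (u t)) := fun t ht =>
    Fx_meas R₀ (slice_cd hu ⟨h1.trans ht.1, ht.2.trans h2⟩)
  have hum : ∀ t ∈ Ioo t₁ t₂, Measurable fun y => ‖u t y‖ₑ := fun t ht =>
    (slice_cd hu ⟨h1.trans ht.1, ht.2.trans h2⟩).continuous.measurable.enorm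
  -- the pointwise bound
  have hpt : ∀ t ∈ Ioo t₁ t₂, ∫⁻ y in Ki, (Reg K 1 (u t) y
        - ENNReal.ofReal (C * (16 / 3 / η + 2)) *
          (ENNReal.ofReal (1 / sc R₀ 0 ^ 4) + ENNReal.ofReal (1 / (t - t₁) ^ 2)))
      ≤ ENNReal.ofReal C * ((∫⁻ a, Hs f h₀ η (t, a)) + (∫⁻ a, Ex g h₀ (1 / δ ^ 3) (t, a))
        + ∫⁻ y in Og, Fx R₀ (u t) y) := by
    intro t ht
    obtain ⟨φ, hφc, hφ1, hφ2⟩ := hF5 t ⟨ht.1, ht.2.le⟩
    have hy : ∀ y ∈ Ki, Reg K 1 (u t) y - ENNReal.ofReal (C * (16 / 3 / η + 2)) *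
          (ENNReal.ofReal (1 / sc R₀ 0 ^ 4) + ENNReal.ofReal (1 / (t - t₁) ^ 2))
        ≤ ENNReal.ofReal C * (Hs f h₀ η (t, φ y) + Ex g h₀ (1 / δ ^ 3) (t, φ y)
          + Fx R₀ (u t) y) := by
      intro y hyK
      have h3 := H T O u p hN R₀ hR₀ t₁ t h1.le ht.1 (ht.2.trans h2) (fun τ => F τ (φ y))
        (traj_mono (hF2 (φ y)) le_rfl ht.2.le) (fun τ => f (τ, φ y) + f' (τ, φ y))
        ((hfm.comp (measurable_id.prodMk measurable_const)).add
          (hfm'.comp (measurable_id.prodMk measurable_const)))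
        (fun τ hτ => by
          have hτ2 : τ ∈ Ioo t₁ t₂ := ⟨hτ.1, hτ.2.trans ht.2⟩
          by_cases hO : F τ (φ y) ∈ Og
          · refine le_add_right (le_of_eq ?_)
            rw [hf]
            unfold f1 ff
            rw [indicator_of_mem (show (τ, φ y) ∈ AA Og t₁ t₂ F from ⟨hτ2, hO⟩),
              indicator_of_mem hτ2]
          · refine le_add_left ?_
            rw [hf']
            unfold f2
            rw [indicator_of_mem (show (τ, φ y) ∈ (Ioo t₁ t₂ ×ˢ univ) \ AA Og t₁ t₂ F from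
              ⟨⟨hτ2, mem_univ _⟩, fun h => hO h.2⟩)]
            exact le_top)
        (fun τ hτ hne => by
          have hτ2 : τ ∈ Ioo t₁ t₂ := ⟨hτ.1, hτ.2.trans ht.2⟩
          apply hball
          by_contra hO
          apply hne
          have : f' (τ, φ y) = ⊤ := by
            rw [hf']
            unfold f2
            rw [indicator_of_mem (show (τ, φ y) ∈ (Ioo t₁ t₂ ×ˢ univ) \ AA Og t₁ t₂ F from
              ⟨⟨hτ2, mem_univ _⟩, fun h => hO h.2⟩)]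
          rw [this, add_top])
      have h5 := bad_split (η := η) hu h1 h12 h2 R₀ hOg hF2 hF3 hδ ht (a := φ y)
        (by rw [hφ1]; exact hsep y hyK) h₀0
      rw [← hf, ← hf', ← hg] at h5
      simp only [hφ1] at h3
      rw [← hh₀] at h3
      rw [tsub_le_iff_left]
      refine h3.trans ?_
      rw [add_assoc (_ + _) _ (Fx R₀ (u t) y), mul_add]
      gcongr
      linarith [show (0 : ℝ) ≤ C * (16 / 3 / η) by positivity]
    refine (setLIntegral_mono' hKi hy).trans ?_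
    rw [lintegral_const_mul' _ _ ENNReal.ofReal_ne_top, lintegral_add_right _ (hFxm t ht)]
    gcongr
    · have hm : Measurable fun a => Hs f h₀ η (t, a) + Ex g h₀ (1 / δ ^ 3) (t, a) :=
        (hHm.comp (measurable_const.prodMk measurable_id)).add
          (hEm.comp (measurable_const.prodMk measurable_id))
      calc ∫⁻ y in Ki, (Hs f h₀ η (t, φ y) + Ex g h₀ (1 / δ ^ 3) (t, φ y))
          ≤ ∫⁻ y, (Hs f h₀ η (t, φ y) + Ex g h₀ (1 / δ ^ 3) (t, φ y)) :=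
            setLIntegral_le_lintegral _ _
        _ ≤ ∫⁻ a, (Hs f h₀ η (t, a) + Ex g h₀ (1 / δ ^ 3) (t, a)) :=
            univ_tr hφc.measurable hφ2 hm
        _ = _ := lintegral_add_left (hHm.comp (measurable_const.prodMk measurable_id)) _
  refine (setLIntegral_mono' measurableSet_Ioo hpt).trans ?_
  rw [lintegral_const_mul' _ _ ENNReal.ofReal_ne_top]
  have hHm2 : Measurable (fun t : ℝ => ∫⁻ a, Hs f h₀ η (t, a)) :=
    Measurable.lintegral_prod_right' (f := Hs f h₀ η) hHm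
  have hEm2 : Measurable (fun t : ℝ => ∫⁻ a, Ex g h₀ (1 / δ ^ 3) (t, a)) :=
    Measurable.lintegral_prod_right' (f := Ex g h₀ (1 / δ ^ 3)) hEm
  rw [lintegral_add_left (show Measurable (fun t : ℝ => (∫⁻ a, Hs f h₀ η (t, a)) +
    ∫⁻ a, Ex g h₀ (1 / δ ^ 3) (t, a)) from hHm2.add hEm2), lintegral_add_left hHm2]
  have hmain : ∫⁻ t in Ioo t₁ t₂, ∫⁻ a, Hs f h₀ η (t, a)
      ≤ ENNReal.ofReal (16 / 3 / η) * ∫⁻ t in Ioo t₁ t₂, ∫⁻ y in Og, Fx R₀ (u t) y := by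
    calc ∫⁻ t in Ioo t₁ t₂, ∫⁻ a, Hs f h₀ η (t, a)
        ≤ ∫⁻ t, ∫⁻ a, Hs f h₀ η (t, a) := setLIntegral_le_lintegral _ _
      _ = ∫⁻ a, ∫⁻ t, Hs f h₀ η (t, a) :=
          lintegral_lintegral_swap (f := fun t a => Hs f h₀ η (t, a)) hHm.aemeasurable
      _ ≤ ∫⁻ a, ENNReal.ofReal (16 / 3 / η) * ∫⁻ τ, f (τ, a) :=
          lintegral_mono fun a => Hs_int hfm h₀0 hη a
      _ = ENNReal.ofReal (16 / 3 / η) * ∫⁻ a, ∫⁻ τ, f (τ, a) := by
          rw [lintegral_const_mul' _ _ ENNReal.ofReal_ne_top]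
      _ = ENNReal.ofReal (16 / 3 / η) * ∫⁻ τ, ∫⁻ a, f (τ, a) := by
          rw [lintegral_lintegral_swap (f := fun τ a => f (τ, a)) hfm.aemeasurable]
      _ = ENNReal.ofReal (16 / 3 / η) *
          ∫⁻ τ in Ioo t₁ t₂, ∫⁻ a, Og.indicator (Fx R₀ (u τ)) (F τ a) := by
          congr 1
          rw [← lintegral_indicator measurableSet_Ioo]
          refine lintegral_congr fun τ => ?_
          by_cases hτ : τ ∈ Ioo t₁ t₂
          · rw [indicator_of_mem hτ]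
            refine lintegral_congr fun a => ?_
            rw [hf]
            unfold f1 ff
            by_cases hO : F τ a ∈ Og
            · rw [indicator_of_mem (show (τ, a) ∈ AA Og t₁ t₂ F from ⟨hτ, hO⟩),
                indicator_of_mem hτ, indicator_of_mem hO]
            · rw [indicator_of_notMem (show (τ, a) ∉ AA Og t₁ t₂ F from fun h => hO h.2),
                indicator_of_notMem hO]
          · rw [indicator_of_notMem hτ]
            have : ∀ a, f (τ, a) = 0 := by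
              intro a
              rw [hf]
              unfold f1
              exact indicator_of_notMem (fun h => hτ h.1) _
            simp only [this, lintegral_zero]
      _ ≤ ENNReal.ofReal (16 / 3 / η) * ∫⁻ t in Ioo t₁ t₂, ∫⁻ y in Og, Fx R₀ (u t) y := by
          refine mul_le_mul_right (setLIntegral_mono' measurableSet_Ioo fun τ hτ => ?_) _
          have hFc : Continuous (F τ) := continuousOn_univ.1 (hF3.comp (f := fun a : V => (τ, a))
            (by fun_prop) (fun a _ => ⟨Ioo_subset_Icc_self hτ, mem_univ _⟩))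
          refine (univ_tr hFc.measurable (hF4 τ (Ioo_subset_Icc_self hτ))
            ((hFxm τ hτ).indicator hOg.measurableSet)).trans (le_of_eq ?_)
          exact lintegral_indicator hOg.measurableSet _
  have hexit : ∫⁻ t in Ioo t₁ t₂, ∫⁻ a, Ex g h₀ (1 / δ ^ 3) (t, a)
      ≤ ENNReal.ofReal (1 / δ ^ 3 * (4 / 3 * h₀)) *
        ∫⁻ t in Ioo t₁ t₂, ∫⁻ y in Og, ‖u t y‖ₑ ^ (3 : ℝ) := by
    have hgm3 : Measurable fun z : ℝ × V => g z ^ (3 : ℝ) := hgm.pow_const _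
    calc ∫⁻ t in Ioo t₁ t₂, ∫⁻ a, Ex g h₀ (1 / δ ^ 3) (t, a)
        ≤ ∫⁻ t, ∫⁻ a, Ex g h₀ (1 / δ ^ 3) (t, a) := setLIntegral_le_lintegral _ _
      _ = ∫⁻ a, ∫⁻ t, Ex g h₀ (1 / δ ^ 3) (t, a) :=
          lintegral_lintegral_swap (f := fun t a => Ex g h₀ (1 / δ ^ 3) (t, a)) hEm.aemeasurable
      _ ≤ ∫⁻ a, ENNReal.ofReal (1 / δ ^ 3 * (4 / 3 * h₀)) * ∫⁻ τ, g (τ, a) ^ (3 : ℝ) :=
          lintegral_mono fun a => Ex_int hgm h₀0 (by positivity) a
      _ = ENNReal.ofReal (1 / δ ^ 3 * (4 / 3 * h₀)) * ∫⁻ a, ∫⁻ τ, g (τ, a) ^ (3 : ℝ) := by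
          rw [lintegral_const_mul' _ _ ENNReal.ofReal_ne_top]
      _ = ENNReal.ofReal (1 / δ ^ 3 * (4 / 3 * h₀)) * ∫⁻ τ, ∫⁻ a, g (τ, a) ^ (3 : ℝ) := by
          rw [lintegral_lintegral_swap (f := fun τ a => g (τ, a) ^ (3 : ℝ)) hgm3.aemeasurable]
      _ = ENNReal.ofReal (1 / δ ^ 3 * (4 / 3 * h₀)) *
          ∫⁻ τ in Ioo t₁ t₂, ∫⁻ a, Og.indicator (fun y => ‖u τ y‖ₑ ^ (3 : ℝ)) (F τ a) := by
          congr 1
          rw [← lintegral_indicator measurableSet_Ioo]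
          refine lintegral_congr fun τ => ?_
          by_cases hτ : τ ∈ Ioo t₁ t₂
          · rw [indicator_of_mem hτ]
            refine lintegral_congr fun a => ?_
            rw [hg]
            unfold gg
            by_cases hO : F τ a ∈ Og
            · rw [indicator_of_mem (show (τ, a) ∈ AA Og t₁ t₂ F from ⟨hτ, hO⟩),
                indicator_of_mem hO]
            · rw [indicator_of_notMem (show (τ, a) ∉ AA Og t₁ t₂ F from fun h => hO h.2),
                indicator_of_notMem hO, ENNReal.zero_rpow_of_pos (by norm_num)]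
          · rw [indicator_of_notMem hτ]
            have : ∀ a, g (τ, a) ^ (3 : ℝ) = 0 := by
              intro a
              rw [hg]
              unfold gg
              rw [indicator_of_notMem (fun h => hτ h.1), ENNReal.zero_rpow_of_pos (by norm_num)]
            simp only [this, lintegral_zero]
      _ ≤ _ := by
          refine mul_le_mul_right (setLIntegral_mono' measurableSet_Ioo fun τ hτ => ?_) _
          have hFc : Continuous (F τ) := continuousOn_univ.1 (hF3.comp (f := fun a : V => (τ, a))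
            (by fun_prop) (fun a _ => ⟨Ioo_subset_Icc_self hτ, mem_univ _⟩))
          refine (univ_tr hFc.measurable (hF4 τ (Ioo_subset_Icc_self hτ))
            (((hum τ hτ).pow_const _).indicator hOg.measurableSet)).trans (le_of_eq ?_)
          exact lintegral_indicator hOg.measurableSet _
  obtain ⟨A, hA⟩ : ∃ A, A = ∫⁻ t in Ioo t₁ t₂, ∫⁻ y in Og, Fx R₀ (u t) y := ⟨_, rfl⟩
  obtain ⟨B, hB⟩ : ∃ B, B = ∫⁻ t in Ioo t₁ t₂, ∫⁻ y in Og, ‖u t y‖ₑ ^ (3 : ℝ) := ⟨_, rfl⟩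
  rw [← hA] at hmain ⊢
  rw [← hB] at hexit ⊢
  rw [ENNReal.ofReal_mul hC.le, mul_assoc]
  gcongr
  have e3 : ENNReal.ofReal (1 / δ ^ 3 * (4 / 3 * h₀)) ≤ ENNReal.ofReal (16 / 3 / η + 2) *
      ENNReal.ofReal (h₀ / δ ^ 3) := by
    rw [← ENNReal.ofReal_mul (by positivity)]
    apply ENNReal.ofReal_le_ofReal
    have h6 : 0 ≤ 16 / 3 / η * (h₀ / δ ^ 3) := by positivity
    have h7 : 0 ≤ h₀ / δ ^ 3 := by positivity
    have e4 : 1 / δ ^ 3 * (4 / 3 * h₀) = 4 / 3 * (h₀ / δ ^ 3) := by ring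
    rw [e4]
    linarith
  have e5 : ENNReal.ofReal (16 / 3 / η) + 1 ≤ ENNReal.ofReal (16 / 3 / η + 2) := by
    rw [← ENNReal.ofReal_one, ← ENNReal.ofReal_add (by positivity) (by norm_num)]
    apply ENNReal.ofReal_le_ofReal
    linarith
  calc _ ≤ ENNReal.ofReal (16 / 3 / η) * A + ENNReal.ofReal (1 / δ ^ 3 * (4 / 3 * h₀)) * B + A := by
        gcongr
    _ = (ENNReal.ofReal (16 / 3 / η) + 1) * A + ENNReal.ofReal (1 / δ ^ 3 * (4 / 3 * h₀)) * B := by
        ring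
    _ ≤ ENNReal.ofReal (16 / 3 / η + 2) * A + ENNReal.ofReal (16 / 3 / η + 2) *
      ENNReal.ofReal (h₀ / δ ^ 3) * B := by gcongr
    _ = _ := by ring

end Pool.Agent.Y7.D
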