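import Pool.Agent.Y7.DBall
import Pool.Agent.Y7.AN.DCoreA

/-!
The estimate on balls, analytic constants (helper7; after `Y7.DBall`).
-/

set_option autoImplicit false
set_option linter.unusedVariables false

open MeasureTheory Set Metric Filter Topology
open scoped ContDiff ENNReal NNReal

namespace Pool.Agent.Y7.D

open H459R3.NS W221.NS Pool.Agent.TH305.LW Pool.Agent.TH305.DR Pool.Agent.TH305.LG Pool.Agent.Y7
open Pool.Agent.Y7.Cov1

/-- The estimate over a ball. -/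
theorem dballA (hDP : S_LOCP) : ∃ (C : ℝ) (K : ℕ → ℝ), 0 < C ∧ GK K ∧
    ∀ (T : ℝ) (u : ℝ → V → V) (p : ℝ → V → ℝ) (x₀ : V) (R : ℝ), 0 < R →
      DSol T (ball x₀ R) u p → ∀ (t₁ t₂ : ℝ), 0 < t₁ → t₁ < t₂ → t₂ < T →
      ∫⁻ t in Ioo t₁ t₂, ∫⁻ y in ball x₀ (R / 4),
          (Reg K 1 (u t) y - ENNReal.ofReal (C * (1 / R ^ 4 + 1 / (t - t₁) ^ 2)))
        ≤ ENNReal.ofReal C * ((∫⁻ t in Ioo t₁ t₂, ∫⁻ y in ball x₀ R, ENNReal.ofReal (gsq (u t) y))
          + ENNReal.ofReal (1 / R) *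
            ∫⁻ t in Ioo t₁ t₂, ∫⁻ y in ball x₀ (R / 2), ‖u t y‖ₑ ^ (3 : ℝ)) := by
  obtain ⟨C, K, hC, hK, H⟩ := coreA hDP
  obtain ⟨A, hA, hFx⟩ := FxLoc
  refine ⟨C * (32 ^ 4 + A), K, by positivity, hK, ?_⟩
  intro T u p x₀ R hR hN t₁ t₂ h1 h12 h2
  have hR2 : 0 < R / 2 := by positivity
  have hsc : sc (R / 2) 0 = R / 32 := by
    unfold sc Hl.Rr
    rw [pow_zero, div_one]
    ring
  have hball : ∀ x ∈ ball x₀ (R / 2), ball x (R / 2) ⊆ ball x₀ R := by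
    intro x hx
    apply ball_subset_ball'
    rw [mem_ball] at hx
    linarith
  have h3 := H T (ball x₀ R) u p hN (R / 2) hR2 (ball x₀ (R / 2)) (ball x₀ (R / 4)) (R / 4)
    isOpen_ball measurableSet_ball (ball_subset_ball (by linarith)) (by positivity)
    (fun x hx => (ball_subset_ball (by rw [hsc]; linarith)).trans (hball x hx))
    (fun x hx y hy => by
      rw [mem_ball] at hx
      rw [mem_ball, not_lt] at hy
      have := dist_triangle y x x₀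
      rw [← dist_eq_norm, dist_comm]
      linarith) t₁ t₂ h1 h12 h2
  rw [hsc] at h3
  have hFi : ∫⁻ t in Ioo t₁ t₂, ∫⁻ y in ball x₀ (R / 2), Fx (R / 2) (u t) y
      ≤ ENNReal.ofReal A * ∫⁻ t in Ioo t₁ t₂, ∫⁻ y in ball x₀ R, ENNReal.ofReal (gsq (u t) y) := by
    rw [← lintegral_const_mul' _ _ ENNReal.ofReal_ne_top]
    refine setLIntegral_mono' measurableSet_Ioo fun t ht => ?_
    have htT : t ∈ Ioo 0 T := ⟨h1.trans ht.1, ht.2.trans h2⟩
    obtain ⟨M, hM0, hM⟩ := hN.bdd t t htT.1 htT.2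
    exact hFx (R / 2) hR2 (ball x₀ R) (ball x₀ (R / 2)) measurableSet_ball measurableSet_ball
      hball (u t) (slice_cd hN.smooth_u htT) M fun x => (hM t ⟨le_rfl, le_rfl⟩ x).2
  obtain ⟨P, hP⟩ : ∃ P, P = ∫⁻ t in Ioo t₁ t₂, ∫⁻ y in ball x₀ R, ENNReal.ofReal (gsq (u t) y) :=
    ⟨_, rfl⟩
  obtain ⟨Q, hQ⟩ : ∃ Q, Q = ∫⁻ t in Ioo t₁ t₂, ∫⁻ y in ball x₀ (R / 2), ‖u t y‖ₑ ^ (3 : ℝ) :=
    ⟨_, rfl⟩
  rw [← hP] at hFi ⊢
  rw [← hQ] at h3 ⊢
  calc ∫⁻ t in Ioo t₁ t₂, ∫⁻ y in ball x₀ (R / 4),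
          (Reg K 1 (u t) y - ENNReal.ofReal (C * (32 ^ 4 + A) * (1 / R ^ 4 + 1 / (t - t₁) ^ 2)))
      ≤ ∫⁻ t in Ioo t₁ t₂, ∫⁻ y in ball x₀ (R / 4), (Reg K 1 (u t) y - ENNReal.ofReal C *
          (ENNReal.ofReal (1 / (R / 32) ^ 4) + ENNReal.ofReal (1 / (t - t₁) ^ 2))) := by
        refine setLIntegral_mono' measurableSet_Ioo fun t ht => ?_
        refine lintegral_mono fun y => tsub_le_tsub_left ?_ _
        have h4 : 0 < t - t₁ := by linarith [ht.1]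
        rw [← ENNReal.ofReal_add (by positivity) (by positivity), ← ENNReal.ofReal_mul hC.le]
        apply ENNReal.ofReal_le_ofReal
        rw [mul_assoc]
        gcongr
        have e1 : 1 / (R / 32) ^ 4 = 32 ^ 4 * (1 / R ^ 4) := by
          field_simp
        rw [e1]
        have h5 : 0 ≤ 1 / R ^ 4 := by positivity
        have h6 : 0 ≤ 1 / (t - t₁) ^ 2 := by positivity
        nlinarith
    _ ≤ _ := h3
    _ ≤ ENNReal.ofReal C * (ENNReal.ofReal A * P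
        + ENNReal.ofReal ((R / 32) ^ 2 / (R / 4) ^ 3) * Q) := by gcongr
    _ ≤ ENNReal.ofReal C * (ENNReal.ofReal (32 ^ 4 + A) * P
        + ENNReal.ofReal (32 ^ 4 + A) * (ENNReal.ofReal (1 / R) * Q)) := by
        refine mul_le_mul_right (add_le_add (mul_le_mul_left (ENNReal.ofReal_le_ofReal
          (by linarith [show (0 : ℝ) ≤ 32 ^ 4 by norm_num])) _) ?_) _
        rw [← mul_assoc, ← ENNReal.ofReal_mul (by positivity)]
        refine mul_le_mul_left (ENNReal.ofReal_le_ofReal ?_) _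
        have e2 : (R / 32) ^ 2 / (R / 4) ^ 3 = 64 / 1024 * (1 / R) := by
          field_simp
          norm_num
        rw [e2]
        have : 0 ≤ 1 / R := by positivity
        nlinarith
    _ = _ := by
        rw [ENNReal.ofReal_mul hC.le]
        ring

end Pool.Agent.Y7.D
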