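import Pool.Agent.Y7.DOm
import Pool.Agent.Y7.AN.DBallA

/-!
The estimate in a domain, viscosity one, analytic constants (helper7; after `Y7.DOm`).
-/

set_option autoImplicit false
set_option linter.unusedVariables false

open MeasureTheory Set Metric Filter Topology
open scoped ContDiff ENNReal NNReal

namespace Pool.Agent.Y7.D

open H459R3.NS W221.NS Pool.Agent.TH305.LW Pool.Agent.TH305.DR Pool.Agent.TH305.LG Pool.Agent.Y7
open Pool.Agent.Y7.Cov1

/-- Viscosity one. -/
theorem dw1A (hDP : S_LOCP) (hL : S_DL3) : ∃ (C : ℝ) (K : ℕ → ℝ), 0 < C ∧ GK K ∧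
    ∀ (T E : ℝ) (w : ℝ → V → V) (q : ℝ → V → ℝ) (x₀ : V) (R : ℝ), 0 < R → 0 ≤ E →
      DSol T (ball x₀ R) w q → (∀ t ∈ Ioo 0 T, ∫ x in ball x₀ R, nsq (w t) x ≤ E ^ 2) →
      ∫⁻ t in Ioo 0 T, ∫⁻ y in ball x₀ (R / 4),
          (Reg K 1 (w t) y - ENNReal.ofReal (C * (1 / R ^ 4 + 1 / t ^ 2)))
        ≤ ENNReal.ofReal (C * (1 + E / √R)) *
          ((∫⁻ t in Ioo 0 T, ∫⁻ y in ball x₀ R, ENNReal.ofReal (gsq (w t) y))
            + ENNReal.ofReal (E ^ 2 * T / R ^ 2)) := by
  obtain ⟨C, K, hC, hK, H⟩ := dballA hDP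
  obtain ⟨A, hA, hL3⟩ := hL
  refine ⟨4 * C * (1 + A), K, by positivity, hK, ?_⟩
  intro T E w q x₀ R hR hE hN hen
  obtain ⟨P, hP⟩ : ∃ P, P = ∫⁻ t in Ioo 0 T, ∫⁻ y in ball x₀ R, ENNReal.ofReal (gsq (w t) y) :=
    ⟨_, rfl⟩
  rw [← hP]
  have key : ∫⁻ t in Ioo 0 T, ∫⁻ y in ball x₀ (R / 4),
      (Reg K 1 (w t) y - ENNReal.ofReal (4 * C * (1 / R ^ 4 + 1 / t ^ 2)))
        ≤ ENNReal.ofReal (C * (1 + A) * (1 + E / √R)) *
          (P + ENNReal.ofReal (E ^ 2 * T / R ^ 2)) := by
    refine limT hC.le (by positivity) ?_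
    intro t₁ t₂ h1 h12 h2
    have h3 := H T w q x₀ R hR hN t₁ t₂ h1 h12 h2
    refine h3.trans ?_
    have h4 : ∫⁻ t in Ioo t₁ t₂, ∫⁻ y in ball x₀ R, ENNReal.ofReal (gsq (w t) y) ≤ P := by
      rw [hP]
      exact lintegral_mono_set (Ioo_subset_Ioo h1.le h2.le)
    have h5 : ENNReal.ofReal (1 / R) *
        ∫⁻ t in Ioo t₁ t₂, ∫⁻ y in ball x₀ (R / 2), ‖w t y‖ₑ ^ (3 : ℝ)
        ≤ ENNReal.ofReal (A * (E / √R)) * (P + ENNReal.ofReal (E ^ 2 * T / R ^ 2)) := by
      have h6 : ∀ t ∈ Ioo t₁ t₂, ∫⁻ y in ball x₀ (R / 2), ‖w t y‖ₑ ^ (3 : ℝ)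
          ≤ ENNReal.ofReal (A * E * √R) * ((∫⁻ y in ball x₀ R, ENNReal.ofReal (gsq (w t) y))
            + ENNReal.ofReal (E ^ 2 / R ^ 2)) := by
        intro t ht
        have htT : t ∈ Ioo 0 T := ⟨h1.trans ht.1, ht.2.trans h2⟩
        have hw := slice_cd hN.smooth_u htT
        have h7 := hL3 (w t) hw x₀ R hR
        have h8 := hen t htT
        have hn0 : 0 ≤ ∫ x in ball x₀ R, nsq (w t) x := integral_nonneg fun x =>
          Finset.sum_nonneg fun i _ => sq_nonneg _
        have hg0 : 0 ≤ ∫ x in ball x₀ R, gsq (w t) x := integral_nonneg fun x =>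
          Sp.gsq_nonneg (w t) x
        have hgi : IntegrableOn (gsq (w t)) (ball x₀ R) := by
          have hc : Continuous (gsq (w t)) := Pool.Agent.W327.ME.gsq_cont hw
          exact (hc.continuousOn.integrableOn_compact (isCompact_closedBall x₀ R)).mono_set
            ball_subset_closedBall
        have h9 : ENNReal.ofReal (∫ x in ball x₀ R, gsq (w t) x)
            = ∫⁻ y in ball x₀ R, ENNReal.ofReal (gsq (w t) y) :=
          ofReal_integral_eq_lintegral_ofReal hgi
            (Eventually.of_forall fun x => Sp.gsq_nonneg (w t) x)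
        calc ∫⁻ y in ball x₀ (R / 2), ‖w t y‖ₑ ^ (3 : ℝ)
            = ∫⁻ y in ball x₀ (R / 2), ENNReal.ofReal (‖w t y‖ ^ 3) := by
              refine lintegral_congr fun y => ?_
              rw [← ofReal_norm, ENNReal.ofReal_rpow_of_nonneg (norm_nonneg _) (by norm_num)]
              norm_num
          _ ≤ _ := h7
          _ ≤ ENNReal.ofReal (A * E * √R * ((∫ x in ball x₀ R, gsq (w t) x) + E ^ 2 / R ^ 2)) := by
              apply ENNReal.ofReal_le_ofReal
              have h10 : √(∫ x in ball x₀ R, nsq (w t) x) ≤ E := by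
                rw [← Real.sqrt_sq hE]
                exact Real.sqrt_le_sqrt h8
              calc A * √(∫ x in ball x₀ R, nsq (w t) x) *
                  (√R * ((∫ x in ball x₀ R, gsq (w t) x) + (∫ x in ball x₀ R, nsq (w t) x) / R ^ 2))
                  ≤ A * E * (√R * ((∫ x in ball x₀ R, gsq (w t) x) + E ^ 2 / R ^ 2)) := by
                    gcongr
                _ = _ := by ring
          _ = _ := by
              rw [ENNReal.ofReal_mul (by positivity), ENNReal.ofReal_add hg0 (by positivity), h9]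
      calc ENNReal.ofReal (1 / R) *
            ∫⁻ t in Ioo t₁ t₂, ∫⁻ y in ball x₀ (R / 2), ‖w t y‖ₑ ^ (3 : ℝ)
          ≤ ENNReal.ofReal (1 / R) * ∫⁻ t in Ioo t₁ t₂, ENNReal.ofReal (A * E * √R) *
            ((∫⁻ y in ball x₀ R, ENNReal.ofReal (gsq (w t) y)) + ENNReal.ofReal (E ^ 2 / R ^ 2)) :=
            mul_le_mul_right (setLIntegral_mono' measurableSet_Ioo h6) _
        _ = ENNReal.ofReal (A * (E / √R)) * ((∫⁻ t in Ioo t₁ t₂,
            ∫⁻ y in ball x₀ R, ENNReal.ofReal (gsq (w t) y))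
              + ENNReal.ofReal (E ^ 2 / R ^ 2) * ENNReal.ofReal (t₂ - t₁)) := by
            rw [lintegral_const_mul' _ _ ENNReal.ofReal_ne_top,
              lintegral_add_right _ measurable_const, lintegral_const,
              Measure.restrict_apply_univ, Real.volume_Ioo, ← mul_assoc,
              ← ENNReal.ofReal_mul (by positivity)]
            congr 2
            have h11 : √R * √R = R := Real.mul_self_sqrt hR.le
            have h12 : 0 < √R := Real.sqrt_pos.2 hR
            field_simp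
            rw [Real.sq_sqrt hR.le]
            ring
        _ ≤ _ := by
            refine mul_le_mul_right (add_le_add h4 ?_) _
            rw [← ENNReal.ofReal_mul (by positivity)]
            apply ENNReal.ofReal_le_ofReal
            have : t₂ - t₁ ≤ T := by linarith
            calc E ^ 2 / R ^ 2 * (t₂ - t₁) ≤ E ^ 2 / R ^ 2 * T := by gcongr
              _ = _ := by ring
    have hE2 : 0 ≤ E / √R := by positivity
    calc ENNReal.ofReal C * ((∫⁻ t in Ioo t₁ t₂, ∫⁻ y in ball x₀ R, ENNReal.ofReal (gsq (w t) y))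
          + ENNReal.ofReal (1 / R) *
            ∫⁻ t in Ioo t₁ t₂, ∫⁻ y in ball x₀ (R / 2), ‖w t y‖ₑ ^ (3 : ℝ))
        ≤ ENNReal.ofReal C * ((P + ENNReal.ofReal (E ^ 2 * T / R ^ 2)) +
          ENNReal.ofReal (A * (E / √R)) * (P + ENNReal.ofReal (E ^ 2 * T / R ^ 2))) :=
          mul_le_mul_right (add_le_add (h4.trans le_self_add) h5) _
      _ = ENNReal.ofReal (C * (1 + A * (E / √R))) * (P + ENNReal.ofReal (E ^ 2 * T / R ^ 2)) := by
          rw [ENNReal.ofReal_mul hC.le, ENNReal.ofReal_add one_pos.le (by positivity),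
            ENNReal.ofReal_one]
          ring
      _ ≤ _ := by
          refine mul_le_mul_left (ENNReal.ofReal_le_ofReal ?_) _
          have h13 : 0 ≤ C * (E / √R) := by positivity
          have h14 : 0 ≤ C * A := by positivity
          nlinarith
  refine le_trans ?_ (key.trans (mul_le_mul_left (ENNReal.ofReal_le_ofReal ?_) _))
  · refine lintegral_mono fun t => lintegral_mono fun y => tsub_le_tsub_left
      (ENNReal.ofReal_le_ofReal ?_) _
    have h15 : 0 ≤ 1 / R ^ 4 + 1 / t ^ 2 := by positivity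
    have h16 : 0 ≤ 4 * C * A * (1 / R ^ 4 + 1 / t ^ 2) := by positivity
    nlinarith
  · have h17 : 0 ≤ C * (1 + A) * (1 + E / √R) := by positivity
    linarith

end Pool.Agent.Y7.D
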