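import Pool.Agent.Y7.DOmN
import Pool.Agent.Y7.AN.DOmA

/-!
The estimate in a domain, all viscosities, analytic constants (helper7; after `Y7.DOmN`).
-/

set_option autoImplicit false
set_option linter.unusedVariables false

open MeasureTheory Set Metric Filter Topology
open scoped ContDiff ENNReal NNReal

namespace Pool.Agent.Y7.D

open H459R3.NS W221.NS Pool.Agent.TH305.LW Pool.Agent.TH305.DR Pool.Agent.TH305.LG Pool.Agent.Y7
open Pool.Agent.Y7.Cov1

/-- The estimate for all viscosities. -/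
theorem domNA (hDP : S_LOCP) (hX : S_DEXT) (hL : S_DL3) : ∃ (C : ℝ) (K : ℕ → ℝ), 0 < C ∧ GQ K ∧
    ∀ (ν T E : ℝ) (Ω : Set V) (u : ℝ → V → V) (p : ℝ → V → ℝ) (x₀ : V) (R : ℝ), 0 < ν → 0 ≤ E →
      OSol ν T E Ω u p → 0 < R → closedBall x₀ (2 * R) ⊆ Ω →
      ∫⁻ t in Ioo 0 T, ∫⁻ y in ball x₀ (R / 4),
          (RegI K ν (u t) y - ENNReal.ofReal (C * (1 / R ^ 4 + 1 / (ν * t) ^ 2)))
        ≤ ENNReal.ofReal (C / ν ^ 2 * (1 + E / (ν * √R))) *
          ((∫⁻ t in Ioo 0 T, ∫⁻ y in ball x₀ R, ENNReal.ofReal (‖fderiv ℝ (u t) y‖ ^ 2))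
            + ENNReal.ofReal (E ^ 2 * T / R ^ 2)) := by
  obtain ⟨C, K, hC, hK, H⟩ := dw1A hDP hL
  obtain ⟨K', hK'd⟩ : ∃ K' : ℕ → ℝ, K' = fun n => √(3 ^ (n + 2) * K n) := ⟨_, rfl⟩
  have hK' : ∀ n, 0 < K' n := fun n => by
    rw [hK'd]
    have := hK.1 n
    positivity
  refine ⟨9 * C + 256, K', by positivity, hK'd.symm ▸ hK.sqrt, ?_⟩
  intro ν T E Ω u p x₀ R hν hE hS hR hΩ
  rcases le_or_gt T 0 with hT | hT
  · rw [Ioo_eq_empty (not_lt.2 hT)]
    simp
  have hS1 := W221.NS.B.p_osc ν T E Ω u p hν hS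
  obtain ⟨w, q, hN, hwu⟩ := hX (ν * T) (E / ν) Ω _ _ hS1 x₀ R hR hΩ
  have hRO : ball x₀ R ⊆ Ω := (ball_subset_closedBall.trans
    (closedBall_subset_closedBall (by linarith))).trans hΩ
  have hen : ∀ t ∈ Ioo 0 (ν * T), ∫ x in ball x₀ R, nsq (w t) x ≤ (E / ν) ^ 2 := by
    intro t ht
    calc ∫ x in ball x₀ R, nsq (w t) x
        = ∫ x in ball x₀ R, nsq (fun x => ν⁻¹ • u (t / ν) x) x := by
          refine setIntegral_congr_fun measurableSet_ball fun x hx => ?_
          have e1 := hwu t ht x hx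
          simp only [nsq] at *
          rw [e1]
      _ ≤ ∫ x in Ω, nsq (fun x => ν⁻¹ • u (t / ν) x) x := by
          refine setIntegral_mono_set (hS1.en_int t ht) (Eventually.of_forall fun x =>
            Finset.sum_nonneg fun i _ => sq_nonneg _) hRO.eventuallyLE
      _ ≤ _ := hS1.en t ht
  have h1 := H (ν * T) (E / ν) w q x₀ R hR (div_nonneg hE hν.le) hN hen
  have hkey : ∫⁻ t in Ioo 0 (ν * T), ∫⁻ y in ball x₀ (R / 4),
        (Reg K 1 (w t) y - ENNReal.ofReal (C * (1 / R ^ 4 + 1 / t ^ 2)))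
      ≤ ENNReal.ofReal (C * (1 + E / (ν * √R))) * ∫⁻ t in Ioo 0 (ν * T),
        ((∫⁻ y in ball x₀ R, ENNReal.ofReal (gsq (w t) y))
          + ENNReal.ofReal ((E / ν) ^ 2 / R ^ 2)) := by
    refine h1.trans (le_of_eq ?_)
    rw [lintegral_add_right _ measurable_const, lintegral_const, Measure.restrict_apply_univ,
      Real.volume_Ioo, ← ENNReal.ofReal_mul (by positivity)]
    congr 2
    · congr 1
      rw [div_div]
    · congr 1
      congr 1
      ring
  have hkey2 : ∫⁻ t in Ioo 0 T, ∫⁻ y in ball x₀ (R / 4),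
        (Reg K 1 (w (ν * t)) y - ENNReal.ofReal (C * (1 / R ^ 4 + 1 / (ν * t) ^ 2)))
      ≤ ENNReal.ofReal (C * (1 + E / (ν * √R))) * ∫⁻ t in Ioo 0 T,
        ((∫⁻ y in ball x₀ R, ENNReal.ofReal (gsq (w (ν * t)) y))
          + ENNReal.ofReal ((E / ν) ^ 2 / R ^ 2)) := by
    refine visc hν ?_
    refine le_trans (le_of_eq ?_) (hkey.trans (le_of_eq ?_))
    · refine lintegral_congr fun t => lintegral_congr fun y => ?_
      rw [mul_div_cancel₀ t hν.ne']
    · congr 1
      refine lintegral_congr fun t => ?_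
      rw [mul_div_cancel₀ t hν.ne']
  have hloc : ∀ t ∈ Ioo 0 T, ∀ y ∈ ball x₀ R, w (ν * t) y = ν⁻¹ • u t y := by
    intro t ht y hy
    have e1 := hwu (ν * t) ⟨mul_pos hν ht.1, by gcongr; exact ht.2⟩ y hy
    rw [e1, mul_div_cancel_left₀ t hν.ne']
  have hws : ∀ t ∈ Ioo 0 T, ContDiff ℝ ∞ (w (ν * t)) := fun t ht =>
    slice_cd hN.smooth_u ⟨mul_pos hν ht.1, by gcongr; exact ht.2⟩
  calc ∫⁻ t in Ioo 0 T, ∫⁻ y in ball x₀ (R / 4),
          (RegI K' ν (u t) y - ENNReal.ofReal ((9 * C + 256) * (1 / R ^ 4 + 1 / (ν * t) ^ 2)))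
      ≤ ∫⁻ t in Ioo 0 T, ∫⁻ y in ball x₀ (R / 4),
        (Reg K 1 (w (ν * t)) y - ENNReal.ofReal (C * (1 / R ^ 4 + 1 / (ν * t) ^ 2))) := by
        refine setLIntegral_mono' measurableSet_Ioo fun t ht => ?_
        refine setLIntegral_mono' measurableSet_ball fun y hy => ?_
        have h2 : RegI K' ν (u t) y ≤ Reg K 1 (w (ν * t)) y
            + ENNReal.ofReal (1 / (R / 4) ^ 4) := by
          refine (regI_loc hK' hν (hws t ht) (show 0 < R / 4 by positivity) ?_).trans ?_
          · intro z hz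
            refine hloc t ht z ?_
            rw [mem_ball] at hz hy ⊢
            have := dist_triangle z y x₀
            linarith
          · refine add_le_add_left ?_ _
            have := regI_le hK.1 (hws t ht) y
            rw [hK'd]
            exact this
        rw [tsub_le_iff_right]
        refine h2.trans ?_
        have h3 : ENNReal.ofReal (1 / (R / 4) ^ 4) + ENNReal.ofReal
            (C * (1 / R ^ 4 + 1 / (ν * t) ^ 2))
            ≤ ENNReal.ofReal ((9 * C + 256) * (1 / R ^ 4 + 1 / (ν * t) ^ 2)) := by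
          have p1 : 0 ≤ 1 / R ^ 4 := by positivity
          have p2 : 0 ≤ 1 / (ν * t) ^ 2 := by positivity
          rw [← ENNReal.ofReal_add (by positivity) (by positivity)]
          apply ENNReal.ofReal_le_ofReal
          have e1 : 1 / (R / 4) ^ 4 = 256 * (1 / R ^ 4) := by
            field_simp
            norm_num
          rw [e1]
          nlinarith [mul_nonneg hC.le p1, mul_nonneg hC.le p2]
        calc Reg K 1 (w (ν * t)) y + ENNReal.ofReal (1 / (R / 4) ^ 4)
            ≤ ((Reg K 1 (w (ν * t)) y - ENNReal.ofReal (C * (1 / R ^ 4 + 1 / (ν * t) ^ 2)))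
              + ENNReal.ofReal (C * (1 / R ^ 4 + 1 / (ν * t) ^ 2)))
                + ENNReal.ofReal (1 / (R / 4) ^ 4) := add_le_add_left le_tsub_add _
          _ = (Reg K 1 (w (ν * t)) y - ENNReal.ofReal (C * (1 / R ^ 4 + 1 / (ν * t) ^ 2)))
              + (ENNReal.ofReal (1 / (R / 4) ^ 4)
                + ENNReal.ofReal (C * (1 / R ^ 4 + 1 / (ν * t) ^ 2))) := by ring
          _ ≤ _ := add_le_add_right h3 _
    _ ≤ _ := hkey2
    _ ≤ ENNReal.ofReal (C * (1 + E / (ν * √R))) * ∫⁻ t in Ioo 0 T, ENNReal.ofReal (9 / ν ^ 2) *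
        ((∫⁻ y in ball x₀ R, ENNReal.ofReal (‖fderiv ℝ (u t) y‖ ^ 2))
          + ENNReal.ofReal (E ^ 2 / R ^ 2)) := by
        refine mul_le_mul_right (setLIntegral_mono' measurableSet_Ioo fun t ht => ?_) _
        rw [mul_add]
        refine add_le_add ?_ ?_
        · rw [← lintegral_const_mul' _ _ ENNReal.ofReal_ne_top]
          refine setLIntegral_mono' measurableSet_ball fun y hy => ?_
          rw [← ENNReal.ofReal_mul (by positivity)]
          apply ENNReal.ofReal_le_ofReal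
          have h3 := gsq_fd (hws t ht) y
          have e : w (ν * t) =ᶠ[𝓝 y] fun y => ν⁻¹ • u t y := by
            filter_upwards [isOpen_ball.mem_nhds hy] with z hz
            exact hloc t ht z hz
          have e2 : fderiv ℝ (w (ν * t)) y = ν⁻¹ • fderiv ℝ (u t) y := by
            rw [e.fderiv_eq]
            exact congrFun (fderiv_const_smul_field (𝕜 := ℝ) (f := u t) ν⁻¹) y
          rw [e2, norm_smul, norm_inv, Real.norm_eq_abs, abs_of_pos hν] at h3
          refine h3.trans (le_of_eq ?_)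
          field_simp
        · rw [← ENNReal.ofReal_mul (by positivity)]
          apply ENNReal.ofReal_le_ofReal
          have : (E / ν) ^ 2 / R ^ 2 = 1 / ν ^ 2 * (E ^ 2 / R ^ 2) := by
            field_simp
          rw [this]
          gcongr
          norm_num
    _ = ENNReal.ofReal (9 * C / ν ^ 2 * (1 + E / (ν * √R))) *
          ((∫⁻ t in Ioo 0 T, ∫⁻ y in ball x₀ R, ENNReal.ofReal (‖fderiv ℝ (u t) y‖ ^ 2))
            + ENNReal.ofReal (E ^ 2 * T / R ^ 2)) := by
        rw [lintegral_const_mul' _ _ ENNReal.ofReal_ne_top, ← mul_assoc,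
          ← ENNReal.ofReal_mul (by positivity), lintegral_add_right _ measurable_const,
          lintegral_const, Measure.restrict_apply_univ, Real.volume_Ioo, sub_zero,
          ← ENNReal.ofReal_mul (show (0 : ℝ) ≤ E ^ 2 / R ^ 2 by positivity)]
        congr 2
        · ring
        · congr 1
          ring
    _ ≤ _ := by
        refine mul_le_mul_left (ENNReal.ofReal_le_ofReal ?_) _
        have h4 : 0 ≤ 1 + E / (ν * √R) := by positivity
        gcongr
        linarith

end Pool.Agent.Y7.D
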