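import Pool.Agent.Y7.DFin
import Pool.Agent.Y7.AN.DOmNA

/-!
Interior estimates, analytic constants (helper7; after `Y7.DFin`).
-/

set_option autoImplicit false
set_option linter.unusedVariables false

open MeasureTheory Set Metric Filter Topology
open scoped ContDiff ENNReal NNReal

namespace Pool.Agent.Y7.D

open H459R3.NS W221.NS Pool.Agent.TH305.LW Pool.Agent.TH305.DR Pool.Agent.TH305.LG Pool.Agent.Y7
open Pool.Agent.Y7.Cov1

/-- The final statement. -/
theorem domFA (hDP : S_LOCP) (hX : S_DEXT) (hL : S_DL3) : ∃ C : ℝ, 0 < C ∧ ∃ K : ℕ → ℝ, GQ K ∧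
    ∀ (ν T E : ℝ) (Ω : Set V) (u : ℝ → V → V) (p : ℝ → V → ℝ) (x₀ : V) (R : ℝ), 0 < ν → 0 ≤ E →
      OSol ν T E Ω u p → 0 < R → closedBall x₀ R ⊆ Ω →
      (∫⁻ t in Ioo 0 T, ∫⁻ y in ball x₀ (R / 8),
          (invSc 4 1 K ν (u t) y - ENNReal.ofReal (C * (1 / R ^ 4 + 1 / (ν * t) ^ 2)))
        ≤ ENNReal.ofReal (C / ν ^ 2 * (1 + E / (ν * √R))) *
          ((∫⁻ t in Ioo 0 T, ∫⁻ y in ball x₀ R, ENNReal.ofReal (‖fderiv ℝ (u t) y‖ ^ 2))
            + ENNReal.ofReal (E ^ 2 * T / R ^ 2))) ∧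
      ∀ (n : ℕ) (t₀ : ℝ), 0 < t₀ →
        ∫⁻ t in Ioo t₀ T, ∫⁻ x in ball x₀ (R / 8),
            ENNReal.ofReal (‖iteratedFDeriv ℝ (n + 1) (u t) x‖ ^ (4 / (n + 2) : ℝ))
          ≤ ENNReal.ofReal (C * (K n * ν) ^ (4 / (n + 2) : ℝ)) *
            (ENNReal.ofReal (1 / ν ^ 2 * (1 + E / (ν * √R))) *
              ((∫⁻ t in Ioo 0 T, ∫⁻ y in ball x₀ R, ENNReal.ofReal (‖fderiv ℝ (u t) y‖ ^ 2))
                + ENNReal.ofReal (E ^ 2 * T / R ^ 2))
              + ENNReal.ofReal (T / R + R ^ 3 / (ν ^ 2 * t₀))) := by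
  obtain ⟨C, K, hC, hK, H⟩ := domNA hDP hX hL
  refine ⟨16 * C, by positivity, K, hK, ?_⟩
  intro ν T E Ω u p x₀ R hν hE hS hR hΩ
  have hR2 : 0 < R / 2 := by positivity
  have h1 := H ν T E Ω u p x₀ (R / 2) hν hE hS hR2 (by
    rw [mul_div_cancel₀ R two_ne_zero]
    exact hΩ)
  have hsq : √R ≤ 2 * √(R / 2) := by
    rw [show (2 : ℝ) = √4 by rw [show (4 : ℝ) = 2 ^ 2 by norm_num, Real.sqrt_sq zero_le_two],
      ← Real.sqrt_mul (by norm_num)]
    apply Real.sqrt_le_sqrt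
    linarith
  have hs1 : 0 < √R := Real.sqrt_pos.2 hR
  have hs2 : 0 < √(R / 2) := Real.sqrt_pos.2 hR2
  rw [show R / 2 / 4 = R / 8 by ring] at h1
  have hfac : 1 + E / (ν * √(R / 2)) ≤ 2 * (1 + E / (ν * √R)) := by
    have : E / (ν * √(R / 2)) ≤ 2 * (E / (ν * √R)) := by
      rw [← mul_div_assoc, div_le_div_iff₀ (by positivity) (by positivity)]
      calc E * (ν * √R) ≤ E * (ν * (2 * √(R / 2))) := by gcongr
        _ = _ := by ring
    linarith
  have h2 : ∫⁻ t in Ioo 0 T, ∫⁻ y in ball x₀ (R / 8),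
          (RegI K ν (u t) y - ENNReal.ofReal (16 * C * (1 / R ^ 4 + 1 / (ν * t) ^ 2)))
        ≤ ENNReal.ofReal (16 * C / ν ^ 2 * (1 + E / (ν * √R))) *
          ((∫⁻ t in Ioo 0 T, ∫⁻ y in ball x₀ R, ENNReal.ofReal (‖fderiv ℝ (u t) y‖ ^ 2))
            + ENNReal.ofReal (E ^ 2 * T / R ^ 2)) := by
    calc ∫⁻ t in Ioo 0 T, ∫⁻ y in ball x₀ (R / 8),
          (RegI K ν (u t) y - ENNReal.ofReal (16 * C * (1 / R ^ 4 + 1 / (ν * t) ^ 2)))
        ≤ ∫⁻ t in Ioo 0 T, ∫⁻ y in ball x₀ (R / 8),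
          (RegI K ν (u t) y - ENNReal.ofReal (C * (1 / (R / 2) ^ 4 + 1 / (ν * t) ^ 2))) := by
          refine lintegral_mono fun t => lintegral_mono fun y => tsub_le_tsub_left
            (ENNReal.ofReal_le_ofReal ?_) _
          have e1 : 1 / (R / 2) ^ 4 = 16 * (1 / R ^ 4) := by
            field_simp
            norm_num
          have p2 : 0 ≤ 1 / (ν * t) ^ 2 := by positivity
          rw [e1]
          nlinarith [mul_nonneg hC.le p2]
      _ ≤ _ := h1
      _ ≤ ENNReal.ofReal (4 * C / ν ^ 2 * (1 + E / (ν * √R))) * (4 *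
          ((∫⁻ t in Ioo 0 T, ∫⁻ y in ball x₀ R, ENNReal.ofReal (‖fderiv ℝ (u t) y‖ ^ 2))
            + ENNReal.ofReal (E ^ 2 * T / R ^ 2))) := by
          refine mul_le_mul' (ENNReal.ofReal_le_ofReal ?_) ?_
          · calc C / ν ^ 2 * (1 + E / (ν * √(R / 2)))
                ≤ C / ν ^ 2 * (2 * (1 + E / (ν * √R))) := by gcongr
              _ ≤ 4 * C / ν ^ 2 * (1 + E / (ν * √R)) := by
                  have : 0 ≤ C / ν ^ 2 * (1 + E / (ν * √R)) := by positivity
                  have e2 : 4 * C / ν ^ 2 * (1 + E / (ν * √R))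
                    = 4 * (C / ν ^ 2 * (1 + E / (ν * √R))) := by ring
                  rw [e2]
                  linarith
          · rw [mul_add]
            refine add_le_add ?_ (le_of_eq ?_)
            · calc ∫⁻ t in Ioo 0 T, ∫⁻ y in ball x₀ (R / 2),
                    ENNReal.ofReal (‖fderiv ℝ (u t) y‖ ^ 2)
                  ≤ ∫⁻ t in Ioo 0 T, ∫⁻ y in ball x₀ R,
                    ENNReal.ofReal (‖fderiv ℝ (u t) y‖ ^ 2) :=
                    lintegral_mono fun t => lintegral_mono_set (ball_subset_ball (by linarith))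
                _ = 1 * ∫⁻ t in Ioo 0 T, ∫⁻ y in ball x₀ R,
                    ENNReal.ofReal (‖fderiv ℝ (u t) y‖ ^ 2) := (one_mul _).symm
                _ ≤ _ := by
                    gcongr
                    norm_num
            · rw [show (4 : ℝ≥0∞) = ENNReal.ofReal 4 by norm_num,
                ← ENNReal.ofReal_mul (by norm_num)]
              congr 1
              field_simp
              norm_num
      _ = _ := by
          rw [← mul_assoc]
          congr 1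
          rw [show (4 : ℝ≥0∞) = ENNReal.ofReal 4 by norm_num,
            ← ENNReal.ofReal_mul (by positivity)]
          congr 1
          ring
  refine ⟨?_, ?_⟩
  · refine le_trans ?_ h2
    exact lintegral_mono fun t => lintegral_mono fun y => tsub_le_tsub_right
      (invSc_RegI (fun n => le_rfl) hν _ _) _
  · intro n t₀ ht₀
    rcases le_or_gt T t₀ with hT | hT
    · rw [Ioo_eq_empty (not_lt.2 hT)]
      simp
    have hT0 : 0 < T := ht₀.trans hT
    have h5 := to_der hν (show 0 ≤ 16 * C by positivity) (show 0 ≤ 1 / R ^ 4 by positivity) h2 n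
      (hK.1 n) ht₀ (subset_rfl)
    refine h5.trans ?_
    have hKν : 0 ≤ (K n * ν) ^ (4 / (n + 2) : ℝ) :=
      Real.rpow_nonneg (mul_nonneg (hK.1 n).le hν.le) _
    have e0 : ∀ Z : ℝ≥0∞, ENNReal.ofReal (16 * C * (K n * ν) ^ (4 / (n + 2) : ℝ)) * Z
        = ENNReal.ofReal ((K n * ν) ^ (4 / (n + 2) : ℝ)) * (ENNReal.ofReal (16 * C) * Z) := by
      intro Z
      rw [← mul_assoc, ← ENNReal.ofReal_mul hKν, mul_comm (16 * C)]
    rw [e0, ball_vol x₀ (by positivity : 0 < R / 8)]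
    refine mul_le_mul_right ?_ _
    refine le_trans ?_ (le_of_eq (mul_add (ENNReal.ofReal (16 * C)) _ _).symm)
    refine add_le_add (le_of_eq ?_) ?_
    · rw [← mul_assoc, ← ENNReal.ofReal_mul (by positivity)]
      congr 2
      ring
    · rw [← ENNReal.ofReal_mul (by positivity), ← ENNReal.ofReal_mul (by positivity)]
      apply ENNReal.ofReal_le_ofReal
      have e3 : 16 * C * (1 / R ^ 4 * T + 1 / (ν ^ 2 * t₀)) * (8 * (R / 8) ^ 3)
          = 16 * C * ((T / R + R ^ 3 / (ν ^ 2 * t₀)) * (1 / 64)) := by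
        field_simp
        ring
      rw [e3]
      have : 0 ≤ T / R + R ^ 3 / (ν ^ 2 * t₀) := by positivity
      gcongr
      linarith

end Pool.Agent.Y7.D
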