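import Pool.Agent.Y7.DLag
import Pool.Agent.Y7.AN.DRegWA

/-!
The particles, solutions in a domain, analytic constants (helper7; after `Y7.DLag`).
-/

set_option autoImplicit false
set_option linter.unusedVariables false

open MeasureTheory Set Metric Filter Topology
open scoped ContDiff ENNReal NNReal

namespace Pool.Agent.Y7.D

open H459R3.NS W221.NS Pool.Agent.TH305.LW Pool.Agent.TH305.DR Pool.Agent.TH305.LG Pool.Agent.Y7

/-- The particles in a ball, viscosity one. -/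
theorem lagDA (hDP : S_LOCP) : ∃ (C : ℝ) (K : ℕ → ℝ), 0 < C ∧ GK K ∧
    ∀ (T : ℝ) (u : ℝ → V → V) (p : ℝ → V → ℝ) (x₀ : V) (R : ℝ), 0 < R →
      DSol T (ball x₀ R) u p → ∀ t₁ : ℝ, 0 < t₁ → t₁ < T →
      ∃ X : ℝ → V → V, (∀ a, X t₁ a = a) ∧ (∀ a, Pathline u t₁ T (fun t => X t a)) ∧
      ∫⁻ a, ⨆ t ∈ stay t₁ T (ball x₀ (R / 4)) X a, (RegW K 1 (u t) (X t a)
          - ENNReal.ofReal (C * (1 / R ^ 2 + 1 / (t - t₁))))
        ≤ ENNReal.ofReal C * ∫⁻ t in Ioo t₁ T, ∫⁻ y in ball x₀ R, ENNReal.ofReal (gsq (u t) y) := by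
  obtain ⟨C, K, hC, hK, H⟩ := partWA hDP
  obtain ⟨A, hA, hFx⟩ := FxLoc
  refine ⟨C * (1024 + A), K, by positivity, hK, ?_⟩
  intro T u p x₀ R hR hN t₁ h1 h2
  obtain ⟨X, hX0, hX1, hX2, hX3⟩ := flowG hN h1 h2
  refine ⟨X, hX0, hX1, ?_⟩
  have hR2 : 0 < R / 2 := by positivity
  have hsc : sc (R / 2) 0 = R / 32 := by
    unfold sc Hl.Rr
    rw [pow_zero, div_one]
    ring
  obtain ⟨B, hBd⟩ : ∃ B : Set V, B = ball x₀ (R / 4) := ⟨_, rfl⟩
  have hBm : MeasurableSet B := by rw [hBd]; exact measurableSet_ball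
  obtain ⟨f, hf⟩ : ∃ f : ℝ × V → ℝ≥0∞,
    f = fun z : ℝ × V => (Ioo t₁ T).indicator
      (fun τ => B.indicator (Fx (R / 2) (u τ)) (X τ z.2)) z.1 := ⟨_, rfl⟩
  have hfm : Measurable f := by
    rw [hf]
    exact fX_measB hN.smooth_u (R / 2) h1 hX2 hBm
  rw [← hBd]
  have hpt : ∀ a, (⨆ t ∈ stay t₁ T B X a, (RegW K 1 (u t) (X t a)
        - ENNReal.ofReal (C * (1024 + A) * (1 / R ^ 2 + 1 / (t - t₁)))))
      ≤ ENNReal.ofReal C * ∫⁻ τ, f (τ, a) := by
    intro a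
    refine iSup₂_le fun t ht => ?_
    obtain ⟨ht1, ht2⟩ := ht
    have h4 : 0 < t - t₁ := by linarith [ht1.1]
    rw [tsub_le_iff_left]
    refine (H T (ball x₀ R) u p hN (R / 2) hR2 t₁ t h1.le ht1.1 ht1.2 _
      (path_traj (hX1 a) ht1.2) (fun τ hτ => ?_)).trans ?_
    · have h3 := ht2 τ ⟨hτ.1.le, hτ.2.le⟩
      rw [hBd, mem_ball] at h3
      apply ball_subset_ball'
      rw [hsc]
      linarith
    rw [mul_add, ← ENNReal.ofReal_add (by positivity) (by positivity), ← ENNReal.ofReal_mul hC.le]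
    refine add_le_add (ENNReal.ofReal_le_ofReal ?_) (mul_le_mul_right ?_ _)
    · rw [hsc]
      have e1 : 1 / (R / 32) ^ 2 = 1024 * (1 / R ^ 2) := by
        field_simp
        norm_num
      have p1 : 0 ≤ 1 / R ^ 2 := by positivity
      have p2 : 0 ≤ 1 / (t - t₁) := by positivity
      rw [e1, mul_assoc]
      apply mul_le_mul_of_nonneg_left _ hC.le
      nlinarith [mul_nonneg hA.le p1, mul_nonneg hA.le p2]
    · rw [← lintegral_indicator measurableSet_Ioo]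
      refine lintegral_mono fun τ => ?_
      rw [hf]
      by_cases hτ : τ ∈ Ioo t₁ t
      · rw [indicator_of_mem hτ]
        simp only
        rw [indicator_of_mem (show τ ∈ Ioo t₁ T from ⟨hτ.1, hτ.2.trans ht1.2⟩),
          indicator_of_mem (ht2 τ ⟨hτ.1.le, hτ.2.le⟩)]
      · rw [indicator_of_notMem hτ]
        exact zero_le
  have hFi : ∀ τ ∈ Ioo t₁ T, ∫⁻ a, B.indicator (Fx (R / 2) (u τ)) (X τ a)
      ≤ ENNReal.ofReal A * ∫⁻ y in ball x₀ R, ENNReal.ofReal (gsq (u τ) y) := by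
    intro τ hτ
    have hτT : τ ∈ Ioo 0 T := ⟨h1.trans hτ.1, hτ.2⟩
    have hus := slice_cd hN.smooth_u hτT
    have hs' : τ ∈ Ico t₁ T := ⟨hτ.1.le, hτ.2⟩
    have hc : Continuous (X τ) := continuousOn_univ.1 (hX2.comp
      (f := fun a : V => (τ, a)) (by fun_prop) (fun a _ => ⟨hs', mem_univ _⟩))
    refine (univ_tr hc.measurable (hX3 τ hs') ((Fx_meas _ hus).indicator hBm)).trans ?_
    rw [lintegral_indicator hBm]
    obtain ⟨M, hM0, hM⟩ := hN.bdd τ τ hτT.1 hτT.2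
    exact hFx (R / 2) hR2 (ball x₀ R) B measurableSet_ball hBm (fun x hx => by
      apply ball_subset_ball'
      rw [hBd, mem_ball] at hx
      linarith) (u τ) hus M fun x => (hM τ ⟨le_rfl, le_rfl⟩ x).2
  calc ∫⁻ a, ⨆ t ∈ stay t₁ T B X a, (RegW K 1 (u t) (X t a)
        - ENNReal.ofReal (C * (1024 + A) * (1 / R ^ 2 + 1 / (t - t₁))))
      ≤ ∫⁻ a, ENNReal.ofReal C * ∫⁻ τ, f (τ, a) := lintegral_mono hpt
    _ = ENNReal.ofReal C * ∫⁻ a, ∫⁻ τ, f (τ, a) :=
        lintegral_const_mul' _ _ ENNReal.ofReal_ne_top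
    _ = ENNReal.ofReal C * ∫⁻ τ, ∫⁻ a, f (τ, a) := by
        rw [lintegral_lintegral_swap (f := fun τ a => f (τ, a)) hfm.aemeasurable]
    _ = ENNReal.ofReal C * ∫⁻ τ in Ioo t₁ T, ∫⁻ a, B.indicator (Fx (R / 2) (u τ)) (X τ a) := by
        congr 1
        rw [← lintegral_indicator measurableSet_Ioo]
        refine lintegral_congr fun τ => ?_
        by_cases hτ : τ ∈ Ioo t₁ T
        · rw [indicator_of_mem hτ]
          refine lintegral_congr fun a => ?_
          rw [hf]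
          exact indicator_of_mem hτ _
        · rw [indicator_of_notMem hτ]
          have : ∀ a, f (τ, a) = 0 := by
            intro a
            rw [hf]
            exact indicator_of_notMem hτ _
          simp only [this, lintegral_zero]
    _ ≤ ENNReal.ofReal C * ∫⁻ τ in Ioo t₁ T, ENNReal.ofReal A *
          ∫⁻ y in ball x₀ R, ENNReal.ofReal (gsq (u τ) y) :=
        mul_le_mul_right (setLIntegral_mono' measurableSet_Ioo hFi) _
    _ = ENNReal.ofReal (C * A) * ∫⁻ τ in Ioo t₁ T,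
          ∫⁻ y in ball x₀ R, ENNReal.ofReal (gsq (u τ) y) := by
        rw [lintegral_const_mul' _ _ ENNReal.ofReal_ne_top, ← mul_assoc,
          ← ENNReal.ofReal_mul hC.le]
    _ ≤ _ := by
        refine mul_le_mul_left (ENNReal.ofReal_le_ofReal ?_) _
        nlinarith

end Pool.Agent.Y7.D
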