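import Pool.Agent.Y7.DFin2
import Pool.Agent.Y7.AN.DFinA
import Pool.Agent.Y7.AN.DPathA

/-!
Interior estimates, the final statement, analytic constants (helper7; after `Y7.DFin2`).
-/

set_option autoImplicit false
set_option linter.unusedVariables false

open MeasureTheory Set Metric Filter Topology
open scoped ContDiff ENNReal NNReal

namespace Pool.Agent.Y7.D

open H459R3.NS W221.NS Pool.Agent.TH305.LW Pool.Agent.TH305.DR Pool.Agent.TH305.LG Pool.Agent.Y7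

/-- The final statement. -/
theorem domGA (hDP : S_LOCP) (hX : S_DEXT) (hL : S_DL3) : ∃ C : ℝ, 0 < C ∧ ∃ K : ℕ → ℝ, GQ K ∧
    ∀ (ν T E : ℝ) (Ω : Set V) (u : ℝ → V → V) (p : ℝ → V → ℝ) (x₀ : V) (R : ℝ), 0 < ν → 0 ≤ E →
      OSol ν T E Ω u p → 0 < R → closedBall x₀ R ⊆ Ω →
      (∫⁻ t in Ioo 0 T, ∫⁻ y in ball x₀ (R / 8),
          (invSc 4 1 K ν (u t) y - ENNReal.ofReal (C * (1 / R ^ 4 + 1 / (ν * t) ^ 2)))
        ≤ ENNReal.ofReal (C / ν ^ 2 * (1 + E / (ν * √R))) *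
          ((∫⁻ t in Ioo 0 T, ∫⁻ y in ball x₀ R, ENNReal.ofReal (‖fderiv ℝ (u t) y‖ ^ 2))
            + ENNReal.ofReal (E ^ 2 * T / R ^ 2))) ∧
      (∀ (n : ℕ) (t₀ : ℝ), 0 < t₀ →
        ∫⁻ t in Ioo t₀ T, ∫⁻ x in ball x₀ (R / 8),
            ENNReal.ofReal (‖iteratedFDeriv ℝ (n + 1) (u t) x‖ ^ (4 / (n + 2) : ℝ))
          ≤ ENNReal.ofReal (C * (K n * ν) ^ (4 / (n + 2) : ℝ)) *
            (ENNReal.ofReal (1 / ν ^ 2 * (1 + E / (ν * √R))) *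
              ((∫⁻ t in Ioo 0 T, ∫⁻ y in ball x₀ R, ENNReal.ofReal (‖fderiv ℝ (u t) y‖ ^ 2))
                + ENNReal.ofReal (E ^ 2 * T / R ^ 2))
              + ENNReal.ofReal (T / R + R ^ 3 / (ν ^ 2 * t₀)))) ∧
      ∀ t₁ ∈ Ioo 0 T, ∃ X : ℝ → V → V, (∀ a, X t₁ a = a) ∧
        (∀ a, ContinuousOn (fun t => X t a) (Ico t₁ T)) ∧
        (∀ a, ∀ t ∈ Ioo t₁ T, X t a ∈ ball x₀ (R / 2) →
          HasDerivAt (fun s => X s a) (u t (X t a)) t) ∧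
        (∫⁻ a, ⨆ t ∈ stay t₁ T (ball x₀ (R / 8)) X a, (invSc 2 0 K ν (vort (u t)) (X t a)
            - ENNReal.ofReal (C * (1 / R ^ 2 + 1 / (ν * (t - t₁)))))
          ≤ ENNReal.ofReal (C / ν) *
            ∫⁻ t in Ioo t₁ T, ∫⁻ y in ball x₀ R, ENNReal.ofReal (‖fderiv ℝ (u t) y‖ ^ 2)) ∧
        ∀ (n : ℕ) (t₀ : ℝ), t₁ < t₀ →
          ∫⁻ a, ⨆ t ∈ Ici t₀ ∩ stay t₁ T (ball x₀ (R / 8)) X a, ENNReal.ofReal
              (‖iteratedFDeriv ℝ n (vort (u t)) (X t a)‖ ^ (2 / (n + 2) : ℝ))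
            ≤ ENNReal.ofReal (C * (K n * ν) ^ (2 / (n + 2) : ℝ)) *
              (ENNReal.ofReal (1 / ν) *
                (∫⁻ t in Ioo t₁ T, ∫⁻ y in ball x₀ R, ENNReal.ofReal (‖fderiv ℝ (u t) y‖ ^ 2))
                + ENNReal.ofReal (R + R ^ 3 / (ν * (t₀ - t₁)))) := by
  obtain ⟨C₁, hC₁, K₁, hK₁, H₁⟩ := domFA hDP hX hL
  obtain ⟨C₂, K₂, hC₂, hK₂, H₂⟩ := pathNA hDP hX
  obtain ⟨K, hKd⟩ : ∃ K : ℕ → ℝ, K = fun n => K₁ n + K₂ n := ⟨_, rfl⟩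
  have hK1 : ∀ n, K₁ n ≤ K n := fun n => by rw [hKd]; linarith [hK₂.1 n]
  have hK2 : ∀ n, K₂ n ≤ K n := fun n => by rw [hKd]; linarith [hK₁.1 n]
  have hK : ∀ n, 0 < K n := fun n => (hK₁.1 n).trans_le (hK1 n)
  obtain ⟨C, hCd⟩ : ∃ C : ℝ, C = C₁ + 4 * C₂ := ⟨_, rfl⟩
  have hC1 : C₁ ≤ C := by rw [hCd]; linarith
  have hC2 : 4 * C₂ ≤ C := by rw [hCd]; linarith
  have hC : 0 < C := hC₁.trans_le hC1
  refine ⟨C, hC, K, hKd.symm ▸ hK₁.add hK₂, ?_⟩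
  intro ν T E Ω u p x₀ R hν hE hS hR hΩ
  obtain ⟨h1, h2⟩ := H₁ ν T E Ω u p x₀ R hν hE hS hR hΩ
  refine ⟨?_, ?_, ?_⟩
  · refine le_trans ?_ (h1.trans (mul_le_mul_left (ENNReal.ofReal_le_ofReal ?_) _))
    · refine lintegral_mono fun t => lintegral_mono fun y => tsub_le_tsub
        (invSc_mono hK1 hν _ _) (ENNReal.ofReal_le_ofReal ?_)
      gcongr
    · gcongr
  · intro n t₀ ht₀
    refine (h2 n t₀ ht₀).trans (mul_le_mul_left (ENNReal.ofReal_le_ofReal ?_) _)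
    have := hK₁.1 n
    have := hK1 n
    gcongr
  · intro t₁ ht₁
    have hR2 : 0 < R / 2 := by positivity
    obtain ⟨X, hX0, hX1, hX2, hX3⟩ := H₂ ν T E Ω u p x₀ (R / 2) hν hS hR2 (by
      rw [mul_div_cancel₀ R two_ne_zero]
      exact hΩ) t₁ ht₁
    rw [show R / 2 / 4 = R / 8 by ring] at hX3
    have h3 : ∫⁻ a, ⨆ t ∈ stay t₁ T (ball x₀ (R / 8)) X a, (invSc 2 0 K ν (vort (u t)) (X t a)
            - ENNReal.ofReal (C * (1 / R ^ 2 + 1 / (ν * (t - t₁)))))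
          ≤ ENNReal.ofReal (C / ν) *
            ∫⁻ t in Ioo t₁ T, ∫⁻ y in ball x₀ R, ENNReal.ofReal (‖fderiv ℝ (u t) y‖ ^ 2) := by
      refine le_trans ?_ (hX3.trans (mul_le_mul' (ENNReal.ofReal_le_ofReal ?_) ?_))
      · refine lintegral_mono fun a => iSup₂_mono fun t ht => tsub_le_tsub
          (invSc_mono hK2 hν _ _) (ENNReal.ofReal_le_ofReal ?_)
        have e1 : 1 / (R / 2) ^ 2 = 4 * (1 / R ^ 2) := by
          field_simp
          norm_num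
        have p1 : 0 ≤ 1 / R ^ 2 := by positivity
        have h4 : 0 < ν * (t - t₁) := mul_pos hν (by linarith [ht.1.1])
        have p2 : 0 ≤ 1 / (ν * (t - t₁)) := by positivity
        calc C₂ * (1 / (R / 2) ^ 2 + 1 / (ν * (t - t₁)))
            ≤ 4 * C₂ * (1 / R ^ 2 + 1 / (ν * (t - t₁))) := by
              rw [e1]
              nlinarith [mul_nonneg hC₂.le p2]
          _ ≤ _ := by gcongr
      · gcongr
        linarith
      · exact lintegral_mono fun t => lintegral_mono_set (ball_subset_ball (by linarith))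
    refine ⟨X, hX0, hX1, hX2, h3, ?_⟩
    intro n t₀ ht₀
    have h5 := path_der hν (show 0 ≤ 1 / R ^ 2 by positivity) hX0 measurableSet_ball hC.le h3 n
      (hK n) ht₀
    refine h5.trans ?_
    have hKν : 0 ≤ (K n * ν) ^ (2 / (n + 2) : ℝ) :=
      Real.rpow_nonneg (mul_nonneg (hK n).le hν.le) _
    have e0 : ∀ Z : ℝ≥0∞, ENNReal.ofReal (C * (K n * ν) ^ (2 / (n + 2) : ℝ)) * Z
        = ENNReal.ofReal ((K n * ν) ^ (2 / (n + 2) : ℝ)) * (ENNReal.ofReal C * Z) := by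
      intro Z
      rw [← mul_assoc, ← ENNReal.ofReal_mul hKν, mul_comm C]
    rw [e0, ball_vol x₀ (by positivity : 0 < R / 8)]
    refine mul_le_mul_right ?_ _
    have h6 : 0 < t₀ - t₁ := by linarith
    refine le_trans ?_ (le_of_eq (mul_add (ENNReal.ofReal C) _ _).symm)
    refine add_le_add (le_of_eq ?_) ?_
    · rw [← mul_assoc, ← ENNReal.ofReal_mul hC.le]
      congr 2
      ring
    · rw [← ENNReal.ofReal_mul (by positivity), ← ENNReal.ofReal_mul (by positivity)]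
      apply ENNReal.ofReal_le_ofReal
      have e3 : C * (1 / R ^ 2 + 1 / (ν * (t₀ - t₁))) * (8 * (R / 8) ^ 3)
          = C * ((R + R ^ 3 / (ν * (t₀ - t₁))) * (1 / 64)) := by
        field_simp
        ring
      rw [e3]
      have : 0 ≤ R + R ^ 3 / (ν * (t₀ - t₁)) := by positivity
      gcongr
      linarith

end Pool.Agent.Y7.D
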