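import Pool.Agent.Y8.WLocG
import Pool.Agent.Y7.AN.Kp

/-!
Little oscillation along a path of the mollified velocity, analytic constants (helper7, helper8;
after `Y8.WLocG`).
-/

set_option autoImplicit false
set_option linter.unusedVariables false

open MeasureTheory Set Metric Filter Topology
open scoped ContDiff ENNReal NNReal

namespace Pool.Agent.Y8.WS

open H459R3.NS W221.NS Pool.Agent.Y7 Pool.Agent.Y8 Pool.Agent.Y8.WE Pool.Agent.Y458.NS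
open Pool.Agent.TH305.DR

/-- Little oscillation along a path of the mollified velocity bounds all derivatives around it,
at a regular time. -/
theorem wlocGA (hD : S_WDERP) : ∃ (η : ℝ) (K : ℕ → ℝ), 0 < η ∧ GK K ∧
    ∀ (T E D : ℝ) (G : Set ℝ) (u : ℝ → V → V) (p : ℝ → V → ℝ), Turb 1 T E D G u p →
      ∀ R₀ : ℝ, 0 < R₀ → ∀ (m N : ℕ) (s : ℝ), m + 4 ≤ N → sc R₀ m ≤ 1 →
      sc R₀ m ^ 2 < s → s ∈ G → ∀ (ξ ξ' : ℝ → V) (B B' : ℝ),
      FPath T (sc R₀ N) B B' G u p ξ ξ' →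
      ∫⁻ τ in Ioo (s - sc R₀ m ^ 2) s, Fx R₀ (u τ) (ξ τ) ≤ ENNReal.ofReal (η / sc R₀ m ^ 2) →
      ∀ n, ∀ y ∈ ball (ξ s) (sc R₀ m / 256),
        (sc R₀ m / 16) ^ (2 * n + 4) * ST n (u s) y ≤ K n ∧
        (sc R₀ m / 16) ^ (2 * n + 4) * SV (n + 1) (u s) y
          ≤ K (n + 1) * (1 + A2 0 4 (fr (sc R₀ (m + 4)) (u s) (ξ s))) := by
  obtain ⟨ε, hε, Cl, hCl, hloc⟩ := hD
  obtain ⟨K₁, hK₁, hclose⟩ := t_WCLOSE
  obtain ⟨C₂, hC₂, hsmall⟩ := wsmall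
  obtain ⟨Kp, hKp, hpath⟩ := path_ex Pool.Agent.Y8.B.p_tcut Pool.Agent.Y8.B.p_acx
  obtain ⟨η, hη, hη1, hη2, hη3⟩ : ∃ η : ℝ, 0 < η ∧ K₁ * √η ≤ 1 / 16 ∧ C₂ * η ≤ 1 ∧
      16 * (C₂ * η) ≤ ε := by
    refine ⟨min ((1 / (16 * K₁)) ^ 2) (min (1 / C₂) (ε / (16 * C₂))), by positivity, ?_, ?_, ?_⟩
    · have h1 : √(min ((1 / (16 * K₁)) ^ 2) (min (1 / C₂) (ε / (16 * C₂)))) ≤ 1 / (16 * K₁) := by
        refine (Real.sqrt_le_sqrt (min_le_left _ _)).trans (le_of_eq ?_)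
        exact Real.sqrt_sq (by positivity)
      calc K₁ * √(min ((1 / (16 * K₁)) ^ 2) (min (1 / C₂) (ε / (16 * C₂))))
          ≤ K₁ * (1 / (16 * K₁)) := by gcongr
        _ = 1 / 16 := by field_simp
    · calc C₂ * min ((1 / (16 * K₁)) ^ 2) (min (1 / C₂) (ε / (16 * C₂)))
          ≤ C₂ * (1 / C₂) := by
            gcongr
            exact (min_le_right _ _).trans (min_le_left _ _)
        _ = 1 := by field_simp
    · calc 16 * (C₂ * min ((1 / (16 * K₁)) ^ 2) (min (1 / C₂) (ε / (16 * C₂))))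
          ≤ 16 * (C₂ * (ε / (16 * C₂))) := by
            gcongr
            exact (min_le_right _ _).trans (min_le_right _ _)
        _ = ε := by field_simp
  refine ⟨η, Cl, hη, hCl, ?_⟩
  intro T E D G u p h R₀ hR₀ m N s hmN hsc1 hrs hsG ξ ξ' B B' hξ hI n y hy
  have hr := sc_pos hR₀ m
  have hu := h.smooth_u
  have hs := h.subG hsG
  have hsT : s < T := hs.2
  -- the two scales
  obtain ⟨r, hrd⟩ : ∃ r, r = sc R₀ m := ⟨_, rfl⟩
  obtain ⟨r', hr'd⟩ : ∃ r', r' = sc R₀ (m + 4) := ⟨_, rfl⟩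
  have hrr : r' = r / 16 := by
    rw [hr'd, hrd, sc_add]
    norm_num
  have hr' : 0 < r' := by
    rw [hr'd]
    exact sc_pos hR₀ _
  have hcl0 := hclose T E D G u p h R₀ hR₀ m N (by omega) s
  have hcl1 := hclose T E D G u p h R₀ hR₀ (m + 4) N (by omega) s
  have hsm := hsmall T E D G u p h R₀ hR₀ m s
  rw [← hrd] at hr hrs hI hy hsc1 hcl0 hsm ⊢
  rw [← hr'd] at hcl1 ⊢
  have hr'1 : r' ≤ 1 := by rw [hrr]; linarith
  have hr2 : 0 < r ^ 2 := by positivity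
  have hα : 0 < s - r ^ 2 := by linarith
  have hs0 : 0 < s := hs.1
  obtain ⟨C1, hC1, hp1⟩ := hpath E r hr hsc1
  obtain ⟨C1', hC1', hp1'⟩ := hpath E r' hr' hr'1
  obtain ⟨Y, Z, hYs, hY⟩ := hp1 T D G u p h s hs (ξ s)
  obtain ⟨Y', Z', hYs', hY'⟩ := hp1' T D G u p h s hs (ξ s)
  have hsubT : ∀ τ ∈ Icc (s - r ^ 2) s, τ ∈ Ioo 0 T := fun τ hτ =>
    ⟨hα.trans_le hτ.1, hτ.2.trans_lt hsT⟩
  have hξc : ContinuousOn ξ (Icc (s - r ^ 2) s) := fun τ hτ =>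
    (hξ.hd τ (hsubT τ hτ)).continuousAt.continuousWithinAt
  have hYc : ∀ τ ∈ Ioo 0 T, ContinuousAt Y' τ := fun τ hτ => (hY'.hd τ hτ).continuousAt
  -- the square root of the function along the path
  have hae : ∀ᵐ t : ℝ, t ∈ Ioo (0 : ℝ) T → t ∈ G := by
    have h1 := h.fullG
    rw [← compl_mem_ae_iff] at h1
    filter_upwards [h1] with t ht ht2
    by_contra h3
    exact ht ⟨ht2, h3⟩
  have hFm : AEMeasurable (fun τ => Fx R₀ (u τ) (ξ τ)) (volume.restrict (Ioo (s - r ^ 2) s)) := by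
    have h1 : AEMeasurable (fun τ => Fx R₀ (u τ) (ξ τ)) (volume.restrict G) :=
      WS_meas R₀ h.openG hu (hξ.sm.continuousOn)
    apply h1.mono_measure
    apply Measure.restrict_mono' _ le_rfl
    filter_upwards [hae] with t ht h3
    exact ht (hsubT t (Ioo_subset_Icc_self h3))
  have hhalf : ENNReal.ofReal K₁ * ∫⁻ τ in Ioo (s - r ^ 2) s, Fx R₀ (u τ) (ξ τ) ^ (1 / 2 : ℝ)
      ≤ ENNReal.ofReal (1 / 16) := by
    refine (mul_le_mul_right (halfO hr2 hη.le hFm hI) _).trans ?_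
    rw [← ENNReal.ofReal_mul hK₁.le]
    exact ENNReal.ofReal_le_ofReal hη1
  have d0 := hcl0 (r ^ 2) hr2 hα hsT ξ ξ' Y Z _ _ _ _ hξ hY hYs hhalf
  have d1 := hcl1 (r ^ 2) hr2 hα hsT ξ ξ' Y' Z' _ _ _ _ hξ hY' hYs' hhalf
  have hdis := hsm hrs hsT ξ Y Z _ _ hY
    (fun τ hτ => (d0 τ ⟨hτ.1, hτ.2.le⟩).trans (by linarith)) η hη hη2 hI
  -- the dissipation along the path at the smaller scale
  have hr'2 : r' ^ 2 = r ^ 2 / 256 := by
    rw [hrr]
    ring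
  have hr's : r' ^ 2 < s := by rw [hr'2]; linarith
  have hα' : 0 < s - r' ^ 2 := by linarith
  have hB0 : ∀ τ, 0 ≤ B2 (Y τ) (r * (3 / 4)) (u τ) := fun τ => integral_nonneg fun x =>
    Finset.sum_nonneg fun i _ => Finset.sum_nonneg fun j _ => sq_nonneg _
  obtain ⟨hInt, hEq⟩ := frame_mass (R := 8) (a := -1) h hr' hr's hsT hY' le_rfl (by norm_num)
  have hms : r'⁻¹ * ∫ τ in Ioo (s + r' ^ 2 * (-1)) s, B2 (Y' τ) (r' * 8) (u τ) ≤ ε := by
    have e0 : s + r' ^ 2 * (-1) = s - r' ^ 2 := by ring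
    rw [e0]
    have j1 : IntegrableOn (fun τ => B2 (Y' τ) (r' * 8) (u τ)) (Ioo (s - r' ^ 2) s) := by
      refine (B2_mov_int h hY'.sm.continuousOn _).mono_set_ae ?_
      filter_upwards [hae] with t ht h3
      exact ht ⟨by have := h3.1; linarith, h3.2.trans hsT⟩
    have j3 : IntegrableOn (fun τ => B2 (Y τ) (r * (3 / 4)) (u τ)) (Ioo (s - 9 / 16 * r ^ 2) s) := by
      refine (B2_mov_int h hY.sm.continuousOn _).mono_set_ae ?_
      filter_upwards [hae] with t ht h3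
      exact ht ⟨by have := h3.1; linarith, h3.2.trans hsT⟩
    have hsub2 : Ioo (s - r' ^ 2) s ⊆ Ioo (s - 9 / 16 * r ^ 2) s :=
      Ioo_subset_Ioo_left (by rw [hr'2]; linarith)
    have e1 : ∫ τ in Ioo (s - r' ^ 2) s, B2 (Y' τ) (r' * 8) (u τ)
        ≤ ∫ τ in Ioo (s - r' ^ 2) s, B2 (Y τ) (r * (3 / 4)) (u τ) := by
      apply setIntegral_mono_ae_restrict j1 (j3.mono_set hsub2)
      filter_upwards [ae_restrict_of_ae hae, ae_restrict_mem measurableSet_Ioo] with τ h5 hτ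
      have hτG : τ ∈ G := h5 ⟨by have := hτ.1; linarith, hτ.2.trans hsT⟩
      have hτ2 : τ ∈ Ioc (s - r ^ 2) s := ⟨by
        have := hτ.1
        rw [hr'2] at this
        linarith, hτ.2.le⟩
      apply Pool.Agent.Y458.NS.B2_mono (sl_sm hu hτG)
      apply ball_subset_ball'
      rw [dist_eq_norm]
      have h1 := d0 τ hτ2
      have h2 := d1 τ hτ2
      have h3 : ‖Y' τ - Y τ‖ ≤ ‖ξ τ - Y' τ‖ + ‖ξ τ - Y τ‖ := by
        have e : Y' τ - Y τ = (ξ τ - Y τ) - (ξ τ - Y' τ) := by abel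
        rw [e]
        exact (norm_sub_le _ _).trans (by linarith)
      linarith
    have e2 : ∫ τ in Ioo (s - r' ^ 2) s, B2 (Y τ) (r * (3 / 4)) (u τ)
        ≤ ∫ τ in Ioo (s - 9 / 16 * r ^ 2) s, B2 (Y τ) (r * (3 / 4)) (u τ) :=
      setIntegral_mono_set j3 (Eventually.of_forall fun τ => hB0 τ) hsub2.eventuallyLE
    calc r'⁻¹ * ∫ τ in Ioo (s - r' ^ 2) s, B2 (Y' τ) (r' * 8) (u τ)
        ≤ r'⁻¹ * (C₂ * η * r) := by
          gcongr
          exact (e1.trans e2).trans hdis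
      _ = 16 * (C₂ * η) := by
          rw [hrr]
          field_simp
      _ ≤ ε := hη3
  -- the frame
  obtain ⟨k', hL⟩ := Pool.Agent.Y8.B.p_wfr2 T E D G u p h r' s hr' hr's hsT Y' Z' _ _ hY'
  rw [← hEq] at hms
  have hall := hloc _ _ _ _ hL hInt hms
  -- the point
  obtain ⟨z, hz⟩ : ∃ z : V, z = r'⁻¹ • (y - ξ s) := ⟨_, rfl⟩
  have hyz : y = ξ s + r' • z := by
    rw [hz, smul_smul, mul_inv_cancel₀ hr'.ne', one_smul, add_sub_cancel]
  have hzb : z ∈ ball (0 : V) (1 / 16) := by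
    rw [mem_ball, dist_eq_norm] at hy
    rw [hz, mem_ball_zero_iff, norm_smul, Real.norm_eq_abs, abs_of_pos (inv_pos.2 hr'),
      inv_mul_lt_iff₀ hr', hrr]
    linarith
  have hr2' : 0 < r' ^ 2 := by positivity
  have hev : ∀ τ ∈ Ioo (s - r' ^ 2 / 32) s, τ ∈ G →
      r' ^ (2 * n + 4) * ST n (u τ) (Y' τ + r' • z) ≤ Cl n ∧
      r' ^ (2 * n + 4) * SV (n + 1) (u τ) (Y' τ + r' • z)
        ≤ Cl (n + 1) * (1 + A2 0 4 (fr r' (u τ) (Y' τ))) := by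
    intro τ hτ hτG
    have htm : (τ - s) / r' ^ 2 ∈ Ioo (-1 / 32 : ℝ) 0 := by
      constructor
      · rw [lt_div_iff₀ hr2']
        linarith [hτ.1]
      · exact div_neg_of_neg_of_pos (by linarith [hτ.2]) hr2'
    have e1 : s + r' ^ 2 * ((τ - s) / r' ^ 2) = τ := by
      field_simp
      ring
    have hv : ContDiff ℝ ∞ (u (s + r' ^ 2 * ((τ - s) / r' ^ 2))) := by
      rw [e1]
      exact sl_sm hu hτG
    have hmem : (τ - s) / r' ^ 2 ∈ {t | t ∈ Ioo (-1 : ℝ) 0 ∧ s + r' ^ 2 * t ∈ G} :=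
      ⟨⟨by linarith [htm.1], htm.2⟩, by rw [e1]; exact hτG⟩
    have a1 := (hall n _ hmem htm.1 z hzb).1
    have a2 := (hall (n + 1) _ hmem htm.1 z hzb).2
    have hfr := frvH h.subG hY' (t := (τ - s) / r' ^ 2) (by rw [e1]; exact hτG)
    rw [SV_frv n hv, hfr, e1] at a2
    rw [ST_frv n hv, e1] at a1
    exact ⟨a1, a2⟩
  obtain ⟨d, hd, hball⟩ := Metric.isOpen_iff.1 h.openG s hsG
  rw [Real.ball_eq_Ioo] at hball
  have l1 : Tendsto (fun τ => r' ^ (2 * n + 4) * SV (n + 1) (u τ) (Y' τ + r' • z)) (𝓝[<] s)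
      (𝓝 (r' ^ (2 * n + 4) * SV (n + 1) (u s) y)) := by
    apply Tendsto.const_mul
    exact lim_pathO h.openG (sv_jsO h.openG (n + 1) hu) hsG
      (Y := fun τ => Y' τ + r' • z) ((hYc s hs).add continuousAt_const) (by rw [hYs', ← hyz])
  have l2 : Tendsto (fun τ => Cl (n + 1) * (1 + A2 0 4 (fr r' (u τ) (Y' τ)))) (𝓝[<] s)
      (𝓝 (Cl (n + 1) * (1 + A2 0 4 (fr r' (u s) (ξ s))))) := by
    apply Tendsto.const_mul
    apply Tendsto.const_add
    have hsub3 : Icc (s - d / 2) s ⊆ G := fun τ hτ =>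
      hball ⟨by linarith [hτ.1], by linarith [hτ.2]⟩
    have c1 := fr_contO h.openG hu (show s - d / 2 ≤ s by linarith) hsub3
      (fun τ hτ => (hYc τ (h.subG (hsub3 hτ))).continuousWithinAt) r' s ⟨by linarith, le_rfl⟩
    rw [ContinuousWithinAt, hYs'] at c1
    refine c1.mono_left ?_
    rw [nhdsWithin_le_iff]
    exact mem_of_superset (Ioo_mem_nhdsLT (show s - d / 2 < s by linarith)) Ioo_subset_Icc_self
  have l0 : Tendsto (fun τ => r' ^ (2 * n + 4) * ST n (u τ) (Y' τ + r' • z)) (𝓝[<] s)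
      (𝓝 (r' ^ (2 * n + 4) * ST n (u s) y)) := by
    apply Tendsto.const_mul
    exact lim_pathO h.openG (st_jsO h.openG n hu) hsG
      (Y := fun τ => Y' τ + r' • z) ((hYc s hs).add continuousAt_const) (by rw [hYs', ← hyz])
  rw [← hrr]
  refine ⟨le_of_tendsto l0 ?_, le_of_tendsto_of_tendsto l1 l2 ?_⟩
  · filter_upwards [Ioo_mem_nhdsLT (show s - r' ^ 2 / 32 < s by linarith),
      Ioo_mem_nhdsLT (show s - d < s by linarith)] with τ hτ hτ2
    exact (hev τ hτ (hball ⟨hτ2.1, by linarith [hτ2.2]⟩)).1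
  · filter_upwards [Ioo_mem_nhdsLT (show s - r' ^ 2 / 32 < s by linarith),
      Ioo_mem_nhdsLT (show s - d < s by linarith)] with τ hτ hτ2
    exact (hev τ hτ (hball ⟨hτ2.1, by linarith [hτ2.2]⟩)).2

end Pool.Agent.Y8.WS
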