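import Pool.Agent.Y8.WTube
import Pool.Agent.Y7.AN.PLocA

/-!
The regularity scale in a tube, analytic constants (helper7, helper8; after `Y8.WTube`).
-/

set_option autoImplicit false
set_option linter.unusedVariables false

open MeasureTheory Set Metric Filter Topology
open scoped ContDiff ENNReal NNReal

namespace Pool.Agent.Y8.WS

open H459R3.NS W221.NS Pool.Agent.Y7 Pool.Agent.Y8 Pool.Agent.Y8.WE Pool.Agent.Y458.NS
open Pool.Agent.TH305.DR Pool.Agent.Y7.Cov1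

/-- The radius of regularity of the vorticity at the points of the path. -/
theorem admPA (hD : S_WDERP) : ∃ (η : ℝ) (K : ℕ → ℝ), 0 < η ∧ GK K ∧
    ∀ (T E D : ℝ) (G : Set ℝ) (u : ℝ → V → V) (p : ℝ → V → ℝ), Turb 1 T E D G u p →
      ∀ (M : ℝ) (m N : ℕ) (t : ℝ), t ∈ G → m + 4 ≤ N → sc 1 m ^ 2 < t → M * sc 1 m ^ 2 ≤ η →
      ∀ (ξ ξ' : ℝ → V) (B B' : ℝ), FPath T (sc 1 N) B B' G u p ξ ξ' →
      ∫⁻ τ in G, Fx 1 (u τ) (ξ τ) ≤ ENNReal.ofReal M → AdmW K 1 (u t) (ξ t) (sc 1 m / 256) := by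
  obtain ⟨η, K, hη, hK, H⟩ := wlocGA hD
  refine ⟨η, K, hη, hK, ?_⟩
  intro T E D G u p h M m N t ht hmN hm1 hm2 ξ ξ' B B' hξ hI
  have hr := sc_pos one_pos m
  refine ⟨by positivity, fun y hy n => ?_⟩
  have h1 := (H T E D G u p h 1 one_pos m N t hmN (sc1_le m) hm1 ht ξ ξ' B B' hξ
    (win_le h ht hm1 hm2 hI) n y hy).1
  have hST := ST_nn n (u t) y
  calc (sc 1 m / 256) ^ (2 * n + 4) * ST n (u t) y
      ≤ (sc 1 m / 16) ^ (2 * n + 4) * ST n (u t) y := by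
        apply mul_le_mul_of_nonneg_right _ hST
        apply pow_le_pow_left₀ (by positivity)
        linarith
    _ ≤ K n := h1
    _ = K n * 1 ^ 2 := by ring

end Pool.Agent.Y8.WS
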