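import Pool.Agent.Y8.WLim
import Pool.Agent.Y7.WDer
import Pool.Agent.Y7.AN.PTubeA

/-!
The limit of the paths, analytic constants (helper7, helper8; after `Y8.WLim`).
-/

set_option autoImplicit false
set_option linter.unusedVariables false

open MeasureTheory Set Metric Filter Topology
open scoped ContDiff ENNReal NNReal

namespace Pool.Agent.Y8.WS

open H459R3.NS W221.NS Pool.Agent.Y7 Pool.Agent.Y8 Pool.Agent.Y8.WE Pool.Agent.Y458.NS
open Pool.Agent.TH305.DR Pool.Agent.Y7.Cov1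

/-- Convergence of the paths of the mollified velocities. -/
theorem wlimA (hD : S_WDERP) : ∃ (C : ℝ) (K : ℕ → ℝ), 0 < C ∧ GK K ∧
    ∀ (T E D : ℝ) (G : Set ℝ) (u : ℝ → V → V) (p : ℝ → V → ℝ), Turb 1 T E D G u p →
      ∀ t₁ ∈ Ioo 0 T, ∀ (a : V) (ξ ξ' : ℕ → ℝ → V) (B B' : ℕ → ℝ),
      (∀ N, FPath T (sc 1 N) (B N) (B' N) G u p (ξ N) (ξ' N)) → (∀ N, ξ N t₁ = a) →
      liminf (fun N => ∫⁻ τ in G, Fx 1 (u τ) (ξ N τ)) atTop < ⊤ → ∃ X : ℝ → V, X t₁ = a ∧
        (∀ t ∈ Ioo 0 T, Tendsto (fun N => ξ N t) atTop (𝓝 (X t))) ∧ IsPathW T G u X ∧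
        (∀ ζ, IsPathW T G u ζ → ζ t₁ = a → ∀ t ∈ Ioo 0 T, ζ t = X t) ∧
        ∀ t ∈ G, RegW K 1 (u t) (X t) ≤ ENNReal.ofReal (C * (1 + 1 / t))
          + ENNReal.ofReal C * liminf (fun N => ∫⁻ τ in G, Fx 1 (u τ) (ξ N τ)) atTop := by
  obtain ⟨η, K, hη, hK, hadm⟩ := admPA hD
  refine ⟨4 * 65536 * (256 + 1 / η), K, by positivity, hK, ?_⟩
  intro T E D G u p h t₁ ht₁ a ξ ξ' B B' hξ hξ1 hL
  have hT : 0 < T := ht₁.1.trans ht₁.2
  obtain ⟨I, hI⟩ : ∃ I : ℕ → ℝ≥0∞, I = fun N => ∫⁻ τ in G, Fx 1 (u τ) (ξ N τ) := ⟨_, rfl⟩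
  obtain ⟨L, hLd⟩ : ∃ L, L = liminf I atTop := ⟨_, rfl⟩
  rw [← hI, ← hLd] at hL ⊢
  obtain ⟨l, hl⟩ : ∃ l, l = L.toReal := ⟨_, rfl⟩
  have hl0 : 0 ≤ l := by rw [hl]; exact ENNReal.toReal_nonneg
  have hLl : L = ENNReal.ofReal l := by rw [hl, ENNReal.ofReal_toReal hL.ne]
  have hfr : ∀ M : ℝ, l < M → ∃ᶠ N in atTop, I N ≤ ENNReal.ofReal M := by
    intro M hM
    have h1 : liminf I atTop < ENNReal.ofReal M := by
      rw [← hLd, hLl]
      exact ENNReal.ofReal_lt_ofReal_iff_of_nonneg hl0 |>.2 hM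
    exact (frequently_lt_of_liminf_lt (by isBoundedDefault) h1).mono fun N hN => hN.le
  -- the main claim
  have claim : ∀ δ ∈ Ioo 0 t₁, ∀ e > 0, ∃ᶠ N in atTop,
      (∀ N', N ≤ N' → ∀ t ∈ Ioo δ T, ‖ξ N' t - ξ N t‖ ≤ e ∧ ‖ξ' N' t - ξ' N t‖ ≤ e) ∧
      (∀ ζ, IsPathW T G u ζ → ζ t₁ = a → ∀ t ∈ Ioo δ T, ‖ζ t - ξ N t‖ ≤ e) ∧
      ∀ t ∈ G, δ < t → ‖ξ' N t - u t (ξ N t)‖ ≤ e := by
    intro δ hδ e he
    obtain ⟨ρ, Λ, N₀, hρ, hΛ, htube⟩ := tube Pool.Agent.Y7.t_WDER T E D δ (l + 1) hδ.1 (by positivity)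
    have hexp : 0 < Real.exp (Λ * T) := Real.exp_pos _
    have ev1 : ∀ᶠ N in atTop, 2 * sc 1 N * Real.exp (Λ * T) < ρ / 2 := by
      have l1 : Tendsto (fun N : ℕ => 2 * sc 1 N * Real.exp (Λ * T)) atTop (𝓝 0) := by
        simpa using (sc_lim.const_mul 2).mul_const (Real.exp (Λ * T))
      exact l1.eventually (gt_mem_nhds (by positivity))
    have ev2 : ∀ᶠ N in atTop, sc 1 N ≤ ρ / 2 :=
      (sc_lim.eventually (gt_mem_nhds (show 0 < ρ / 2 by positivity))).mono fun N hN => hN.le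
    have ev3 : ∀ᶠ N in atTop, 2 * sc 1 N * Real.exp (Λ * T) ≤ e := by
      have l1 : Tendsto (fun N : ℕ => 2 * sc 1 N * Real.exp (Λ * T)) atTop (𝓝 0) := by
        simpa using (sc_lim.const_mul 2).mul_const (Real.exp (Λ * T))
      exact (l1.eventually (gt_mem_nhds he)).mono fun N hN => hN.le
    have ev4 : ∀ᶠ N in atTop, Λ * (2 * sc 1 N * Real.exp (Λ * T)) + 2 * Λ * sc 1 N ≤ e := by
      have l1 : Tendsto (fun N : ℕ => Λ * (2 * sc 1 N * Real.exp (Λ * T)) + 2 * Λ * sc 1 N)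
          atTop (𝓝 0) := by
        simpa using (((sc_lim.const_mul 2).mul_const (Real.exp (Λ * T))).const_mul Λ).add
          (sc_lim.const_mul (2 * Λ))
      exact (l1.eventually (gt_mem_nhds he)).mono fun N hN => hN.le
    have ev5 : ∀ᶠ N in atTop, Λ * sc 1 N ≤ e := by
      have l1 : Tendsto (fun N : ℕ => Λ * sc 1 N) atTop (𝓝 0) := by
        simpa using sc_lim.const_mul Λ
      exact (l1.eventually (gt_mem_nhds he)).mono fun N hN => hN.le
    refine ((hfr (l + 1) (by linarith)).and_eventually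
      ((((ev1.and ev2).and ev3).and (ev4.and ev5)).and (eventually_ge_atTop N₀))).mono ?_
    rintro N ⟨hIN, ⟨⟨⟨⟨k1, k2⟩, k3⟩, ⟨k4, k5⟩⟩, k6⟩⟩
    rw [hI] at hIN
    have hs := sc_pos one_pos N
    have hlip := htube G u p h N k6 (ξ N) (ξ' N) _ _ (hξ N) hIN
    have ht₁' : t₁ ∈ Ioo δ T := ⟨hδ.2, ht₁.2⟩
    refine ⟨?_, ?_, ?_⟩
    · intro N' hN' t ht
      have hsle : sc 1 N' ≤ sc 1 N := sc_le one_pos hN'
      have h1 := near h hδ.1 ht₁' hΛ k1 k2 (hξ N) hlip (ζ := ξ N') (ζ' := ξ' N')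
        (path_cont hT h (hξ N')) (hξ N').hd (by
          intro s hs2 hδs hm
          have hc := (sl_sm h.smooth_u hs2).continuous
          rw [(hξ N').ev s hs2]
          have hsub : ball (ξ N' s) (ρ / 2) ⊆ ball (ξ N s) ρ := by
            apply ball_subset_ball'
            rw [mem_ball] at hm
            linarith
          have h2 : ‖mo (sc 1 N') (u s) (ξ N' s) - u s (ξ N' s)‖ ≤ Λ * sc 1 N' :=
            mo_near hc (sc_pos one_pos N') (hsle.trans k2) hΛ.le fun y hy =>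
              hlip s hs2 hδs y (hsub hy) (ξ N' s) (hsub (mem_ball_self (by positivity)))
          refine h2.trans ?_
          gcongr) (by rw [hξ1, hξ1])
      exact ⟨(h1.1 t ht).trans k3, (h1.2 t ht).trans k4⟩
    · rintro ζ ⟨ζ', hζ1, hζ2, hζ3⟩ hζ0 t ht
      have h1 := near h hδ.1 ht₁' hΛ k1 k2 (hξ N) hlip (ζ := ζ) (ζ' := ζ') hζ1 hζ2 (by
          intro s hs2 hδs hm
          rw [hζ3 s hs2, sub_self, norm_zero]
          positivity) (by rw [hζ0, hξ1])
      exact (h1.1 t ht).trans k3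
    · intro t ht hδt
      have hc := (sl_sm h.smooth_u ht).continuous
      rw [(hξ N).ev t ht]
      exact (mo_near hc hs (show sc 1 N ≤ ρ by linarith) hΛ.le fun y hy =>
        hlip t ht hδt.le y hy (ξ N t) (mem_ball_self hρ)).trans k5
  -- the scale of time
  have hδt : ∀ t ∈ Ioo 0 T, ∃ δ ∈ Ioo 0 t₁, t ∈ Ioo δ T := by
    intro t ht
    have h1 : 0 < min t t₁ := lt_min ht.1 ht₁.1
    refine ⟨min t t₁ / 2, ⟨by positivity, ?_⟩, ?_, ht.2⟩
    · have := min_le_right t t₁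
      linarith
    · have := min_le_left t t₁
      linarith
  -- the limits
  have hlim : ∀ t, ∃ x y : V, t ∈ Ioo 0 T → Tendsto (fun N => ξ N t) atTop (𝓝 x) ∧
      Tendsto (fun N => ξ' N t) atTop (𝓝 y) := by
    intro t
    by_cases ht : t ∈ Ioo 0 T
    · obtain ⟨δ, hδ, htδ⟩ := hδt t ht
      have c1 : CauchySeq (fun N => ξ N t) := by
        rw [Metric.cauchySeq_iff']
        intro e he
        obtain ⟨N, hN, -⟩ := (claim δ hδ (e / 2) (by positivity)).exists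
        refine ⟨N, fun n hn => ?_⟩
        rw [dist_eq_norm]
        exact ((hN n hn t htδ).1).trans_lt (by linarith)
      have c2 : CauchySeq (fun N => ξ' N t) := by
        rw [Metric.cauchySeq_iff']
        intro e he
        obtain ⟨N, hN, -⟩ := (claim δ hδ (e / 2) (by positivity)).exists
        refine ⟨N, fun n hn => ?_⟩
        rw [dist_eq_norm]
        exact ((hN n hn t htδ).2).trans_lt (by linarith)
      obtain ⟨x, hx⟩ := cauchySeq_tendsto_of_complete c1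
      obtain ⟨y, hy⟩ := cauchySeq_tendsto_of_complete c2
      exact ⟨x, y, fun _ => ⟨hx, hy⟩⟩
    · exact ⟨0, 0, fun h => absurd h ht⟩
  choose X X' hX using hlim
  have hX1 : ∀ t ∈ Ioo 0 T, Tendsto (fun N => ξ N t) atTop (𝓝 (X t)) := fun t ht => (hX t ht).1
  have hX2 : ∀ t ∈ Ioo 0 T, Tendsto (fun N => ξ' N t) atTop (𝓝 (X' t)) := fun t ht => (hX t ht).2
  -- uniform convergence of the velocities
  have hun : ∀ δ ∈ Ioo 0 t₁, TendstoUniformlyOn ξ' X' atTop (Ioo δ T) := by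
    intro δ hδ
    rw [Metric.tendstoUniformlyOn_iff]
    intro e he
    obtain ⟨N, hN, -⟩ := (claim δ hδ (e / 3) (by positivity)).exists
    filter_upwards [eventually_ge_atTop N] with n hn t ht
    have h1 : ‖X' t - ξ' N t‖ ≤ e / 3 := by
      have l1 : Tendsto (fun n => ‖ξ' n t - ξ' N t‖) atTop (𝓝 ‖X' t - ξ' N t‖) :=
        ((hX2 t ⟨hδ.1.trans ht.1, ht.2⟩).sub_const _).norm
      refine le_of_tendsto l1 ?_
      filter_upwards [eventually_ge_atTop N] with k hk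
      exact (hN k hk t ht).2
    have h2 := (hN n hn t ht).2
    rw [dist_eq_norm]
    have e1 : X' t - ξ' n t = (X' t - ξ' N t) - (ξ' n t - ξ' N t) := by abel
    rw [e1]
    refine (norm_sub_le _ _).trans_lt ?_
    linarith
  have hX't : ContinuousOn X' (Ioo 0 T) := by
    intro t ht
    obtain ⟨δ, hδ, htδ⟩ := hδt t ht
    have h1 : ContinuousOn X' (Ioo δ T) := (hun δ hδ).continuousOn
      (Eventually.of_forall fun N => (path_cont hT h (hξ N)).mono
        (Ioo_subset_Ioo_left hδ.1.le)).frequently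
    exact (h1.continuousAt (isOpen_Ioo.mem_nhds htδ)).continuousWithinAt
  have hXd : ∀ t ∈ Ioo 0 T, HasDerivAt X (X' t) t := by
    intro t ht
    obtain ⟨δ, hδ, htδ⟩ := hδt t ht
    have hsub : Ioo δ T ⊆ Ioo 0 T := Ioo_subset_Ioo_left hδ.1.le
    exact hasDerivAt_of_tendstoUniformlyOn isOpen_Ioo (hun δ hδ)
      (Eventually.of_forall fun N s hs => (hξ N).hd s (hsub hs))
      (fun s hs => hX1 s (hsub hs)) htδ
  have hXa : X t₁ = a := by
    have h1 := hX1 t₁ ht₁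
    simp only [hξ1] at h1
    exact tendsto_nhds_unique h1 tendsto_const_nhds |>.symm ▸ rfl
  refine ⟨X, hXa, hX1, ⟨X', hX't, hXd, ?_⟩, ?_, ?_⟩
  · intro t ht
    obtain ⟨δ, hδ, htδ⟩ := hδt t (h.subG ht)
    have hc := (sl_sm h.smooth_u ht).continuous
    have l1 : Tendsto (fun N => ‖ξ' N t - u t (ξ N t)‖) atTop (𝓝 ‖X' t - u t (X t)‖) :=
      ((hX2 t (h.subG ht)).sub ((hc.tendsto _).comp (hX1 t (h.subG ht)))).norm
    have h1 : ‖X' t - u t (X t)‖ ≤ 0 := by
      refine le_of_forall_pos_le_add fun e he => ?_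
      rw [zero_add]
      exact le_of_tendsto_of_frequently l1
        ((claim δ hδ e he).mono fun N hN => hN.2.2 t ht htδ.1)
    exact sub_eq_zero.1 (norm_le_zero_iff.1 h1)
  · intro ζ hζ hζ0 t ht
    obtain ⟨δ, hδ, htδ⟩ := hδt t ht
    have l1 : Tendsto (fun N => ‖ζ t - ξ N t‖) atTop (𝓝 ‖ζ t - X t‖) :=
      (tendsto_const_nhds.sub (hX1 t ht)).norm
    have h1 : ‖ζ t - X t‖ ≤ 0 := by
      refine le_of_forall_pos_le_add fun e he => ?_
      rw [zero_add]
      exact le_of_tendsto_of_frequently l1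
        ((claim δ hδ e he).mono fun N hN => hN.2.1 ζ hζ hζ0 t htδ)
    exact sub_eq_zero.1 (norm_le_zero_iff.1 h1)
  · intro t ht
    have ht0 : 0 < t := (h.subG ht).1
    apply ENNReal.le_of_forall_pos_le_add
    intro e he _
    have he0 : (0 : ℝ) < e := he
    obtain ⟨C, hCd⟩ : ∃ C : ℝ, C = 4 * 65536 * (256 + 1 / η) := ⟨_, rfl⟩
    have hC : 0 < C := by rw [hCd]; positivity
    rw [← hCd]
    obtain ⟨M, hMd⟩ : ∃ M, M = l + e / C := ⟨_, rfl⟩
    have hlM : l < M := by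
      rw [hMd]
      have : 0 < (e : ℝ) / C := by positivity
      linarith
    have hM : 0 < M := by linarith
    obtain ⟨m, hm1, hm2, hm3⟩ := scale_ex hη hM ht0
    have hA : AdmW K 1 (u t) (X t) (sc 1 m / 256) := by
      refine adm_lim (hX1 t (h.subG ht)) ?_
      refine ((hfr M hlM).and_eventually (eventually_ge_atTop (m + 4))).mono ?_
      rintro N ⟨h1, h2⟩
      rw [hI] at h1
      exact hadm T E D G u p h M m N t ht h2 hm1 hm2 (ξ N) (ξ' N) _ _ (hξ N) h1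
    refine (iInf₂_le _ hA).trans ?_
    have hsm := sc_pos one_pos m
    rw [hLl, ← ENNReal.ofReal_mul hC.le, ← ENNReal.ofReal_add (by positivity) (by positivity),
      ← ENNReal.ofReal_coe_nnreal, ← ENNReal.ofReal_add (by positivity) (by positivity)]
    apply ENNReal.ofReal_le_ofReal
    have e1 : 1 / (sc 1 m / 256) ^ 2 = 65536 * (1 / sc 1 m ^ 2) := by
      field_simp
      norm_num
    rw [e1]
    have hηi : (0 : ℝ) < 1 / η := by positivity
    have hti : (0 : ℝ) < 1 / t := by positivity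
    have hMe : C * M = C * l + e := by
      rw [hMd]
      field_simp
    calc 65536 * (1 / sc 1 m ^ 2) ≤ 65536 * (4 * (256 + 1 / t + M / η)) := by gcongr
      _ ≤ C * (1 + 1 / t) + C * M := by
          rw [hCd]
          have e2 : M / η = M * (1 / η) := by ring
          rw [e2]
          have p1 : 0 ≤ (1 / η) * (1 / t) := by positivity
          nlinarith
      _ = C * (1 + 1 / t) + C * l + e := by rw [hMe]; ring

end Pool.Agent.Y8.WS
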