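import Pool.Agent.Y8.WLag
import Pool.Agent.Y7.AN.PLimA

/-!
The particle paths, viscosity one, analytic constants (helper7, helper8; after `Y8.WLag`).
-/

set_option autoImplicit false
set_option linter.unusedVariables false

open MeasureTheory Set Metric Filter Topology
open scoped ContDiff ENNReal NNReal

namespace Pool.Agent.Y8.WS

open H459R3.NS W221.NS Pool.Agent.Y7 Pool.Agent.Y8 Pool.Agent.Y8.WE Pool.Agent.Y458.NS
open Pool.Agent.TH305.DR Pool.Agent.TH305.LG Pool.Agent.Y7.Cov1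

/-- The Lagrangian flow. -/
theorem wlag1A (hD : S_WDERP) : ∃ (C : ℝ) (K : ℕ → ℝ), 0 < C ∧ GK K ∧
    ∀ (T E D : ℝ) (G : Set ℝ) (u : ℝ → V → V) (p : ℝ → V → ℝ), Turb 1 T E D G u p →
      ∀ t₀ ∈ Ioo 0 T, ∃ (X : ℝ → V → V) (W : V → ℝ≥0∞), (∀ a, X t₀ a = a) ∧
        (∀ t ∈ Ioo 0 T, Measurable (X t) ∧ Measure.map (X t) volume = volume ∧
          ∀ (a : V) (n : K3), X t (a - iv n) = X t a - iv n) ∧
        (∀ᵐ a, IsPathW T G u (fun t => X t a) ∧
          ∀ ξ, IsPathW T G u ξ → ξ t₀ = a → ∀ t ∈ Ioo 0 T, ξ t = X t a) ∧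
        Measurable W ∧ (∀ (a : V) (n : K3), W (a - iv n) = W a) ∧
        ∫⁻ a in cell, W a
          ≤ ENNReal.ofReal C * ∫⁻ t in Ioo 0 T, ENNReal.ofReal (enstrophy (u t)) ∧
        ∀ a, ∀ t ∈ G, RegW K 1 (u t) (X t a) ≤ W a + ENNReal.ofReal (C * (1 + 1 / t)) := by
  obtain ⟨C, K, hC, hK, H⟩ := wlimA hD
  obtain ⟨A, hA, hFx⟩ := FxP
  refine ⟨C + C * (A * 216), K, by positivity, hK, ?_⟩
  intro T E D G u p h t₀ ht₀
  have hT : 0 < T := ht₀.1.trans ht₀.2
  have hu := h.smooth_u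
  have hGm := h.openG.measurableSet
  have hFxm : ∀ t ∈ G, Measurable (Fx 1 (u t)) := fun t ht => Fx_meas 1 (sl_sm hu ht)
  have hFxp : ∀ t ∈ G, ∀ (x : V) (n : K3), Fx 1 (u t) (x - iv n) = Fx 1 (u t) x :=
    fun t ht x n => Fx_per 1 (h.per_u t ht) x n
  -- the flows
  obtain ⟨Kf, hKf, hfl⟩ := Pool.Agent.Y8.B.p_wfl
  have hflN : ∀ N : ℕ, ∃ (X Y : ℝ → V → V) (B C : ℝ), WFl T (sc 1 N) B C G u p t₀ X Y := by
    intro N
    obtain ⟨C, hC, hfl⟩ := hfl E (sc 1 N) (sc_pos one_pos N) (sc1_le N)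
    obtain ⟨X, Y, hX⟩ := hfl T D G u p h t₀ ht₀
    exact ⟨X, Y, _, _, hX⟩
  choose X Y B B' hX using hflN
  have hXn : ∀ N, ∀ t ∈ Ioo 0 T, ∀ (a : V) (n : K3), X N t (a - iv n) = X N t a - iv n :=
    fun N t ht a n => flow_per h (sc_pos one_pos N) (sc1_le N) ht₀ (hX N) n t ht a
  have hXm : ∀ N, ∀ t ∈ Ioo 0 T, Measurable (X N t) := fun N t ht =>
    (continuousOn_univ.1 ((hX N).cont.comp (f := fun a : V => (t, a)) (by fun_prop)
      (fun a _ => ⟨ht, mem_univ _⟩))).measurable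
  -- the functions along the flows
  obtain ⟨f, hf⟩ : ∃ f : ℕ → ℝ × V → ℝ≥0∞, f = fun N => ffO 1 G u (X N) := ⟨_, rfl⟩
  have hfm : ∀ N, Measurable (f N) := fun N => by
    rw [hf]
    exact ffO_meas 1 h.openG h.subG hu (hX N).cont
  obtain ⟨I, hI⟩ : ∃ I : ℕ → V → ℝ≥0∞, I = fun N a => ∫⁻ τ in G, Fx 1 (u τ) (X N τ a) := ⟨_, rfl⟩
  have hIf : ∀ N a, I N a = ∫⁻ τ, f N (τ, a) := by
    intro N a
    rw [hI, hf]
    simp only
    rw [← lintegral_indicator hGm]
    rfl
  have hIm : ∀ N, Measurable (I N) := by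
    intro N
    have : I N = fun a => ∫⁻ τ, f N (τ, a) := funext (hIf N)
    rw [this]
    exact (hfm N).lintegral_prod_left'
  have hIp : ∀ N (a : V) (n : K3), I N (a - iv n) = I N a := by
    intro N a n
    rw [hI]
    simp only
    refine setLIntegral_congr_fun hGm fun τ hτ => ?_
    rw [hXn N τ (h.subG hτ), hFxp τ hτ]
  have hIint : ∀ N, ∫⁻ a in cell, I N a
      ≤ ENNReal.ofReal (A * 216) * ∫⁻ t in G, ENNReal.ofReal (enstrophy (u t)) := by
    intro N
    calc ∫⁻ a in cell, I N a = ∫⁻ a in cell, ∫⁻ τ, f N (τ, a) := lintegral_congr fun a => hIf N a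
      _ = ∫⁻ τ, ∫⁻ a in cell, f N (τ, a) := by
          rw [lintegral_lintegral_swap (f := fun τ a => f N (τ, a)) (hfm N).aemeasurable]
      _ = ∫⁻ τ in G, ∫⁻ a in cell, Fx 1 (u τ) (X N τ a) := by
          rw [← lintegral_indicator hGm]
          refine lintegral_congr fun τ => ?_
          by_cases hτ : τ ∈ G
          · rw [indicator_of_mem hτ]
            refine lintegral_congr fun a => ?_
            rw [hf]
            exact indicator_of_mem hτ _
          · rw [indicator_of_notMem hτ]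
            have : ∀ a, f N (τ, a) = 0 := by
              intro a
              rw [hf]
              exact indicator_of_notMem hτ _
            simp only [this, lintegral_zero]
      _ ≤ ∫⁻ τ in G, ∫⁻ a in cell, Fx 1 (u τ) a :=
          setLIntegral_mono' hGm fun τ hτ => cell_tr (hXm N τ (h.subG hτ))
            ((hX N).meas τ (h.subG hτ)).le (fun y n => hXn N τ (h.subG hτ) y n)
            (hFxm τ hτ) (hFxp τ hτ)
      _ ≤ ∫⁻ τ in G, ENNReal.ofReal (A * 216) * ENNReal.ofReal (enstrophy (u τ)) :=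
          setLIntegral_mono' hGm fun t ht => hFx (u t) (sl_sm hu ht) (h.per_u t ht)
      _ = _ := lintegral_const_mul' _ _ ENNReal.ofReal_ne_top
  -- the lower limit
  obtain ⟨L, hL⟩ : ∃ L : V → ℝ≥0∞, L = fun a => liminf (fun N => I N a) atTop := ⟨_, rfl⟩
  have hLm : Measurable L := by
    rw [hL]
    exact Measurable.liminf hIm
  have hLp : ∀ (a : V) (n : K3), L (a - iv n) = L a := by
    intro a n
    rw [hL]
    simp only [hIp]
  have hLint : ∫⁻ a in cell, L a
      ≤ ENNReal.ofReal (A * 216) * ∫⁻ t in G, ENNReal.ofReal (enstrophy (u t)) := by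
    rw [hL]
    refine (lintegral_liminf_le hIm).trans ?_
    refine (liminf_le_liminf (Eventually.of_forall hIint)).trans (le_of_eq ?_)
    exact liminf_const _
  have hens : ∫⁻ t in G, ENNReal.ofReal (enstrophy (u t)) ≠ ⊤ := by
    have h0 : ∀ t, 0 ≤ enstrophy (u t) := fun t => enst_nn _
    rw [← ofReal_integral_eq_lintegral_ofReal h.enst_int (Eventually.of_forall h0)]
    exact ENNReal.ofReal_ne_top
  have hLae : ∀ᵐ a : V, ¬(L a = ⊤) := by
    refine cell_null (fun a n ha => by rw [hLp]; exact ha) ?_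
    have h1 := ae_lt_top hLm (ne_top_of_le_ne_top (ENNReal.mul_ne_top ENNReal.ofReal_ne_top hens)
      hLint)
    filter_upwards [h1] with a ha
    exact ha.ne
  -- the limit
  have hex : ∀ a, ∃ x : ℝ → V, x t₀ = a ∧ (L a < ⊤ →
      (∀ t ∈ Ioo 0 T, Tendsto (fun N => X N t a) atTop (𝓝 (x t))) ∧ IsPathW T G u x ∧
        (∀ ζ, IsPathW T G u ζ → ζ t₀ = a → ∀ t ∈ Ioo 0 T, ζ t = x t) ∧
        ∀ t ∈ G, RegW K 1 (u t) (x t) ≤ ENNReal.ofReal (C * (1 + 1 / t))
          + ENNReal.ofReal C * L a) ∧ (¬L a < ⊤ → x = fun _ => a) := by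
    intro a
    by_cases ha : L a < ⊤
    · have hL2 : L a = liminf (fun N => ∫⁻ τ in G, Fx 1 (u τ) (X N τ a)) atTop := by
        rw [hL, hI]
      rw [hL2] at ha
      obtain ⟨x, h1, h2, h3, h4, h5⟩ := H T E D G u p h t₀ ht₀ a (fun N t => X N t a)
        (fun N t => Y N t a) B B' (fun N => (hX N).path a) (fun N => (hX N).lab a) ha
      rw [← hL2] at ha h5
      exact ⟨x, h1, fun _ => ⟨h2, h3, h4, h5⟩, fun h => absurd ha h⟩
    · exact ⟨fun _ => a, rfl, fun h => absurd h ha, fun _ => rfl⟩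
  choose Z hZ0 hZ1 hZ2 using hex
  have hZn : ∀ t ∈ Ioo 0 T, ∀ (a : V) (n : K3), Z (a - iv n) t = Z a t - iv n := by
    intro t ht a n
    by_cases ha : L a < ⊤
    · have ha' : L (a - iv n) < ⊤ := by rwa [hLp]
      have l1 := (hZ1 a ha).1 t ht
      have l2 := (hZ1 _ ha').1 t ht
      simp only [hXn _ t ht] at l2
      exact tendsto_nhds_unique l2 (l1.sub_const _)
    · have ha' : ¬L (a - iv n) < ⊤ := by rwa [hLp]
      rw [hZ2 a ha, hZ2 _ ha']
  have hZm : ∀ t ∈ Ioo 0 T, Measurable (fun a => Z a t) := by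
    intro t ht
    classical
    have hS : MeasurableSet {a | L a < ⊤} := measurableSet_lt hLm measurable_const
    refine measurable_of_tendsto_metrizable (f := fun N a => if L a < ⊤ then X N t a else a)
      (fun N => Measurable.ite hS (hXm N t ht) measurable_id) ?_
    rw [tendsto_pi_nhds]
    intro a
    by_cases ha : L a < ⊤
    · simp only [if_pos ha]
      exact (hZ1 a ha).1 t ht
    · simp only [if_neg ha]
      rw [hZ2 a ha]
      exact tendsto_const_nhds
  refine ⟨fun t a => Z a t, fun a => ENNReal.ofReal C * L a, hZ0,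
    fun t ht => ⟨hZm t ht, ?_, hZn t ht⟩, ?_, hLm.const_mul _, fun a n => by
      show ENNReal.ofReal C * L (a - iv n) = ENNReal.ofReal C * L a
      rw [hLp], ?_, ?_⟩
  · refine mea_lim (X := fun N => X N t) (fun N => hXm N t ht) (fun N => (hX N).meas t ht)
      (hZm t ht) (hZn t ht) ?_
    filter_upwards [hLae] with a ha
    exact (hZ1 a (lt_top_iff_ne_top.2 ha)).1 t ht
  · filter_upwards [hLae] with a ha
    have h1 := hZ1 a (lt_top_iff_ne_top.2 ha)
    exact ⟨h1.2.1, h1.2.2.1⟩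
  · rw [lintegral_const_mul' _ _ ENNReal.ofReal_ne_top, ← G_ae h]
    calc ENNReal.ofReal C * ∫⁻ a in cell, L a
        ≤ ENNReal.ofReal C * (ENNReal.ofReal (A * 216) *
            ∫⁻ t in G, ENNReal.ofReal (enstrophy (u t))) := mul_le_mul_right hLint _
      _ ≤ _ := by
          rw [← mul_assoc, ← ENNReal.ofReal_mul hC.le]
          refine mul_le_mul_left (ENNReal.ofReal_le_ofReal ?_) _
          linarith
  · intro a t ht
    have ht0 : 0 < t := (h.subG ht).1
    by_cases ha : L a < ⊤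
    · show _ ≤ ENNReal.ofReal C * L a + _
      rw [add_comm]
      refine ((hZ1 a ha).2.2.2 t ht).trans ?_
      refine add_le_add (ENNReal.ofReal_le_ofReal ?_) le_rfl
      have h2 : 0 ≤ C * (A * 216) * (1 + 1 / t) := by positivity
      nlinarith
    · show _ ≤ ENNReal.ofReal C * L a + _
      rw [not_lt_top_iff.1 ha, ENNReal.mul_top, top_add]
      · exact le_top
      · rw [Ne, ENNReal.ofReal_eq_zero, not_le]
        exact hC

end Pool.Agent.Y8.WS
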