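import Pool.Agent.Y7.WLagN
import Pool.Agent.Y7.WLagS
import Pool.Agent.Y7.AN.PLagA

/-!
The particle paths, all viscosities, analytic constants (helper7; after `Y7.WLagN`).
-/

set_option autoImplicit false
set_option linter.unusedVariables false

open MeasureTheory Set Metric Filter Topology
open scoped ContDiff ENNReal NNReal

namespace Pool.Agent.Y7

open H459R3.NS W221.NS Pool.Agent.TH305.LW Pool.Agent.TH305.DR Pool.Agent.TH305.LG
open Pool.Agent.Y8

/-- The particle paths and the regularity scale of the vorticity along them, viscosity one,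
analytic constants. -/
def S_WLAGP : Prop := ∃ (C : ℝ) (K : ℕ → ℝ), 0 < C ∧ GK K ∧
  ∀ (T E D : ℝ) (G : Set ℝ) (u : ℝ → V → V) (p : ℝ → V → ℝ), Turb 1 T E D G u p →
    ∀ t₀ ∈ Ioo 0 T, ∃ (X : ℝ → V → V) (W : V → ℝ≥0∞), (∀ a, X t₀ a = a) ∧
      (∀ t ∈ Ioo 0 T, Measurable (X t) ∧ Measure.map (X t) volume = volume ∧
        ∀ (a : V) (n : K3), X t (a - iv n) = X t a - iv n) ∧
      (∀ᵐ a, PathW T G u (fun t => X t a) ∧
        ∀ ξ : ℝ → V, PathW T G u ξ → ξ t₀ = a → ∀ t ∈ Ioo 0 T, ξ t = X t a) ∧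
      Measurable W ∧
      ∫⁻ a in cell, W a ≤ ENNReal.ofReal C * ∫⁻ t in Ioo 0 T, ENNReal.ofReal (enstrophy (u t)) ∧
      ∀ᵐ a, ∀ t ∈ G, RegW K 1 (u t) (X t a) ≤ W a + ENNReal.ofReal (C * (1 + 1 / t))

theorem t_WLAGP (hD : S_WDERP) : S_WLAGP := by
  obtain ⟨C, K, hC, hK, H⟩ := Pool.Agent.Y8.WS.wlag1A hD
  refine ⟨C, K, hC, hK, fun T E D G u p hN t₀ ht₀ => ?_⟩
  obtain ⟨X, W, h1, h2, h3, h4, -, h5, h6⟩ := H T E D G u p hN t₀ ht₀
  exact ⟨X, W, h1, h2, h3, h4, h5, Filter.Eventually.of_forall h6⟩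

/-- The particle paths, all viscosities. -/
theorem wlagNA (H : S_WLAGP) : ∃ (C : ℝ) (K : ℕ → ℝ), 0 < C ∧ GQ K ∧
    ∀ (ν T E D : ℝ) (G : Set ℝ) (u : ℝ → V → V) (p : ℝ → V → ℝ), 0 < ν → Turb ν T E D G u p →
    ∀ t₀ ∈ Ioo 0 T, ∃ X : ℝ → V → V, (∀ a, X t₀ a = a) ∧
      (∀ t ∈ Ioo 0 T, Measurable (X t) ∧ Measure.map (X t) volume = volume ∧
        ∀ (a : V) (n : K3), X t (a - iv n) = X t a - iv n) ∧
      (∀ᵐ a, PathW T G u (fun t => X t a) ∧
        ∀ ξ : ℝ → V, PathW T G u ξ → ξ t₀ = a → ∀ t ∈ Ioo 0 T, ξ t = X t a) ∧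
      ∫⁻ a in cube, ⨆ t ∈ G, (invSc 2 0 K ν (vort (u t)) (X t a)
          - ENNReal.ofReal (C * (1 + 1 / (ν * t)))) ≤ ENNReal.ofReal (C / ν * D) ∧
      (∀ (n : ℕ) (t₁ : ℝ), 0 < t₁ →
        ∫⁻ a in cube, ⨆ t ∈ G ∩ Ici t₁, ENNReal.ofReal
            (‖iteratedFDeriv ℝ n (vort (u t)) (X t a)‖ ^ (2 / (n + 2) : ℝ))
          ≤ ENNReal.ofReal (C * (K n * ν) ^ (2 / (n + 2) : ℝ) * (D / ν + 1 + 1 / (ν * t₁)))) ∧
      ∀ t₁ r : ℝ, 0 < t₁ → 0 < r →
        volume {a ∈ cube | ∃ t ∈ Ioo t₁ T, ∃ x, SingPt G u t x ∧ ‖X t a - x‖ < r}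
          ≤ ENNReal.ofReal (C * r ^ 2 * (D / ν + 1 + 1 / (ν * t₁))) := by
  obtain ⟨C, K, hC, hK, H⟩ := H
  obtain ⟨K', hK'⟩ : ∃ K' : ℕ → ℝ, K' = fun n => √(9 * 3 ^ n * K n) := ⟨_, rfl⟩
  have hK'0 : ∀ n, 0 < K' n := fun n => by
    rw [hK']
    have := hK.1 n
    positivity
  refine ⟨16 * C + 16, K', by positivity, hK'.symm ▸ hK.sqrt', ?_⟩
  intro ν T E D G u p hν hN t₀ ht₀
  have hT : 0 < T := ht₀.1.trans ht₀.2
  have hD0 : 0 ≤ D := (setIntegral_nonneg hN.openG.measurableSet fun t _ => enst_nn _).trans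
    hN.enst_le
  obtain ⟨hS1, hS2⟩ := Pool.Agent.Y96.NS.t_WSCAL ν T E D G u p hν hN
  have hm : ∀ t ∈ Ioo 0 T, ν * t ∈ Ioo 0 (ν * T) := fun t ht =>
    ⟨mul_pos hν ht.1, mul_lt_mul_of_pos_left ht.2 hν⟩
  obtain ⟨X, W, hX0, hX1, hX2, hWm, hW, hR⟩ := H (ν * T) (E / ν) (D / ν) _ _ _ hS1 (ν * t₀)
    (hm t₀ ht₀)
  have hW' : ∫⁻ a in cell, W a ≤ ENNReal.ofReal (C / ν * D) := by
    refine hW.trans ?_
    have h1 := turb_enst hS1
    refine (mul_le_mul_right h1 _).trans (le_of_eq ?_)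
    rw [← ENNReal.ofReal_mul hC.le]
    congr 1
    ring
  -- the regularity scale
  have hR' : ∀ᵐ a, ∀ t ∈ G, invSc 2 0 K' ν (vort (u t)) (X (ν * t) a)
      ≤ W a + ENNReal.ofReal (C * (1 + 1 / (ν * t))) := by
    filter_upwards [hR] with a ha t ht
    have h1 := ha (ν * t) (show ν * t / ν ∈ G by rwa [mul_div_cancel_left₀ _ hν.ne'])
    refine le_trans ?_ h1
    rw [mul_div_cancel_left₀ _ hν.ne', hK']
    exact regW_inv hK.1 hν (turb_cd hN ht) _
  refine ⟨fun t => X (ν * t), fun a => hX0 a, fun t ht => hX1 (ν * t) (hm t ht), ?_, ?_, ?_, ?_⟩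
  · filter_upwards [hX2] with a ha
    refine ⟨pathW_visc hν ha.1, fun ξ hξ hξ0 t ht => ?_⟩
    have h1 := ha.2 (fun t => ξ (t / ν)) (pathW_visc' hν hξ) (by
      rw [mul_div_cancel_left₀ _ hν.ne', hξ0]) (ν * t) (hm t ht)
    rw [mul_div_cancel_left₀ _ hν.ne'] at h1
    exact h1
  · rw [cube_eq]
    calc ∫⁻ a in cell, ⨆ t ∈ G, (invSc 2 0 K' ν (vort (u t)) (X (ν * t) a)
          - ENNReal.ofReal ((16 * C + 16) * (1 + 1 / (ν * t)))) ≤ ∫⁻ a in cell, W a := by
          apply lintegral_mono_ae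
          filter_upwards [ae_restrict_of_ae hR'] with a ha
          refine iSup₂_le fun t ht => ?_
          rw [tsub_le_iff_right]
          refine (ha t ht).trans ?_
          gcongr
          · have : 0 < ν * t := mul_pos hν (hN.subG ht).1
            positivity
          · linarith
      _ ≤ ENNReal.ofReal (C / ν * D) := hW'
      _ ≤ ENNReal.ofReal ((16 * C + 16) / ν * D) := by
          apply ENNReal.ofReal_le_ofReal
          gcongr
          linarith
  · intro n t₁ ht₁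
    rw [cube_eq]
    have hKn := hK'0 n
    have hKν : 0 ≤ (K' n * ν) ^ (2 / (n + 2) : ℝ) :=
      Real.rpow_nonneg (mul_nonneg hKn.le hν.le) _
    calc ∫⁻ a in cell, ⨆ t ∈ G ∩ Ici t₁, ENNReal.ofReal
            (‖iteratedFDeriv ℝ n (vort (u t)) (X (ν * t) a)‖ ^ (2 / (n + 2) : ℝ))
        ≤ ∫⁻ a in cell, ENNReal.ofReal ((K' n * ν) ^ (2 / (n + 2) : ℝ)) *
            (W a + ENNReal.ofReal (C * (1 + 1 / (ν * t₁)))) := by
          apply lintegral_mono_ae
          filter_upwards [ae_restrict_of_ae hR'] with a ha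
          refine iSup₂_le fun t ht => ?_
          have h2 := der_gen (m := 2) (j := 0) hν (vort (u t)) (X (ν * t) a) n hKn
          rw [add_zero] at h2
          push_cast at h2
          refine h2.trans (mul_le_mul_right ((ha t ht.1).trans ?_) _)
          refine add_le_add le_rfl (ENNReal.ofReal_le_ofReal ?_)
          have : t₁ ≤ t := ht.2
          gcongr
      _ = ENNReal.ofReal ((K' n * ν) ^ (2 / (n + 2) : ℝ)) *
            ((∫⁻ a in cell, W a) + ENNReal.ofReal (C * (1 + 1 / (ν * t₁)))) := by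
          rw [lintegral_const_mul' _ _ ENNReal.ofReal_ne_top,
            lintegral_add_right _ measurable_const, lintegral_const, Measure.restrict_apply_univ,
            cell_vol, mul_one]
      _ ≤ ENNReal.ofReal ((K' n * ν) ^ (2 / (n + 2) : ℝ)) *
            (ENNReal.ofReal (C / ν * D) + ENNReal.ofReal (C * (1 + 1 / (ν * t₁)))) :=
          mul_le_mul_right (add_le_add_left hW' _) _
      _ ≤ ENNReal.ofReal ((16 * C + 16) * (K' n * ν) ^ (2 / (n + 2) : ℝ) *
            (D / ν + 1 + 1 / (ν * t₁))) := by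
          rw [← ENNReal.ofReal_add (by positivity) (by positivity), ← ENNReal.ofReal_mul hKν]
          apply ENNReal.ofReal_le_ofReal
          have e1 : (16 * C + 16) * (K' n * ν) ^ (2 / (n + 2) : ℝ) * (D / ν + 1 + 1 / (ν * t₁))
              = (K' n * ν) ^ (2 / (n + 2) : ℝ) * ((16 * C + 16) * (D / ν + 1 + 1 / (ν * t₁))) := by
            ring
          rw [e1]
          apply mul_le_mul_of_nonneg_left _ hKν
          have e2 : 0 ≤ D / ν + 1 + 1 / (ν * t₁) := by positivity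
          calc C / ν * D + C * (1 + 1 / (ν * t₁)) = C * (D / ν + 1 + 1 / (ν * t₁)) := by ring
            _ ≤ (16 * C + 16) * (D / ν + 1 + 1 / (ν * t₁)) := by
                apply mul_le_mul_of_nonneg_right _ e2
                linarith
  · intro t₁ r ht₁ hr
    have h1 := sing_meas hS1 hC hWm hW' (hX2.mono fun a ha => ?_) hR (t₁ := ν * t₁) (mul_pos hν ht₁)
      hr
    · calc volume {a ∈ cube | ∃ t ∈ Ioo t₁ T, ∃ x, SingPt G u t x ∧ ‖X (ν * t) a - x‖ < r}
          ≤ volume {a ∈ cell | ∃ t ∈ Ioo (ν * t₁) (ν * T), ∃ x,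
              SingPt {t | t / ν ∈ G} (fun t x => ν⁻¹ • u (t / ν) x) t x ∧ ‖X t a - x‖ < r} := by
            apply measure_mono_ae
            filter_upwards [cube_cell] with a ha h2
            obtain ⟨h3, t, ht, x, hS, hx⟩ := h2
            refine ⟨ha.mp h3, ν * t, ⟨mul_lt_mul_of_pos_left ht.1 hν,
              mul_lt_mul_of_pos_left ht.2 hν⟩, x, hS2 t x hS, hx⟩
        _ ≤ _ := h1
        _ ≤ _ := by
            rw [← ENNReal.ofReal_add (by positivity) (by positivity), ← ENNReal.ofReal_one,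
              ← ENNReal.ofReal_add (by positivity) (by norm_num),
              ← ENNReal.ofReal_mul (by positivity)]
            apply ENNReal.ofReal_le_ofReal
            have e2 : 0 ≤ D / ν + 1 / (ν * t₁) := by positivity
            have e3 : 0 ≤ r ^ 2 := sq_nonneg r
            calc 16 * r ^ 2 * (C / ν * D + C * (1 + 1 / (ν * t₁)) + 1)
                = r ^ 2 * (16 * C * (D / ν + 1 + 1 / (ν * t₁)) + 16) := by ring
              _ ≤ r ^ 2 * ((16 * C + 16) * (D / ν + 1 + 1 / (ν * t₁))) := by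
                  apply mul_le_mul_of_nonneg_left _ e3
                  nlinarith
              _ = (16 * C + 16) * r ^ 2 * (D / ν + 1 + 1 / (ν * t₁)) := by ring
    · obtain ⟨ξ', -, h2, -⟩ := ha.1
      exact fun t ht => (h2 t ht).continuousAt.continuousWithinAt

end Pool.Agent.Y7
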