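import Pool.Agent.Y7.RegW
import Pool.Agent.Y7.AN.SLocWA

/-!
The regularity scale of the vorticity along the paths, smooth solutions, analytic constants
(helper7; after `Y7.RegW`).
-/

set_option autoImplicit false
set_option linter.unusedVariables false

open MeasureTheory Set Metric Filter Topology
open scoped ContDiff ENNReal NNReal

namespace Pool.Agent.Y7

open H459R3.NS W221.NS Pool.Agent.TH305.LW Pool.Agent.TH305.DR Pool.Agent.TH305.LG
open Pool.Agent.Y7.Cov1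

/-- The regularity scale of the vorticity along a particle path. -/
theorem partWA (hDP : S_LOCP) : ∃ (C : ℝ) (K : ℕ → ℝ), 0 < C ∧ GK K ∧
    ∀ (T : ℝ) (u : ℝ → V → V) (p : ℝ → V → ℝ), NSol T u p → ∀ R₀ : ℝ, 0 < R₀ →
      ∀ (t₁ t : ℝ), 0 ≤ t₁ → t₁ < t → t < T → ∀ ξ : ℝ → V, Traj u t₁ t ξ →
      RegW K 1 (u t) (ξ t) ≤ ENNReal.ofReal C * (ENNReal.ofReal (1 / sc R₀ 0 ^ 2)
        + ENNReal.ofReal (1 / (t - t₁)) + ∫⁻ τ in Ioo t₁ t, Fx R₀ (u τ) (ξ τ)) := by
  obtain ⟨η, K, hη, hK, H⟩ := locWA hDP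
  refine ⟨4 * 256 ^ 2 * (1 + 1 / η), K, by positivity, hK, ?_⟩
  intro T u p hN R₀ hR₀ t₁ t ht₁ h1t htT ξ hξ
  obtain ⟨h₀, hh₀⟩ : ∃ h₀, h₀ = sc R₀ 0 ^ 2 := ⟨_, rfl⟩
  have hsc := sc_pos hR₀ 0
  have h₀0 : 0 < h₀ := by rw [hh₀]; positivity
  obtain ⟨I, hI⟩ : ∃ I, I = ∫⁻ τ in Ioo t₁ t, Fx R₀ (u τ) (ξ τ) := ⟨_, rfl⟩
  rw [← hh₀, ← hI]
  have hC0 : ENNReal.ofReal (4 * 256 ^ 2 * (1 + 1 / η)) ≠ 0 := by
    rw [Ne, ENNReal.ofReal_eq_zero, not_le]
    positivity
  by_cases hIt : I = ⊤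
  · rw [hIt, add_top, ENNReal.mul_top hC0]
    exact le_top
  have hη0 : ENNReal.ofReal η ≠ 0 := by
    rw [Ne, ENNReal.ofReal_eq_zero, not_le]
    exact hη
  have hsmall : ∀ {k : ℕ}, hh h₀ k < t - t₁ → ∫⁻ τ in Ioo (t - hh h₀ k) t, Fx R₀ (u τ) (ξ τ) ≤ I :=
    fun {k} hk => by
      rw [hI]
      exact lintegral_mono_set (Ioo_subset_Ioo (by linarith) le_rfl)
  -- a good window exists
  have hex : ∃ k, hh h₀ k < t - t₁ ∧
      ∫⁻ τ in Ioo (t - hh h₀ k) t, Fx R₀ (u τ) (ξ τ) ≤ ENNReal.ofReal (η / hh h₀ k) := by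
    have l1 : Tendsto (fun j : ℕ => hh h₀ j) atTop (𝓝 0) := by
      have : (fun j : ℕ => hh h₀ j) = fun j => h₀ * (1 / 4) ^ j := by
        funext j
        unfold hh
        rw [one_div, inv_pow]
        rfl
      rw [this]
      simpa using (tendsto_pow_atTop_nhds_zero_of_lt_one (by norm_num : (0 : ℝ) ≤ 1 / 4)
        (by norm_num)).const_mul h₀
    have hI0 : (0 : ℝ) < I.toReal + 1 := by positivity
    have hδ0 : 0 < min (t - t₁) (η / (I.toReal + 1)) := lt_min (by linarith) (by positivity)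
    obtain ⟨k, hk⟩ := (l1.eventually (gt_mem_nhds hδ0)).exists
    have hk1 : hh h₀ k < t - t₁ := hk.trans_le (min_le_left _ _)
    have hk2 : hh h₀ k < η / (I.toReal + 1) := hk.trans_le (min_le_right _ _)
    refine ⟨k, hk1, (hsmall hk1).trans ?_⟩
    rw [← ENNReal.ofReal_toReal hIt]
    apply ENNReal.ofReal_le_ofReal
    have hhk := hh_pos h₀0 k
    rw [lt_div_iff₀ hI0] at hk2
    rw [le_div_iff₀ hhk]
    nlinarith
  classical
  obtain ⟨k, hk⟩ : ∃ k, k = Nat.find hex := ⟨_, rfl⟩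
  have hk1 : hh h₀ k < t - t₁ ∧
      ∫⁻ τ in Ioo (t - hh h₀ k) t, Fx R₀ (u τ) (ξ τ) ≤ ENNReal.ofReal (η / hh h₀ k) := by
    rw [hk]; exact Nat.find_spec hex
  have hkm : ∀ j, j < k → ¬(hh h₀ j < t - t₁ ∧
      ∫⁻ τ in Ioo (t - hh h₀ j) t, Fx R₀ (u τ) (ξ τ) ≤ ENNReal.ofReal (η / hh h₀ j)) := fun j hj =>
    Nat.find_min hex (by rwa [← hk])
  obtain ⟨hk2, hk3⟩ := hk1
  have er : sc R₀ k ^ 2 = hh h₀ k := by rw [hh₀]; exact sc_hh R₀ k
  have hhk := hh_pos h₀0 k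
  have hloc := H T u p hN R₀ hR₀ k t (by rw [er]; linarith) htT ξ
    (hξ.cont.mono (Icc_subset_Icc_left (by rw [er]; linarith)))
    (fun τ hτ => hξ.ode τ ⟨by rw [er] at hτ; linarith [hτ.1], hτ.2⟩) (by rw [er]; exact hk3)
  have hreg := regW_of (sc_pos hR₀ k) hloc
  rw [er] at hreg
  refine hreg.trans ?_
  have hηi : (0 : ℝ) ≤ 1 / η := by positivity
  rcases Nat.eq_zero_or_pos k with h0 | hpos
  · have e0 : hh h₀ k = h₀ := by
      rw [h0]
      unfold hh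
      rw [pow_zero, div_one]
    rw [e0]
    calc ENNReal.ofReal (256 ^ 2 / h₀)
        ≤ ENNReal.ofReal (4 * 256 ^ 2 * (1 + 1 / η)) * ENNReal.ofReal (1 / h₀) := by
          rw [← ENNReal.ofReal_mul (by positivity)]
          apply ENNReal.ofReal_le_ofReal
          rw [mul_one_div]
          gcongr
          nlinarith
      _ ≤ _ := by
          gcongr
          exact le_add_right le_self_add
  · obtain ⟨j, hj⟩ : ∃ j, k = j + 1 := ⟨k - 1, by omega⟩
    have hjn := hkm j (by omega)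
    have hhj := hh_pos h₀0 j
    have e6 : 256 ^ 2 / hh h₀ k = 4 * 256 ^ 2 * (1 / hh h₀ j) := by
      have h7 := hh_succ (h₀ := h₀) j
      rw [← hj] at h7
      rw [h7]
      field_simp
    rw [e6]
    by_cases hjb : hh h₀ j < t - t₁
    · have h8 : ENNReal.ofReal (η / hh h₀ j) < ∫⁻ τ in Ioo (t - hh h₀ j) t, Fx R₀ (u τ) (ξ τ) := by
        by_contra hcon
        exact hjn ⟨hjb, not_lt.1 hcon⟩
      have h9 : ENNReal.ofReal (1 / hh h₀ j) ≤ ENNReal.ofReal (1 / η) * I := by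
        calc ENNReal.ofReal (1 / hh h₀ j) = ENNReal.ofReal (1 / η) * ENNReal.ofReal (η / hh h₀ j) := by
              rw [← ENNReal.ofReal_mul (by positivity)]
              congr 1
              field_simp
          _ ≤ ENNReal.ofReal (1 / η) * I := by
              gcongr
              exact h8.le.trans (hsmall hjb)
      calc ENNReal.ofReal (4 * 256 ^ 2 * (1 / hh h₀ j))
          = ENNReal.ofReal (4 * 256 ^ 2) * ENNReal.ofReal (1 / hh h₀ j) :=
            ENNReal.ofReal_mul (by norm_num)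
        _ ≤ ENNReal.ofReal (4 * 256 ^ 2) * (ENNReal.ofReal (1 / η) * I) := by gcongr
        _ = ENNReal.ofReal (4 * 256 ^ 2 * (1 / η)) * I := by
            rw [← mul_assoc, ← ENNReal.ofReal_mul (by norm_num)]
        _ ≤ ENNReal.ofReal (4 * 256 ^ 2 * (1 + 1 / η)) * (ENNReal.ofReal (1 / h₀)
            + ENNReal.ofReal (1 / (t - t₁)) + I) :=
            mul_le_mul' (ENNReal.ofReal_le_ofReal (by nlinarith)) le_add_self
    · have h9 : t - t₁ ≤ hh h₀ j := not_lt.1 hjb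
      have h10 : ENNReal.ofReal (1 / hh h₀ j) ≤ ENNReal.ofReal (1 / (t - t₁)) := by
        apply ENNReal.ofReal_le_ofReal
        have : 0 < t - t₁ := by linarith
        gcongr
      calc ENNReal.ofReal (4 * 256 ^ 2 * (1 / hh h₀ j))
          = ENNReal.ofReal (4 * 256 ^ 2) * ENNReal.ofReal (1 / hh h₀ j) :=
            ENNReal.ofReal_mul (by norm_num)
        _ ≤ ENNReal.ofReal (4 * 256 ^ 2 * (1 + 1 / η)) * (ENNReal.ofReal (1 / h₀)
            + ENNReal.ofReal (1 / (t - t₁)) + I) :=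
            mul_le_mul' (ENNReal.ofReal_le_ofReal (by nlinarith))
              (h10.trans (le_add_right le_add_self))

end Pool.Agent.Y7
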