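import Pool.Agent.Y7.WLoc
import Pool.Agent.Y7.AN.Kp

/-!
Little oscillation along a path bounds all derivatives around it, with analytic constants: weak
solutions (helper7; after `Y7.WLoc`).
-/

set_option autoImplicit false
set_option linter.unusedVariables false

open MeasureTheory Set Metric Filter Topology
open scoped ContDiff ENNReal NNReal

namespace Pool.Agent.Y7

open H459R3.NS W221.NS Pool.Agent.TH305.LW Pool.Agent.TH305.DR Pool.Agent.Y8 WD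

theorem wloc7A (hDP : S_WDERP) (hE4 : S_WEN4) : ∃ (η C : ℝ) (K : ℕ → ℝ), 0 < η ∧ 0 < C ∧ GK K ∧
    ∀ (T E D : ℝ) (G : Set ℝ) (u : ℝ → V → V) (p : ℝ → V → ℝ), Turb 1 T E D G u p →
      ∀ R₀ : ℝ, 0 < R₀ → sc R₀ 0 ≤ 1 → ∀ (m N : ℕ) (s : ℝ), m + 4 ≤ N →
      sc R₀ m ^ 2 < s → s ∈ G → ∀ (ξ ξ' : ℝ → V) (B C' : ℝ), FPath T (sc R₀ N) B C' G u p ξ ξ' →
      ∫⁻ τ in Ioo (s - sc R₀ m ^ 2) s, Fx R₀ (u τ) (ξ τ) ≤ ENNReal.ofReal (η / sc R₀ m ^ 2) →
      ∀ F : ℝ, 0 ≤ F → Fx R₀ (u s) (ξ s) ≤ ENNReal.ofReal F →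
      ∀ n, ∀ y ∈ ball (ξ s) (sc R₀ m / 256),
        (sc R₀ m / 16) ^ (2 * n + 4) * SV (n + 1) (u s) y
          ≤ K n * (1 + C * (sc R₀ m ^ 4 * F)) := by
  obtain ⟨ε, hε, Cl, hCl, hloc⟩ := hDP
  obtain ⟨K₁, hK₁, hclose⟩ := t_WCLOSE
  obtain ⟨C₂, hC₂, hsmall⟩ := wsmall hE4
  obtain ⟨Kp, hKp, hpath⟩ := path_ex Pool.Agent.Y8.B.p_tcut Pool.Agent.Y8.B.p_acx
  obtain ⟨K₀, hK₀, hosc⟩ := osc
  obtain ⟨k, hk⟩ : ∃ k, k = K₀.toReal := ⟨_, rfl⟩
  have hk0 : 0 ≤ k := by rw [hk]; exact ENNReal.toReal_nonneg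
  have hKk : K₀ = ENNReal.ofReal k := by rw [hk, ENNReal.ofReal_toReal hK₀]
  obtain ⟨η, hη, hη1, hη2, hη3⟩ : ∃ η : ℝ, 0 < η ∧ K₁ * √η ≤ 1 / 16 ∧ C₂ * η ≤ 1 ∧
      16 * (C₂ * η) ≤ ε := by
    refine ⟨min ((1 / (16 * K₁)) ^ 2) (min (1 / C₂) (ε / (16 * C₂))), by positivity, ?_, ?_, ?_⟩
    · have h1 : √(min ((1 / (16 * K₁)) ^ 2) (min (1 / C₂) (ε / (16 * C₂)))) ≤ 1 / (16 * K₁) := by
        refine (Real.sqrt_le_sqrt (min_le_left _ _)).trans (le_of_eq ?_)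
        exact Real.sqrt_sq (by positivity)
      calc K₁ * √(min ((1 / (16 * K₁)) ^ 2) (min (1 / C₂) (ε / (16 * C₂))))
          ≤ K₁ * (1 / (16 * K₁)) := by gcongr
        _ = 1 / 16 := by field_simp
    · calc C₂ * min ((1 / (16 * K₁)) ^ 2) (min (1 / C₂) (ε / (16 * C₂)))
          ≤ C₂ * (1 / C₂) := by
            gcongr
            exact (min_le_right _ _).trans (min_le_left _ _)
        _ = 1 := by field_simp
    · calc 16 * (C₂ * min ((1 / (16 * K₁)) ^ 2) (min (1 / C₂) (ε / (16 * C₂))))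
          ≤ 16 * (C₂ * (ε / (16 * C₂))) := by
            gcongr
            exact (min_le_right _ _).trans (min_le_right _ _)
        _ = ε := by field_simp
  refine ⟨η, 257 * k + 1, fun n => Cl (n + 1) + Cl n, hη, by positivity,
    hCl.shift, ?_⟩
  intro T E D G u p hN R₀ hR₀ hsc1 m N s hmN hrs hsG ξ ξ' B C' hξ hI F hF hFx n y hy
  have hr := sc_pos hR₀ m
  have hs0T := hN.subG hsG
  have hsT := hs0T.2
  have hs0 := hs0T.1
  -- the two scales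
  obtain ⟨r, hrd⟩ : ∃ r, r = sc R₀ m := ⟨_, rfl⟩
  obtain ⟨r', hr'd⟩ : ∃ r', r' = sc R₀ (m + 4) := ⟨_, rfl⟩
  have hrr : r' = r / 16 := by
    rw [hr'd, hrd, sc_add]
    norm_num
  have hr' : 0 < r' := by
    rw [hr'd]
    exact sc_pos hR₀ _
  have hr1 : r ≤ 1 := by
    rw [hrd]
    exact (sc_le' hR₀ (Nat.zero_le m)).trans hsc1
  have hr'1 : r' ≤ 1 := by rw [hrr]; linarith [hrd ▸ hr]
  have hcl0 := hclose T E D G u p hN R₀ hR₀ m N (by omega) s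
  have hcl1 := hclose T E D G u p hN R₀ hR₀ (m + 4) N hmN s
  have hsm := hsmall T E D G u p hN R₀ hR₀ m s
  have hosc' := hosc R₀ hR₀ (u s) (hN.spv hsG).1 (m + 4) (ξ s) (ξ s)
  rw [← hrd] at hr hrs hI hy hcl0 hsm ⊢
  rw [← hr'd] at hcl1 hosc'
  have hr2 : 0 < r ^ 2 := by positivity
  have hα : 0 < s - r ^ 2 := by linarith
  obtain ⟨CY, hCY, hpY⟩ := hpath E r hr hr1
  obtain ⟨Y, Yd, hYs, hY⟩ := hpY T D G u p hN s hs0T (ξ s)
  obtain ⟨CY', hCY', hpY'⟩ := hpath E r' hr' hr'1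
  obtain ⟨Y', Yd', hYs', hY'⟩ := hpY' T D G u p hN s hs0T (ξ s)
  have hξc : ContinuousOn ξ (Ioo 0 T) := fun τ hτ => (hξ.hd τ hτ).continuousAt.continuousWithinAt
  have hYc' : ContinuousOn Y' (Ioo 0 T) := fun τ hτ =>
    (hY'.hd τ hτ).continuousAt.continuousWithinAt
  have hhalf : ENNReal.ofReal K₁ * ∫⁻ τ in Ioo (s - r ^ 2) s, Fx R₀ (u τ) (ξ τ) ^ (1 / 2 : ℝ)
      ≤ ENNReal.ofReal (1 / 16) := by
    refine (mul_le_mul_right (whalf R₀ hN hr2 hη.le hα.le hsT.le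
      (hξc.mono (Ioo_subset_Ioo hα.le hsT.le)) hI) _).trans ?_
    rw [← ENNReal.ofReal_mul hK₁.le]
    exact ENNReal.ofReal_le_ofReal hη1
  have d0 := hcl0 (r ^ 2) hr2 hα hsT ξ ξ' Y Yd _ _ _ _ hξ hY hYs hhalf
  have d1 := hcl1 (r ^ 2) hr2 hα hsT ξ ξ' Y' Yd' _ _ _ _ hξ hY' hYs' hhalf
  obtain ⟨hdi, hdis⟩ := hsm hrs hsT ξ Y Yd _ _ hY
    (fun τ hτ => (d0 τ ⟨hτ.1, hτ.2.le⟩).trans (by linarith)) η hη hη2 hI
  -- the dissipation along the path at the smaller scale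
  have hr'2 : r' ^ 2 = r ^ 2 / 256 := by
    rw [hrr]
    ring
  have hr'p : 0 < r' ^ 2 := pow_pos hr' 2
  have hr's : r' ^ 2 < s := by rw [hr'2]; linarith
  have hB0 : ∀ τ, 0 ≤ B2 (Y τ) (r * (3 / 4)) (u τ) := fun τ => integral_nonneg fun x =>
    Finset.sum_nonneg fun i _ => Finset.sum_nonneg fun j _ => sq_nonneg _
  have hB0' : ∀ τ, 0 ≤ B2 (Y' τ) (r' * 8) (u τ) := fun τ => integral_nonneg fun x =>
    Finset.sum_nonneg fun i _ => Finset.sum_nonneg fun j _ => sq_nonneg _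
  have hss : Ioo (s - r' ^ 2) s ⊆ Ioo (s - 9 / 16 * r ^ 2) s :=
    Ioo_subset_Ioo_left (by rw [hr'2]; linarith)
  obtain ⟨kf, hL⟩ := Pool.Agent.Y8.B.p_wfr2 T E D G u p hN r' s hr' hr's hsT Y' Yd' _ _ hY'
  have hpt : ∀ τ ∈ Ioo (s - r' ^ 2) s, τ ∈ G →
      B2 (Y' τ) (r' * 8) (u τ) ≤ B2 (Y τ) (r * (3 / 4)) (u τ) := by
    intro τ hτ hτG
    have hτ2 : τ ∈ Ioc (s - r ^ 2) s := ⟨by
      have := hτ.1
      rw [hr'2] at this
      linarith, hτ.2.le⟩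
    apply B2_mono (hN.spv hτG).1
    apply ball_subset_ball'
    rw [dist_eq_norm]
    have h1 := d0 τ hτ2
    have h2 := d1 τ hτ2
    have h3 : ‖Y' τ - Y τ‖ ≤ ‖ξ τ - Y' τ‖ + ‖ξ τ - Y τ‖ := by
      have e : Y' τ - Y τ = (ξ τ - Y τ) - (ξ τ - Y' τ) := by abel
      rw [e]
      exact (norm_sub_le _ _).trans (by linarith)
    linarith
  obtain ⟨w1, w2⟩ := wmass hN hr' hr's hsT Y' 8 (p₁ := -1) (q₁ := 0) le_rfl le_rfl
  have e1 : s + r' ^ 2 * (-1) = s - r' ^ 2 := by ring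
  have e2 : s + r' ^ 2 * 0 = s := by ring
  rw [e1, e2] at w1 w2
  have haeG := aeT hN (show 0 ≤ s - r' ^ 2 by linarith) hsT.le
  have hdi' : IntegrableOn (fun τ => B2 (Y τ) (r * (3 / 4)) (u τ)) (Ioo (s - r' ^ 2) s) :=
    hdi.mono_set hss
  have hmY' : AEStronglyMeasurable (fun τ => B2 (Y' τ) (r' * 8) (u τ))
      (volume.restrict (Ioo (s - r' ^ 2) s)) := by
    have c1 : ContinuousOn (fun τ => B2 (Y' τ) (r' * 8) (u τ)) G := by
      have c2 : ContinuousOn (fun z : ℝ × V => gsq (u z.1) (Y' z.1 + z.2)) (G ×ˢ univ) := by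
        have c0 : ContinuousOn (fun z : ℝ × V => Y' z.1) (G ×ˢ univ) :=
          (hYc'.mono hN.subG).comp continuousOn_fst fun z hz => hz.1
        exact (gsq_joint hN.openG hN.smooth_u).continuousOn.comp
          (f := fun z : ℝ × V => (z.1, Y' z.1 + z.2))
          (continuousOn_fst.prodMk (c0.add continuousOn_snd)) fun z hz => ⟨hz.1, mem_univ _⟩
      refine (pint_cont (F := fun t z => gsq (u t) (Y' t + z)) hN.openG c2 0 (r' * 8)).congr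
        fun τ _ => ?_
      exact Pool.Agent.W298.ME.CTM.shift (gsq (u τ)) (Y' τ) (r' * 8)
    have h1 : (volume : Measure ℝ).restrict (Ioo (s - r' ^ 2) s)
        = volume.restrict (Ioo (s - r' ^ 2) s ∩ G) := by
      apply Measure.restrict_congr_set
      have h0 : ∀ᵐ τ ∂(volume : Measure ℝ), τ ∉ Ioo 0 T \ G :=
        measure_eq_zero_iff_ae_notMem.1 hN.fullG
      filter_upwards [h0] with τ hτ
      apply propext
      show (τ ∈ Ioo (s - r' ^ 2) s) ↔ τ ∈ Ioo (s - r' ^ 2) s ∩ G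
      constructor
      · intro h1
        refine ⟨h1, ?_⟩
        by_contra h2
        exact hτ ⟨⟨by linarith [h1.1], h1.2.trans hsT⟩, h2⟩
      · intro h1
        exact h1.1
    rw [h1]
    exact (c1.aestronglyMeasurable hN.openG.measurableSet).mono_measure
      (Measure.restrict_mono inter_subset_right le_rfl)
  have hiY' : IntegrableOn (fun τ => B2 (Y' τ) (r' * 8) (u τ)) (Ioo (s - r' ^ 2) s) := by
    refine Integrable.mono' hdi' hmY' ?_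
    filter_upwards [haeG, ae_restrict_mem measurableSet_Ioo] with τ h1 h2
    rw [Real.norm_eq_abs, abs_of_nonneg (hB0' τ)]
    exact hpt τ h2 h1
  have hInt : IntegrableOn (fun t => B2 0 8 (frv r' s Y' u t)) (Ioo (-1) 0) := w1.2 hiY'
  have hle : ∫ t in Ioo (-1) 0, B2 0 8 (frv r' s Y' u t) ≤ ε := by
    rw [w2]
    have f1 : ∫ τ in Ioo (s - r' ^ 2) s, B2 (Y' τ) (r' * 8) (u τ)
        ≤ ∫ τ in Ioo (s - r' ^ 2) s, B2 (Y τ) (r * (3 / 4)) (u τ) := by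
      refine integral_mono_ae hiY' hdi' ?_
      filter_upwards [haeG, ae_restrict_mem measurableSet_Ioo] with τ h1 h2
      exact hpt τ h2 h1
    have f2 : ∫ τ in Ioo (s - r' ^ 2) s, B2 (Y τ) (r * (3 / 4)) (u τ)
        ≤ ∫ τ in Ioo (s - 9 / 16 * r ^ 2) s, B2 (Y τ) (r * (3 / 4)) (u τ) :=
      setIntegral_mono_set hdi (Eventually.of_forall fun τ => hB0 τ) hss.eventuallyLE
    calc r'⁻¹ * ∫ τ in Ioo (s - r' ^ 2) s, B2 (Y' τ) (r' * 8) (u τ)
        ≤ r'⁻¹ * (C₂ * η * r) := by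
          gcongr
          exact (f1.trans f2).trans hdis
      _ = 16 * (C₂ * η) := by
          rw [hrr]
          field_simp
      _ ≤ ε := hη3
  have hall := hloc _ _ _ _ hL hInt hle
  -- the point
  obtain ⟨z, hz⟩ : ∃ z : V, z = r'⁻¹ • (y - ξ s) := ⟨_, rfl⟩
  have hyz : y = ξ s + r' • z := by
    rw [hz, smul_smul, mul_inv_cancel₀ hr'.ne', one_smul, add_sub_cancel]
  have hzb : z ∈ ball (0 : V) (1 / 16) := by
    rw [mem_ball, dist_eq_norm] at hy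
    rw [hz, mem_ball_zero_iff, norm_smul, Real.norm_eq_abs, abs_of_pos (inv_pos.2 hr'),
      inv_mul_lt_iff₀ hr', hrr]
    linarith
  have hev : ∀ τ ∈ Ioo (s - r' ^ 2 / 32) s, τ ∈ G →
      r' ^ (2 * n + 4) * SV (n + 1) (u τ) (Y' τ + r' • z)
      ≤ Cl (n + 1) * (1 + A2 0 4 (fr r' (u τ) (Y' τ))) := by
    intro τ hτ hτG
    have htm : (τ - s) / r' ^ 2 ∈ Ioo (-1 / 32 : ℝ) 0 := by
      constructor
      · rw [lt_div_iff₀ hr'p]
        linarith [hτ.1]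
      · exact div_neg_of_neg_of_pos (by linarith [hτ.2]) hr'p
    have e1 : s + r' ^ 2 * ((τ - s) / r' ^ 2) = τ := by
      field_simp
      ring
    have hHm : (τ - s) / r' ^ 2 ∈ HH r' s G :=
      ⟨⟨by linarith [htm.1], htm.2⟩, by rw [e1]; exact hτG⟩
    have hv : ContDiff ℝ ∞ (u (s + r' ^ 2 * ((τ - s) / r' ^ 2))) := by
      rw [e1]
      exact (hN.spv hτG).1
    have a2 := (hall (n + 1) _ hHm htm.1 z hzb).2
    rw [SV_frv n hv, turb_frv hN hY' hHm.2, e1] at a2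
    exact a2
  have hyc : ContinuousOn (fun τ => Y' τ + r' • z) G :=
    (hYc'.mono hN.subG).add continuousOn_const
  have l1 : Tendsto (fun τ => r' ^ (2 * n + 4) * SV (n + 1) (u τ) (Y' τ + r' • z)) (𝓝[<] s)
      (𝓝 (r' ^ (2 * n + 4) * SV (n + 1) (u s) y)) := by
    apply Tendsto.const_mul
    have c1 := (sv_contG hN (n + 1) hyc).continuousAt (hN.openG.mem_nhds hsG)
    have c2 : Tendsto (fun τ => SV (n + 1) (u τ) (Y' τ + r' • z)) (𝓝 s)
        (𝓝 (SV (n + 1) (u s) (Y' s + r' • z))) := c1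
    rw [hYs', ← hyz] at c2
    exact c2.mono_left nhdsWithin_le_nhds
  have l2 : Tendsto (fun τ => Cl (n + 1) * (1 + A2 0 4 (fr r' (u τ) (Y' τ)))) (𝓝[<] s)
      (𝓝 (Cl (n + 1) * (1 + A2 0 4 (fr r' (u s) (ξ s))))) := by
    apply Tendsto.const_mul
    apply Tendsto.const_add
    have c1 := (fr_contG hN (hYc'.mono hN.subG) r').continuousAt (hN.openG.mem_nhds hsG)
    have c2 : Tendsto (fun τ => A2 0 4 (fr r' (u τ) (Y' τ))) (𝓝 s)
        (𝓝 (A2 0 4 (fr r' (u s) (Y' s)))) := c1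
    rw [hYs'] at c2
    exact c2.mono_left nhdsWithin_le_nhds
  have key : r' ^ (2 * n + 4) * SV (n + 1) (u s) y
      ≤ Cl (n + 1) * (1 + A2 0 4 (fr r' (u s) (ξ s))) := by
    refine le_of_tendsto_of_tendsto l1 l2 ?_
    filter_upwards [Ioo_mem_nhdsLT (show s - r' ^ 2 / 32 < s by linarith),
      nhdsWithin_le_nhds (hN.openG.mem_nhds hsG)] with τ hτ hτG
    exact hev τ hτ hτG
  -- the oscillation at the final time
  have hus := (hN.spv hsG).1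
  have hA : A2 0 4 (fr r' (u s) (ξ s)) ≤ 257 * (k * (r ^ 4 * F)) := by
    refine (Pool.Agent.W327.ME.A2_le (fr_smooth hus r' (ξ s))).trans ?_
    apply mul_le_mul_of_nonneg_left _ (by norm_num)
    rw [← ENNReal.ofReal_le_ofReal_iff (by positivity)]
    refine (hosc' (by rw [sub_self, norm_zero]; exact hr'.le)).trans ?_
    rw [hKk]
    refine (mul_le_mul_right (mul_le_mul_right hFx _) _).trans ?_
    rw [← ENNReal.ofReal_mul (by positivity), ← ENNReal.ofReal_mul hk0]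
    apply ENNReal.ofReal_le_ofReal
    have h4 : r' ^ 4 ≤ r ^ 4 := by
      apply pow_le_pow_left₀ hr'.le
      rw [hrr]
      linarith
    gcongr
  have hA0 : 0 ≤ r ^ 4 * F := by positivity
  rw [← hrr]
  refine key.trans ?_
  have c1 := hCl.1 (n + 1)
  have c2 := hCl.1 n
  have h5 : 1 + A2 0 4 (fr r' (u s) (ξ s)) ≤ 1 + (257 * k + 1) * (r ^ 4 * F) := by nlinarith
  have h6 : 0 ≤ 1 + (257 * k + 1) * (r ^ 4 * F) := by positivity
  calc Cl (n + 1) * (1 + A2 0 4 (fr r' (u s) (ξ s)))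
      ≤ Cl (n + 1) * (1 + (257 * k + 1) * (r ^ 4 * F)) := by gcongr
    _ ≤ (Cl (n + 1) + Cl n) * (1 + (257 * k + 1) * (r ^ 4 * F)) := by
        gcongr
        linarith

end Pool.Agent.Y7
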