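import Pool.Agent.Y7.WPart
import Pool.Agent.Y7.AN.WLocA

/-!
The regularity scale along the paths, analytic constants: weak solutions (helper7; after
`Y7.WPart`).
-/

set_option autoImplicit false
set_option linter.unusedVariables false

open MeasureTheory Set Metric Filter Topology
open scoped ContDiff ENNReal NNReal

namespace Pool.Agent.Y7

open H459R3.NS W221.NS Pool.Agent.TH305.LW Pool.Agent.TH305.DR Pool.Agent.TH305.LG
open Pool.Agent.Y7.Cov1 Pool.Agent.Y8 Pool.Agent.W349.MF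

/-- The regularity scale along a path of the mollified velocity. -/
theorem wpartA (hDP : S_WDERP) (hE4 : S_WEN4) : ∃ (η C : ℝ) (K : ℕ → ℝ), 0 < η ∧ 0 < C ∧ GK K ∧
    ∀ (T E D : ℝ) (G : Set ℝ) (u : ℝ → V → V) (p : ℝ → V → ℝ), Turb 1 T E D G u p →
      ∀ R₀ : ℝ, 0 < R₀ → sc R₀ 0 ≤ 1 → ∀ (M N : ℕ), M + 4 ≤ N →
      ∀ (t₁ t : ℝ), 0 ≤ t₁ → t₁ < t → t ∈ G → ∀ (ξ ξ' : ℝ → V) (B C' : ℝ),
      FPath T (sc R₀ N) B C' G u p ξ ξ' → ∀ f : ℝ → ℝ≥0∞,
      (∀ τ ∈ Ioo t₁ t, τ ∈ G → f τ = Fx R₀ (u τ) (ξ τ)) →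
      min (Reg K 1 (u t) (ξ t)) (ENNReal.ofReal (1 / hh (sc R₀ 0 ^ 2) M ^ 2))
        ≤ ENNReal.ofReal C * (ENNReal.ofReal (1 / sc R₀ 0 ^ 4)
        + ENNReal.ofReal (1 / (t - t₁) ^ 2)
        + (∑' j : ℕ, ENNReal.ofReal (1 / hh (sc R₀ 0 ^ 2) j ^ 2)
            * (bad f (sc R₀ 0 ^ 2) η j).indicator (fun _ => 1) t)
        + Fx R₀ (u t) (ξ t)) := by
  obtain ⟨η, C, K, hη, hC, hK, H⟩ := wloc7A hDP hE4
  refine ⟨η, 16 * 256 ^ 4 + 256 ^ 4 * C, K, hη, by positivity, hK, ?_⟩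
  intro T E D G u p hN R₀ hR₀ hsc1 M N hMN t₁ t ht₁ h1t htG ξ ξ' B C' hξ f hf
  have htT := hN.subG htG
  obtain ⟨h₀, hh₀⟩ : ∃ h₀, h₀ = sc R₀ 0 ^ 2 := ⟨_, rfl⟩
  have hsc := sc_pos hR₀ 0
  have h₀0 : 0 < h₀ := by rw [hh₀]; positivity
  have e4 : sc R₀ 0 ^ 4 = hh h₀ 0 ^ 2 := by
    rw [hh₀, ← sc_hh]
    ring
  rw [← hh₀]
  obtain ⟨S, hS⟩ : ∃ S, S = ∑' j : ℕ, ENNReal.ofReal (1 / hh h₀ j ^ 2)
      * (bad f h₀ η j).indicator (fun _ => 1) t := ⟨_, rfl⟩
  rw [← hS]
  by_cases hFt : Fx R₀ (u t) (ξ t) = ⊤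
  · rw [hFt]
    have : ENNReal.ofReal (16 * 256 ^ 4 + 256 ^ 4 * C) ≠ 0 := by
      rw [Ne, ENNReal.ofReal_eq_zero, not_le]
      positivity
    rw [add_top, ENNReal.mul_top this]
    exact le_top
  obtain ⟨F, hF⟩ : ∃ F, F = (Fx R₀ (u t) (ξ t)).toReal := ⟨_, rfl⟩
  have hF0 : 0 ≤ F := by rw [hF]; exact ENNReal.toReal_nonneg
  have hFF : Fx R₀ (u t) (ξ t) = ENNReal.ofReal F := by rw [hF, ENNReal.ofReal_toReal hFt]
  by_cases hex : ∃ k, k ≤ M ∧ hh h₀ k < t - t₁ ∧ t ∉ bad f h₀ η k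
  · classical
    refine (min_le_left _ _).trans ?_
    obtain ⟨k, hk⟩ : ∃ k, k = Nat.find hex := ⟨_, rfl⟩
    have hk1 : k ≤ M ∧ hh h₀ k < t - t₁ ∧ t ∉ bad f h₀ η k := by rw [hk]; exact Nat.find_spec hex
    have hkm : ∀ j, j < k → ¬(hh h₀ j < t - t₁ ∧ t ∉ bad f h₀ η j) := fun j hj hcon =>
      Nat.find_min hex (by rwa [← hk]) ⟨by omega, hcon⟩
    obtain ⟨hkM, hk2, hk3⟩ := hk1
    have er : sc R₀ k ^ 2 = hh h₀ k := by rw [hh₀]; exact sc_hh R₀ k
    have hhk := hh_pos h₀0 k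
    have hgood : ∫⁻ τ in Ioo (t - hh h₀ k) t, f τ ≤ ENNReal.ofReal (η / hh h₀ k) :=
      not_lt.1 hk3
    have hloc := H T E D G u p hN R₀ hR₀ hsc1 k N t (by omega) (by rw [er]; linarith) htG ξ ξ' B C'
      hξ (by
        rw [er]
        refine le_trans (le_of_eq ?_) hgood
        apply lintegral_congr_ae
        filter_upwards [aeT hN (show 0 ≤ t - hh h₀ k by linarith) htT.2.le,
          ae_restrict_mem measurableSet_Ioo] with τ h1 h2
        exact (hf τ ⟨by linarith [h2.1], h2.2⟩ h1).symm) F hF0 hFF.le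
    have hreg := reg_of (sc_pos hR₀ k) hC hF0 hloc
    have e5 : sc R₀ k ^ 4 = hh h₀ k ^ 2 := by
      rw [← er]
      ring
    rw [e5] at hreg
    have hb : ENNReal.ofReal (256 ^ 4 / hh h₀ k ^ 2) ≤ ENNReal.ofReal (16 * 256 ^ 4)
        * (ENNReal.ofReal (1 / sc R₀ 0 ^ 4) + ENNReal.ofReal (1 / (t - t₁) ^ 2) + S) := by
      rcases Nat.eq_zero_or_pos k with h0 | hpos
      · rw [h0, e4]
        calc ENNReal.ofReal (256 ^ 4 / hh h₀ 0 ^ 2)
            ≤ ENNReal.ofReal (16 * 256 ^ 4) * ENNReal.ofReal (1 / hh h₀ 0 ^ 2) := by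
              rw [← ENNReal.ofReal_mul (by norm_num)]
              apply ENNReal.ofReal_le_ofReal
              rw [mul_one_div]
              have := hh_pos h₀0 0
              gcongr
              norm_num
          _ ≤ _ := by
              gcongr
              exact le_add_right le_self_add
      · obtain ⟨j, hj⟩ : ∃ j, k = j + 1 := ⟨k - 1, by omega⟩
        have hjn := hkm j (by omega)
        have hhj := hh_pos h₀0 j
        have e6 : 256 ^ 4 / hh h₀ k ^ 2 = 16 * 256 ^ 4 * (1 / hh h₀ j ^ 2) := by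
          have h7 := hh_succ (h₀ := h₀) j
          rw [← hj] at h7
          rw [h7]
          field_simp
          norm_num
        rw [e6, ENNReal.ofReal_mul (by norm_num)]
        by_cases hjb : t ∈ bad f h₀ η j
        · have h8 : ENNReal.ofReal (1 / hh h₀ j ^ 2) ≤ S := by
            rw [hS]
            refine le_trans (le_of_eq ?_) (ENNReal.le_tsum j)
            rw [indicator_of_mem hjb, mul_one]
          gcongr
          exact h8.trans le_add_self
        · have h9 : t - t₁ ≤ hh h₀ j := by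
            by_contra hcon
            exact hjn ⟨not_le.1 hcon, hjb⟩
          have h10 : ENNReal.ofReal (1 / hh h₀ j ^ 2) ≤ ENNReal.ofReal (1 / (t - t₁) ^ 2) := by
            apply ENNReal.ofReal_le_ofReal
            have : 0 < t - t₁ := by linarith
            gcongr
          gcongr
          exact h10.trans (le_add_right le_add_self)
    refine hreg.trans ?_
    rw [mul_add]
    gcongr
    · refine hb.trans ?_
      gcongr
      have : 0 ≤ 256 ^ 4 * C := by positivity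
      linarith
    · rw [hFF, ← ENNReal.ofReal_mul (by positivity)]
      apply ENNReal.ofReal_le_ofReal
      have : 0 ≤ 16 * 256 ^ 4 * F := by positivity
      linarith
  · push Not at hex
    refine (min_le_right _ _).trans ?_
    have hhM := hh_pos h₀0 M
    have h1C : (1 : ℝ≥0∞) ≤ ENNReal.ofReal (16 * 256 ^ 4 + 256 ^ 4 * C) := by
      rw [← ENNReal.ofReal_one]
      apply ENNReal.ofReal_le_ofReal
      have : 0 ≤ 256 ^ 4 * C := by positivity
      nlinarith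
    have h2 : ENNReal.ofReal (1 / hh h₀ M ^ 2) ≤ ENNReal.ofReal (1 / sc R₀ 0 ^ 4)
        + ENNReal.ofReal (1 / (t - t₁) ^ 2) + S + Fx R₀ (u t) (ξ t) := by
      rcases lt_or_ge (hh h₀ M) (t - t₁) with h3 | h3
      · have h4 := hex M le_rfl h3
        have h8 : ENNReal.ofReal (1 / hh h₀ M ^ 2) ≤ S := by
          rw [hS]
          refine le_trans (le_of_eq ?_) (ENNReal.le_tsum M)
          rw [indicator_of_mem h4, mul_one]
        exact (h8.trans le_add_self).trans le_self_add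
      · have h10 : ENNReal.ofReal (1 / hh h₀ M ^ 2) ≤ ENNReal.ofReal (1 / (t - t₁) ^ 2) := by
          apply ENNReal.ofReal_le_ofReal
          have : 0 < t - t₁ := by linarith
          gcongr
        exact ((h10.trans le_add_self).trans le_self_add).trans le_self_add
    calc ENNReal.ofReal (1 / hh h₀ M ^ 2) ≤ _ := h2
      _ = 1 * (ENNReal.ofReal (1 / sc R₀ 0 ^ 4)
        + ENNReal.ofReal (1 / (t - t₁) ^ 2) + S + Fx R₀ (u t) (ξ t)) := (one_mul _).symm
      _ ≤ _ := by gcongr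

end Pool.Agent.Y7
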