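import Pool.Agent.Y7.WCore
import Pool.Agent.Y7.AN.WPartA

/-!
The integral of the regularity scale, analytic constants: weak solutions (helper7; after
`Y7.WCore`).
-/

set_option autoImplicit false
set_option linter.unusedVariables false

open MeasureTheory Set Metric Filter Topology
open scoped ContDiff ENNReal NNReal

namespace Pool.Agent.Y7

open H459R3.NS W221.NS Pool.Agent.TH305.LW Pool.Agent.TH305.DR Pool.Agent.TH305.LG
open Pool.Agent.Y7.Cov1 Pool.Agent.Y8 Pool.Agent.W349.MF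

/-- The core estimate, truncated. -/
theorem wcoreMA (hDP : S_WDERP) (hE4 : S_WEN4) (hEQ : S_WEQV) : ∃ (C : ℝ) (K : ℕ → ℝ), 0 < C ∧ GK K ∧
    ∀ (T E D : ℝ) (G : Set ℝ) (u : ℝ → V → V) (p : ℝ → V → ℝ), Turb 1 T E D G u p →
      ∀ R₀ : ℝ, 0 < R₀ → sc R₀ 0 ≤ 1 → ∀ (M : ℕ) (t₁ t₂ : ℝ), 0 < t₁ → t₁ < t₂ → t₂ < T →
      ∫⁻ t in Ioo t₁ t₂, ∫⁻ y in cell, (min (Reg K 1 (u t) y)
          (ENNReal.ofReal (1 / hh (sc R₀ 0 ^ 2) M ^ 2)) - ENNReal.ofReal C *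
          (ENNReal.ofReal (1 / sc R₀ 0 ^ 4) + ENNReal.ofReal (1 / (t - t₁) ^ 2)))
        ≤ ENNReal.ofReal C * ∫⁻ t in Ioo t₁ t₂, ∫⁻ y in cell, Fx R₀ (u t) y := by
  obtain ⟨η, C, K, hη, hC, hK, H⟩ := wpartA hDP hE4
  obtain ⟨Kf, hKf, hfl⟩ := Pool.Agent.Y8.B.p_wfl
  refine ⟨C * (16 / 3 / η + 1), K, by positivity, hK, ?_⟩
  intro T E D G u p hN R₀ hR₀ hsc1 M t₁ t₂ h1 h12 h2
  obtain ⟨h₀, hh₀⟩ : ∃ h₀, h₀ = sc R₀ 0 ^ 2 := ⟨_, rfl⟩
  have hsc := sc_pos hR₀ 0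
  have h₀0 : 0 < h₀ := by rw [hh₀]; positivity
  have hN4 : sc R₀ (M + 4) ≤ 1 := (sc_le' hR₀ (Nat.zero_le _)).trans hsc1
  have ht₁T : t₁ ∈ Ioo 0 T := ⟨h1, h12.trans h2⟩
  obtain ⟨CF, hCF, hfl2⟩ := hfl E (sc R₀ (M + 4)) (sc_pos hR₀ _) hN4
  obtain ⟨X, Y, hX⟩ := hfl2 T D G u p hN t₁ ht₁T
  have hXe := hEQ T E D G u p hN _ _ _ t₁ X Y (sc_pos hR₀ _) hN4 ht₁T hX
  have hXc : ∀ t ∈ Ioo 0 T, Measurable (X t) := fun t ht => by
    have : Continuous (X t) := continuousOn_univ.1 (hX.cont.comp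
      (f := fun a : V => (t, a)) (by fun_prop) (fun a _ => ⟨ht, mem_univ _⟩))
    exact this.measurable
  obtain ⟨f, hf⟩ : ∃ f, f = fw R₀ G u t₁ t₂ X := ⟨_, rfl⟩
  have hfm : Measurable f := by
    rw [hf]
    exact fw_meas hN R₀ h1 h12 h2 hX.cont
  have hHm := Hs_meas hfm h₀ η
  have hGT : ∀ t ∈ Ioo t₁ t₂, t ∈ Ioo 0 T := fun t ht => ⟨h1.trans ht.1, ht.2.trans h2⟩
  have haeG : ∀ᵐ t ∂(volume.restrict (Ioo t₁ t₂)), t ∈ Ioo t₁ t₂ ∧ t ∈ G := by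
    filter_upwards [aeT hN h1.le h2.le, ae_restrict_mem measurableSet_Ioo] with t h3 h4
    exact ⟨h4, h3⟩
  have hFxm : ∀ t ∈ G, Measurable (Fx R₀ (u t)) := fun t ht => Fx_meas R₀ (hN.spv ht).1
  have hFxp : ∀ t ∈ G, ∀ (x : V) (n : K3), Fx R₀ (u t) (x - iv n) = Fx R₀ (u t) x :=
    fun t ht x n => Fx_per R₀ (hN.per_u t ht) x n
  have hFxX : ∀ t ∈ Ioo t₁ t₂, t ∈ G →
      ∫⁻ a in cell, Fx R₀ (u t) (X t a) = ∫⁻ y in cell, Fx R₀ (u t) y := fun t ht htG =>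
    cell_eq (hXc t (hGT t ht)) (hX.meas t (hGT t ht)) (hXe t (hGT t ht)) (hFxm t htG)
      (hFxp t htG)
  have hCC : ENNReal.ofReal C ≤ ENNReal.ofReal (C * (16 / 3 / η + 1)) := by
    apply ENNReal.ofReal_le_ofReal
    have : 0 ≤ C * (16 / 3 / η) := by positivity
    linarith
  -- the pointwise bound
  have hpt : ∀ t ∈ Ioo t₁ t₂, t ∈ G → ∫⁻ y in cell, (min (Reg K 1 (u t) y)
          (ENNReal.ofReal (1 / hh (sc R₀ 0 ^ 2) M ^ 2))
        - ENNReal.ofReal (C * (16 / 3 / η + 1)) *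
          (ENNReal.ofReal (1 / sc R₀ 0 ^ 4) + ENNReal.ofReal (1 / (t - t₁) ^ 2)))
      ≤ ENNReal.ofReal C * ((∫⁻ a in cell, Hs f h₀ η (t, a)) + ∫⁻ y in cell, Fx R₀ (u t) y) := by
    intro t ht htG
    obtain ⟨b, hb⟩ : ∃ b, b = ENNReal.ofReal (C * (16 / 3 / η + 1)) *
          (ENNReal.ofReal (1 / sc R₀ 0 ^ 4) + ENNReal.ofReal (1 / (t - t₁) ^ 2)) := ⟨_, rfl⟩
    rw [← hb]
    have hy : ∀ a, min (Reg K 1 (u t) (X t a)) (ENNReal.ofReal (1 / hh (sc R₀ 0 ^ 2) M ^ 2)) - b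
        ≤ ENNReal.ofReal C * (Hs f h₀ η (t, a) + Fx R₀ (u t) (X t a)) := by
      intro a
      have h3 := H T E D G u p hN R₀ hR₀ hsc1 M (M + 4) le_rfl t₁ t h1.le ht.1 htG
        (fun τ => X τ a) (fun τ => Y τ a) _ _ (hX.path a) (fun τ => f (τ, a))
        (fun τ hτ hτG => by
          rw [hf]
          unfold fw
          exact indicator_of_mem (show τ ∈ Ioo t₁ t₂ ∩ G from ⟨⟨hτ.1, hτ.2.trans ht.2⟩, hτG⟩) _)
      rw [tsub_le_iff_left]
      refine h3.trans ?_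
      rw [← hh₀, add_assoc, mul_add, hb]
      gcongr
      exact le_rfl
    have hRm : Measurable (fun y => min (Reg K 1 (u t) y)
        (ENNReal.ofReal (1 / hh (sc R₀ 0 ^ 2) M ^ 2)) - b) :=
      ((reg_meas1 hN K 1 htG).min measurable_const).sub_const b
    have e1 := cell_eq (hXc t (hGT t ht)) (hX.meas t (hGT t ht)) (hXe t (hGT t ht)) hRm
      (fun x n => by rw [Reg_per K 1 (hN.per_u t htG) x n])
    rw [← e1]
    refine (lintegral_mono hy).trans ?_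
    have hm3 : Measurable (fun a => Fx R₀ (u t) (X t a)) :=
      (hFxm t htG).comp (hXc t (hGT t ht))
    rw [lintegral_const_mul' _ _ ENNReal.ofReal_ne_top, lintegral_add_right _ hm3]
    rw [hFxX t ht htG]
  have hle1 : ∫⁻ t in Ioo t₁ t₂, ∫⁻ y in cell, (min (Reg K 1 (u t) y)
          (ENNReal.ofReal (1 / hh (sc R₀ 0 ^ 2) M ^ 2))
        - ENNReal.ofReal (C * (16 / 3 / η + 1)) *
          (ENNReal.ofReal (1 / sc R₀ 0 ^ 4) + ENNReal.ofReal (1 / (t - t₁) ^ 2)))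
      ≤ ∫⁻ t in Ioo t₁ t₂, ENNReal.ofReal C * ((∫⁻ a in cell, Hs f h₀ η (t, a))
        + ∫⁻ y in cell, Fx R₀ (u t) y) := by
    apply lintegral_mono_ae
    filter_upwards [haeG] with t ht
    exact hpt t ht.1 ht.2
  refine hle1.trans ?_
  rw [lintegral_const_mul' _ _ ENNReal.ofReal_ne_top]
  have hHm2 : Measurable (fun t : ℝ => ∫⁻ a in cell, Hs f h₀ η (t, a)) :=
    Measurable.lintegral_prod_right' (f := Hs f h₀ η) hHm
  rw [lintegral_add_left hHm2]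
  have hmain : ∫⁻ t in Ioo t₁ t₂, ∫⁻ a in cell, Hs f h₀ η (t, a)
      ≤ ENNReal.ofReal (16 / 3 / η) * ∫⁻ t in Ioo t₁ t₂, ∫⁻ y in cell, Fx R₀ (u t) y := by
    calc ∫⁻ t in Ioo t₁ t₂, ∫⁻ a in cell, Hs f h₀ η (t, a)
        ≤ ∫⁻ t, ∫⁻ a in cell, Hs f h₀ η (t, a) := setLIntegral_le_lintegral _ _
      _ = ∫⁻ a in cell, ∫⁻ t, Hs f h₀ η (t, a) :=
          lintegral_lintegral_swap (f := fun t a => Hs f h₀ η (t, a)) hHm.aemeasurable
      _ ≤ ∫⁻ a in cell, ENNReal.ofReal (16 / 3 / η) * ∫⁻ τ, f (τ, a) :=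
          lintegral_mono fun a => Hs_int hfm h₀0 hη a
      _ = ENNReal.ofReal (16 / 3 / η) * ∫⁻ a in cell, ∫⁻ τ, f (τ, a) := by
          rw [lintegral_const_mul' _ _ ENNReal.ofReal_ne_top]
      _ = ENNReal.ofReal (16 / 3 / η) * ∫⁻ τ, ∫⁻ a in cell, f (τ, a) := by
          rw [lintegral_lintegral_swap (f := fun τ a => f (τ, a)) hfm.aemeasurable]
      _ = ENNReal.ofReal (16 / 3 / η) * ∫⁻ τ in Ioo t₁ t₂ ∩ G, ∫⁻ y in cell, Fx R₀ (u τ) y := by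
          congr 1
          rw [← lintegral_indicator (measurableSet_Ioo.inter hN.openG.measurableSet)]
          refine lintegral_congr fun τ => ?_
          by_cases hτ : τ ∈ Ioo t₁ t₂ ∩ G
          · rw [indicator_of_mem hτ, ← hFxX τ hτ.1 hτ.2]
            refine lintegral_congr fun a => ?_
            rw [hf]
            exact indicator_of_mem hτ _
          · rw [indicator_of_notMem hτ]
            have : ∀ a, f (τ, a) = 0 := by
              intro a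
              rw [hf]
              exact indicator_of_notMem hτ _
            simp only [this, lintegral_zero]
      _ ≤ ENNReal.ofReal (16 / 3 / η) * ∫⁻ t in Ioo t₁ t₂, ∫⁻ y in cell, Fx R₀ (u t) y :=
          mul_le_mul_right (lintegral_mono_set inter_subset_left) _
  rw [ENNReal.ofReal_mul hC.le, mul_assoc]
  gcongr
  rw [ENNReal.ofReal_add (by positivity) (by norm_num), add_mul, ENNReal.ofReal_one, one_mul]
  gcongr

/-- The core estimate. -/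
theorem wcoreA (hDP : S_WDERP) (hE4 : S_WEN4) (hEQ : S_WEQV) : ∃ (C : ℝ) (K : ℕ → ℝ), 0 < C ∧ GK K ∧
    ∀ (T E D : ℝ) (G : Set ℝ) (u : ℝ → V → V) (p : ℝ → V → ℝ), Turb 1 T E D G u p →
      ∀ R₀ : ℝ, 0 < R₀ → sc R₀ 0 ≤ 1 → ∀ (t₁ t₂ : ℝ), 0 < t₁ → t₁ < t₂ → t₂ < T →
      ∫⁻ t in Ioo t₁ t₂, ∫⁻ y in cell, (Reg K 1 (u t) y - ENNReal.ofReal C *
          (ENNReal.ofReal (1 / sc R₀ 0 ^ 4) + ENNReal.ofReal (1 / (t - t₁) ^ 2)))
        ≤ ENNReal.ofReal C * ∫⁻ t in Ioo t₁ t₂, ∫⁻ y in cell, Fx R₀ (u t) y := by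
  obtain ⟨C, K, hC, hK, H⟩ := wcoreMA hDP hE4 hEQ
  refine ⟨C, K, hC, hK, ?_⟩
  intro T E D G u p hN R₀ hR₀ hsc1 t₁ t₂ h1 h12 h2
  obtain ⟨W, hW⟩ : ∃ W, W = ENNReal.ofReal C * ∫⁻ t in Ioo t₁ t₂, ∫⁻ y in cell, Fx R₀ (u t) y :=
    ⟨_, rfl⟩
  rw [← hW]
  have HM := fun M => H T E D G u p hN R₀ hR₀ hsc1 M t₁ t₂ h1 h12 h2
  rw [← hW] at HM
  have hsc := sc_pos hR₀ 0
  have h₀0 : 0 < sc R₀ 0 ^ 2 := by positivity
  obtain ⟨c, hc⟩ : ∃ c : ℕ → ℝ≥0∞, c = fun M => ENNReal.ofReal (1 / hh (sc R₀ 0 ^ 2) M ^ 2) :=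
    ⟨_, rfl⟩
  obtain ⟨b, hb⟩ : ∃ b : ℝ → ℝ≥0∞, b = fun t => ENNReal.ofReal C *
      (ENNReal.ofReal (1 / sc R₀ 0 ^ 4) + ENNReal.ofReal (1 / (t - t₁) ^ 2)) := ⟨_, rfl⟩
  have hbm : Measurable b := by
    rw [hb]
    have h3 : Measurable fun t : ℝ => 1 / (t - t₁) ^ 2 := by fun_prop
    exact (measurable_const.add h3.ennreal_ofReal).const_mul _
  obtain ⟨R, hR⟩ : ∃ R : ℝ × V → ℝ≥0∞, R = (G ×ˢ (univ : Set V)).indicator
      (fun z : ℝ × V => Reg K 1 (u z.1) z.2) := ⟨_, rfl⟩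
  have hRm : Measurable R := by rw [hR]; exact reg_meas hN K 1
  have hRt : ∀ t ∈ G, ∀ y, R (t, y) = Reg K 1 (u t) y := fun t ht y => by
    rw [hR]
    exact indicator_of_mem (show (t, y) ∈ G ×ˢ (univ : Set V) from ⟨ht, mem_univ _⟩) _
  have hcm : Monotone c := by
    intro i j hij
    rw [hc]
    apply ENNReal.ofReal_le_ofReal
    have h3 := hh_pos h₀0 j
    have h4 := hh_pos h₀0 i
    have h5 : hh (sc R₀ 0 ^ 2) j ≤ hh (sc R₀ 0 ^ 2) i := by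
      unfold hh
      apply div_le_div_of_nonneg_left h₀0.le (by positivity)
      exact pow_le_pow_right₀ (by norm_num) hij
    gcongr
  have hcT : ⨆ M, c M = ⊤ := by
    apply ENNReal.eq_top_of_forall_nnreal_le
    intro r
    have l1 : Tendsto (fun j : ℕ => hh (sc R₀ 0 ^ 2) j) atTop (𝓝 0) := by
      have : (fun j : ℕ => hh (sc R₀ 0 ^ 2) j) = fun j => sc R₀ 0 ^ 2 * (1 / 4) ^ j := by
        funext j
        unfold hh
        rw [one_div, inv_pow]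
        rfl
      rw [this]
      simpa using (tendsto_pow_atTop_nhds_zero_of_lt_one (by norm_num : (0 : ℝ) ≤ 1 / 4)
        (by norm_num)).const_mul (sc R₀ 0 ^ 2)
    have hr1 : (0 : ℝ) < r + 1 := by positivity
    obtain ⟨j, hj⟩ := (l1.eventually (gt_mem_nhds (show (0 : ℝ) < 1 / √(r + 1) by
      have := Real.sqrt_pos.2 hr1
      positivity))).exists
    refine le_trans ?_ (le_iSup c j)
    rw [hc, ← ENNReal.ofReal_coe_nnreal]
    apply ENNReal.ofReal_le_ofReal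
    have hhj := hh_pos h₀0 j
    have h2 : hh (sc R₀ 0 ^ 2) j ^ 2 ≤ 1 / ((r : ℝ) + 1) := by
      calc hh (sc R₀ 0 ^ 2) j ^ 2 ≤ (1 / √(r + 1)) ^ 2 := by gcongr
        _ = 1 / ((r : ℝ) + 1) := by
          rw [div_pow, Real.sq_sqrt hr1.le]
          norm_num
    rw [le_div_iff₀ (by positivity)]
    rw [le_div_iff₀ hr1] at h2
    nlinarith [r.2, sq_nonneg (hh (sc R₀ 0 ^ 2) j)]
  -- the truncated functions
  obtain ⟨g, hg⟩ : ∃ g : ℕ → ℝ × V → ℝ≥0∞, g = fun M z => min (R z) (c M) - b z.1 := ⟨_, rfl⟩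
  have hgm : ∀ M, Measurable (g M) := fun M => by
    rw [hg]
    exact (hRm.min measurable_const).sub (hbm.comp measurable_fst)
  have hgmono : Monotone g := by
    intro i j hij z
    rw [hg]
    exact tsub_le_tsub_right (min_le_min_left _ (hcm hij)) _
  have hgsup : ∀ z, ⨆ M, g M z = R z - b z.1 := by
    intro z
    rw [hg]
    simp only
    rw [← ENNReal.iSup_sub]
    congr 1
    have := (inf_iSup_eq (R z) c).symm
    rw [hcT, inf_top_eq] at this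
    exact this
  have hgM : ∀ M, ∫⁻ t in Ioo t₁ t₂, ∫⁻ y in cell, g M (t, y) ≤ W := by
    intro M
    refine le_trans (le_of_eq ?_) (HM M)
    apply lintegral_congr_ae
    filter_upwards [aeT hN h1.le h2.le] with t ht
    refine lintegral_congr fun y => ?_
    rw [hg, hc, hb]
    simp only
    rw [hRt t ht]
  have hfin : ∫⁻ t in Ioo t₁ t₂, ∫⁻ y in cell, (R (t, y) - b t) ≤ W := by
    have e1 : ∀ t, ∫⁻ y in cell, (R (t, y) - b t) = ⨆ M, ∫⁻ y in cell, g M (t, y) := by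
      intro t
      have e2 := lintegral_iSup (μ := volume.restrict cell) (f := fun M y => g M (t, y))
        (fun M => (hgm M).comp measurable_prodMk_left) (fun i j hij y => hgmono hij (t, y))
      rw [← e2]
      refine lintegral_congr fun y => (hgsup (t, y)).symm
    simp_rw [e1]
    rw [lintegral_iSup (fun M => Measurable.lintegral_prod_right' (f := g M) (hgm M))
      (fun i j hij t => lintegral_mono fun y => hgmono hij (t, y))]
    exact iSup_le hgM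
  refine le_trans (le_of_eq ?_) hfin
  apply lintegral_congr_ae
  filter_upwards [aeT hN h1.le h2.le] with t ht
  refine lintegral_congr fun y => ?_
  rw [hRt t ht, hb]

end Pool.Agent.Y7
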