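import Pool.Agent.Y7.WFin
import Pool.Agent.Y7.AN.WCoreA

/-!
The integral of the regularity scale, viscosity one, analytic constants (helper7; after
`Y7.WFin`).
-/

set_option autoImplicit false
set_option linter.unusedVariables false

open MeasureTheory Set Metric Filter Topology
open scoped ContDiff ENNReal NNReal

namespace Pool.Agent.Y7

open H459R3.NS W221.NS Pool.Agent.TH305.LW Pool.Agent.TH305.DR Pool.Agent.TH305.LG
open Pool.Agent.Y8 Pool.Agent.Y7.Cov1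

/-- Suitable weak periodic solutions, viscosity one. -/
theorem wfin1A (hDP : S_WDERP) : ∃ D : ℝ, ∃ K : ℕ → ℝ, 0 < D ∧ GK K ∧
    ∀ (T E Q : ℝ) (G : Set ℝ) (u : ℝ → V → V) (p : ℝ → V → ℝ), Turb 1 T E Q G u p →
      ∫⁻ t in Ioo 0 T, ∫⁻ y in cell, (Reg K 1 (u t) y - ENNReal.ofReal (D * (1 + 1 / t ^ 2)))
        ≤ ENNReal.ofReal D * ∫⁻ t in Ioo 0 T, ENNReal.ofReal (enstrophy (u t)) := by
  obtain ⟨C, K, hC, hK, hcore⟩ := wcoreA hDP t_WEN4 t_WEQV
  obtain ⟨A, hA, hHL⟩ := FxL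
  have hHL' : HLP A := hHL
  obtain ⟨s₀, hs₀⟩ : ∃ s₀, s₀ = 1 / sc 1 0 ^ 4 := ⟨_, rfl⟩
  have hsc1 := sc_pos one_pos 0
  have hs₀0 : 0 < s₀ := by rw [hs₀]; positivity
  have hscle : sc 1 0 ≤ 1 := by
    unfold sc Hl.Rr
    norm_num
  refine ⟨4 * C * (s₀ + 1) + C * (A * 216), K, by positivity, hK, ?_⟩
  intro T E Q G u p hN
  have key : ∫⁻ t in Ioo 0 T, ∫⁻ y in cell,
      (Reg K 1 (u t) y - ENNReal.ofReal (4 * C * (s₀ + 1 / t ^ 2)))
        ≤ ENNReal.ofReal (C * (A * 216)) * ∫⁻ t in Ioo 0 T, ENNReal.ofReal (enstrophy (u t)) := by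
    refine limT hC.le hs₀0.le ?_
    intro t₁ t₂ h1 h12 h2
    have h3 := hcore T E Q G u p hN 1 one_pos hscle t₁ t₂ h1 h12 h2
    rw [← hs₀] at h3
    calc ∫⁻ t in Ioo t₁ t₂, ∫⁻ y in cell,
          (Reg K 1 (u t) y - ENNReal.ofReal (C * (s₀ + 1 / (t - t₁) ^ 2)))
        = ∫⁻ t in Ioo t₁ t₂, ∫⁻ y in cell, (Reg K 1 (u t) y - ENNReal.ofReal C *
          (ENNReal.ofReal s₀ + ENNReal.ofReal (1 / (t - t₁) ^ 2))) := by
          refine lintegral_congr fun t => lintegral_congr fun y => ?_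
          rw [← ENNReal.ofReal_add hs₀0.le (by positivity), ← ENNReal.ofReal_mul hC.le]
      _ ≤ ENNReal.ofReal C * ∫⁻ t in Ioo t₁ t₂, ∫⁻ y in cell, Fx 1 (u t) y := h3
      _ ≤ ENNReal.ofReal C * ∫⁻ t in Ioo t₁ t₂, ENNReal.ofReal (A * 216) *
            ENNReal.ofReal (enstrophy (u t)) := by
          refine mul_le_mul_right (lintegral_mono_ae ?_) _
          filter_upwards [aeT hN h1.le h2.le] with t ht
          obtain ⟨M, hM⟩ := per_grad (turb_cd hN ht) (hN.per_u t ht)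
          exact hl_cell hA.le hHL' (turb_cd hN ht) (hN.per_u t ht) hM
      _ = ENNReal.ofReal (C * (A * 216)) *
            ∫⁻ t in Ioo t₁ t₂, ENNReal.ofReal (enstrophy (u t)) := by
          rw [lintegral_const_mul' _ _ ENNReal.ofReal_ne_top, ← mul_assoc,
            ← ENNReal.ofReal_mul hC.le]
      _ ≤ _ := mul_le_mul_right (lintegral_mono_set (Ioo_subset_Ioo h1.le h2.le)) _
  have hp1 : 0 < C * (A * 216) := by positivity
  refine le_trans ?_ (key.trans (mul_le_mul_left (ENNReal.ofReal_le_ofReal (by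
    have : 0 < 4 * C * (s₀ + 1) := by positivity
    linarith)) _))
  refine setLIntegral_mono' measurableSet_Ioo fun t ht => ?_
  refine lintegral_mono fun y => tsub_le_tsub_left (ENNReal.ofReal_le_ofReal ?_) _
  have h12 : 0 ≤ 1 / t ^ 2 := by positivity
  have h13 : 0 ≤ s₀ * (1 / t ^ 2) := by positivity
  have h14 : 0 ≤ C * (A * 216) * (1 + 1 / t ^ 2) := by positivity
  calc 4 * C * (s₀ + 1 / t ^ 2) ≤ 4 * C * ((s₀ + 1) * (1 + 1 / t ^ 2)) := by
        gcongr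
        nlinarith
    _ ≤ (4 * C * (s₀ + 1) + C * (A * 216)) * (1 + 1 / t ^ 2) := by nlinarith

end Pool.Agent.Y7
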