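import Pool.Agent.Y7.WFin3
import Pool.Agent.Y7.AN.WFinA

/-!
Suitable weak periodic solutions, analytic constants (helper7; after `Y7.WFin3`).
-/

set_option autoImplicit false
set_option linter.unusedVariables false

open MeasureTheory Set Metric Filter Topology
open scoped ContDiff ENNReal NNReal

namespace Pool.Agent.Y7

open H459R3.NS W221.NS Pool.Agent.TH305.LW Pool.Agent.TH305.DR Pool.Agent.TH305.LG
open Pool.Agent.Y8 Pool.Agent.Y7.Cov1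

/-- Suitable weak periodic solutions. -/
theorem weakFA (hDP : S_WDERP) : ∃ C : ℝ, 0 < C ∧ ∃ K : ℕ → ℝ, GQ K ∧
    ∀ (ν T E D : ℝ) (G : Set ℝ) (u : ℝ → V → V) (p : ℝ → V → ℝ), 0 < ν → Turb ν T E D G u p →
      (∫⁻ t in Ioo 0 T, ∫⁻ x in cube, (invSc 4 1 K ν (u t) x
          - ENNReal.ofReal (C * (1 + 1 / (ν * t) ^ 2))) ≤ ENNReal.ofReal (C / ν ^ 2 * D)) ∧
      (∀ (n : ℕ) (t₀ : ℝ), 0 < t₀ →
        ∫⁻ t in Ioo t₀ T, ∫⁻ x in cube, ENNReal.ofReal (‖iteratedFDeriv ℝ (n + 1) (u t) x‖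
          ^ (4 / (n + 2) : ℝ)) ≤ ENNReal.ofReal (C * (K n * ν) ^ (4 / (n + 2) : ℝ) *
            (D / ν ^ 2 + T + 1 / (ν ^ 2 * t₀)))) := by
  obtain ⟨C, K₀, hC, hK₀, H⟩ := wfin1A hDP
  have hK : ∀ n, 0 < √(3 ^ (n + 2) * K₀ n) := fun n => by
    have := hK₀.1 n
    positivity
  refine ⟨C, hC, fun n => √(3 ^ (n + 2) * K₀ n), hK₀.sqrt, ?_⟩
  intro ν T E D G u p hν hN
  have hD0 : 0 ≤ D := (setIntegral_nonneg hN.openG.measurableSet fun t _ => enst_nn _).trans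
    hN.enst_le
  have h := weakN hK₀.1 hC H hν hN
  have h' : ∫⁻ t in Ioo 0 T, ∫⁻ x in cube, (RegI (fun n => √(3 ^ (n + 2) * K₀ n)) ν (u t) x
        - ENNReal.ofReal (C * (1 + 1 / (ν * t) ^ 2))) ≤ ENNReal.ofReal (C / ν ^ 2 * D) := by
    rw [ENNReal.ofReal_mul (by positivity)]
    exact h
  refine ⟨h', ?_⟩
  intro n t₀ ht₀
  rcases le_or_gt T t₀ with hT | hT
  · rw [Ioo_eq_empty (not_lt.2 hT)]
    simp
  have hT0 : 0 < T := ht₀.trans hT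
  have h5 := to_der hν hC.le zero_le_one h' n (hK n) ht₀ (subset_rfl)
  refine h5.trans ?_
  have hKν : 0 ≤ (√(3 ^ (n + 2) * K₀ n) * ν) ^ (4 / (n + 2) : ℝ) :=
    Real.rpow_nonneg (mul_nonneg (hK n).le hν.le) _
  rw [cube_vol, mul_one, ← ENNReal.ofReal_add (by positivity) (by positivity),
    ← ENNReal.ofReal_mul hKν]
  apply ENNReal.ofReal_le_ofReal
  apply le_of_eq
  ring

end Pool.Agent.Y7
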