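import Pool.Agent.Y7.AN.Ind4
import Pool.Agent.Y7.AN.WFin3A
import Pool.Agent.Y7.AN.PLagNA
import Pool.Agent.Y7.AN.SFinA
import Pool.Agent.Y484.AN.Leib
import Pool.Agent.Y475.AN.Hara
import Pool.Agent.Y572.AN.Sobg
import Pool.Agent.Y572.AN.Real1
import Pool.Agent.Y779.AN.Gron
import Pool.Agent.Y455.AN.Eaw
import Pool.Agent.Y455.AN.Ead
import Pool.Agent.Y302.AN.Pta
import Pool.Agent.Y302.AN.Finl

/-!
Analytic bounds for the derivatives of local solutions with small dissipation (helper7, with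
helper302, helper455, helper475, helper484, helper572, helper779).
-/

set_option autoImplicit false

namespace Pool.Agent.Y7

theorem a_pta : AN.S_PTA :=
  Pool.Agent.Y302.AN.t_pta (AN.t_ind Pool.Agent.Y484.AN.t_leib Pool.Agent.Y475.AN.t_cutq
    Pool.Agent.Y572.AN.t_sobg Pool.Agent.Y475.AN.t_hara Pool.Agent.Y779.AN.t_gron
    Pool.Agent.Y572.AN.t_real1)

theorem a_wderp : S_WDERP :=
  t_wderp (Pool.Agent.Y302.AN.t_wdera Pool.Agent.Y455.AN.t_eaw a_pta Pool.Agent.Y475.AN.t_hara)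

theorem a_locp : S_LOCP :=
  t_locp (Pool.Agent.Y302.AN.t_loca Pool.Agent.Y455.AN.t_ead a_pta Pool.Agent.Y475.AN.t_hara)

end Pool.Agent.Y7
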