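import Pool.Agent.Y7.AN.Stm

/-!
Analytic bounds for the derivatives: the inequalities between real numbers (helper7).
-/

set_option autoImplicit false
set_option linter.unusedVariables false

open MeasureTheory Set Metric Filter Topology
open scoped ContDiff

namespace Pool.Agent.Y7.AN

open H459R3.NS W221.NS Pool.Agent.TH305.DR Pool.Agent.Y7.WD

/-- The next gap. -/
noncomputable def gp (n : ℕ) (d : ℝ) : ℝ := d - d / (2 * (n + 1))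

lemma gp_pos (n : ℕ) {d : ℝ} (hd : 0 < d) : 0 < gp n d := by
  unfold gp
  have h : d / (2 * ((n : ℝ) + 1)) < d := by
    rw [div_lt_iff₀ (by positivity)]
    have : (0 : ℝ) ≤ n := Nat.cast_nonneg n
    nlinarith
  linarith

lemma gp_le (n : ℕ) {d : ℝ} (hd : 0 < d) : gp n d ≤ d := by
  unfold gp
  have : 0 < d / (2 * ((n : ℝ) + 1)) := by positivity
  linarith

lemma gp_lt (n : ℕ) {d : ℝ} (hd : 0 < d) : gp n d < d := by
  unfold gp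
  have : 0 < d / (2 * ((n : ℝ) + 1)) := by positivity
  linarith

/-- `(d / d')ᵏ ≤ 2`. -/
lemma gp_pow (n k : ℕ) (hk : k ≤ n + 1) {d : ℝ} (hd : 0 < d) : (d / gp n d) ^ k ≤ 2 := by
  have h0 := gp_pos n hd
  have hn : (0 : ℝ) ≤ n := Nat.cast_nonneg n
  have e : d / gp n d = (1 - 1 / (2 * ((n : ℝ) + 1)))⁻¹ := by
    unfold gp
    rw [show d - d / (2 * ((n : ℝ) + 1)) = d * (1 - 1 / (2 * ((n : ℝ) + 1))) by ring,
      div_mul_eq_div_div, div_self hd.ne', one_div]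
  have h1 : 0 < 1 - 1 / (2 * ((n : ℝ) + 1)) := by
    have : 1 / (2 * ((n : ℝ) + 1)) < 1 := by
      rw [div_lt_one (by positivity)]
      linarith
    linarith
  have h2 : 1 - 1 / (2 * ((n : ℝ) + 1)) ≤ 1 := by
    have : 0 < 1 / (2 * ((n : ℝ) + 1)) := by positivity
    linarith
  have h3 : 1 / 2 ≤ (1 - 1 / (2 * ((n : ℝ) + 1))) ^ (n + 1) := by
    have h4 := one_add_mul_le_pow (a := -(1 / (2 * ((n : ℝ) + 1)))) (by
      have : 1 / (2 * ((n : ℝ) + 1)) ≤ 1 := by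
        rw [div_le_one (by positivity)]
        linarith
      linarith) (n + 1)
    have h5 : 1 + ((n + 1 : ℕ) : ℝ) * -(1 / (2 * ((n : ℝ) + 1))) = 1 / 2 := by
      push_cast
      field_simp
      ring
    rw [h5] at h4
    rw [sub_eq_add_neg]
    exact h4
  have h6 : (1 - 1 / (2 * ((n : ℝ) + 1))) ^ (n + 1) ≤ (1 - 1 / (2 * ((n : ℝ) + 1))) ^ k :=
    pow_le_pow_of_le_one h1.le h2 hk
  rw [e, inv_pow, inv_le_comm₀ (by positivity) (by norm_num)]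
  linarith

/-- `(B / d')ᵏ ≤ 2 (B / d)ᵏ`. -/
lemma gp_powB (n k : ℕ) (hk : k ≤ n + 1) {d B : ℝ} (hd : 0 < d) (hB : 0 ≤ B) :
    (B / gp n d) ^ k ≤ 2 * (B / d) ^ k := by
  have h0 := gp_pos n hd
  have e : B / gp n d = d / gp n d * (B / d) := by
    field_simp
  rw [e, mul_pow]
  exact mul_le_mul_of_nonneg_right (gp_pow n k hk hd) (by positivity)

lemma TB_nn (A B d : ℝ) (k : ℕ) : 0 ≤ TB A B d k := sq_nonneg _

lemma TB_shift (n k : ℕ) (hk : k ≤ n + 1) {A B d : ℝ} (hd : 0 < d) (hB : 0 ≤ B) :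
    TB A B (gp n d) k ≤ 4 * TB A B d k := by
  unfold TB
  have h0 := gp_pos n hd
  have h1 := gp_powB n k hk hd hB
  have h2 : 0 ≤ (B / gp n d) ^ k := by positivity
  have h3 : ((B / gp n d) ^ k) ^ 2 ≤ (2 * (B / d) ^ k) ^ 2 := pow_le_pow_left₀ h2 h1 2
  have e1 : (A * ((B / gp n d) ^ k * k.factorial / (k + 1))) ^ 2
      = ((B / gp n d) ^ k) ^ 2 * (A * (k.factorial / (k + 1))) ^ 2 := by ring
  have e2 : 4 * (A * ((B / d) ^ k * k.factorial / (k + 1))) ^ 2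
      = (2 * (B / d) ^ k) ^ 2 * (A * (k.factorial / (k + 1))) ^ 2 := by ring
  rw [e1, e2]
  exact mul_le_mul_of_nonneg_right h3 (sq_nonneg _)

lemma TB_mono {A A' : ℝ} (B d : ℝ) (k : ℕ) (hA : 0 ≤ A) (h : A ≤ A') (hB : 0 ≤ B) (hd : 0 ≤ d) :
    TB A B d k ≤ TB A' B d k := by
  unfold TB
  apply pow_le_pow_left₀ (by positivity)
  exact mul_le_mul_of_nonneg_right h (by positivity)

/-- One step. -/
lemma TB_step (k : ℕ) (hk : 1 ≤ k) {A B d : ℝ} (hd : 0 < d) (hB : 0 < B) :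
    ((k : ℝ) + 1) ^ 2 / d ^ 2 * TB A B (gp k d) (k - 1) ≤ 64 / B ^ 2 * TB A B d k := by
  have h1 := TB_shift k (k - 1) (by omega) (A := A) hd hB.le
  obtain ⟨m, rfl⟩ : ∃ m, k = m + 1 := ⟨k - 1, by omega⟩
  simp only [Nat.add_sub_cancel] at h1 ⊢
  have h2 : (((m + 1 : ℕ) : ℝ) + 1) ^ 2 / d ^ 2 * TB A B (gp (m + 1) d) m
      ≤ (((m + 1 : ℕ) : ℝ) + 1) ^ 2 / d ^ 2 * (4 * TB A B d m) :=
    mul_le_mul_of_nonneg_left h1 (by positivity)
  refine h2.trans ?_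
  have e1 : TB A B d (m + 1) = TB A B d m * (B / d) ^ 2 * (((m : ℝ) + 1) ^ 2) ^ 2
      / ((m : ℝ) + 2) ^ 2 := by
    unfold TB
    rw [Nat.factorial_succ]
    push_cast
    generalize B / d = q
    field_simp
    ring
  rw [e1]
  push_cast
  have hm : (0 : ℝ) ≤ m := Nat.cast_nonneg m
  have hT := TB_nn A B d m
  have e2 : 64 / B ^ 2 * (TB A B d m * (B / d) ^ 2 * (((m : ℝ) + 1) ^ 2) ^ 2 / ((m : ℝ) + 2) ^ 2)
      = TB A B d m / d ^ 2 * (64 * (((m : ℝ) + 1) ^ 2) ^ 2 / ((m : ℝ) + 2) ^ 2) := by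
    field_simp
  have e3 : ((m : ℝ) + 1 + 1) ^ 2 / d ^ 2 * (4 * TB A B d m)
      = TB A B d m / d ^ 2 * (4 * ((m : ℝ) + 2) ^ 2) := by
    ring
  rw [e2, e3]
  apply mul_le_mul_of_nonneg_left _ (by positivity)
  rw [le_div_iff₀ (by positivity)]
  have h5 : (m : ℝ) + 2 ≤ 2 * (m + 1) := by linarith
  have h6 : ((m : ℝ) + 2) ^ 4 ≤ (2 * (m + 1)) ^ 4 := pow_le_pow_left₀ (by positivity) h5 4
  nlinarith

/-- The bounds are at least `A²`. -/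
lemma TB_one (k : ℕ) {A B d : ℝ} (hd : 0 < d) (hd1 : d ≤ 1 / 16) (hB : 1 ≤ B) :
    A ^ 2 ≤ TB A B d k := by
  unfold TB
  have h1 : 16 ≤ B / d := by
    rw [le_div_iff₀ hd]
    linarith
  have h2 : (k : ℝ) + 1 ≤ (B / d) ^ k := by
    have h3 : (16 : ℝ) ^ k ≤ (B / d) ^ k := pow_le_pow_left₀ (by norm_num) h1 k
    have h4 : (k : ℝ) + 1 ≤ 16 ^ k := by
      have h5 := one_add_mul_le_pow (a := (15 : ℝ)) (by norm_num) k
      have hk : (0 : ℝ) ≤ k := Nat.cast_nonneg k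
      norm_num at h5
      linarith
    linarith
  have h3 : 1 ≤ (B / d) ^ k * k.factorial / (k + 1) := by
    rw [le_div_iff₀ (by positivity), one_mul]
    have h4 : (1 : ℝ) ≤ k.factorial := by exact_mod_cast Nat.factorial_pos k
    nlinarith [show (0 : ℝ) ≤ (B / d) ^ k by positivity]
  rw [mul_pow]
  have h4 : 1 ≤ ((B / d) ^ k * k.factorial / (k + 1)) ^ 2 := one_le_pow₀ h3
  nlinarith [sq_nonneg A]

lemma ch_sq (n a : ℕ) (ha : a ≤ n) :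
    (n.choose a : ℝ) ^ 2 * ((a.factorial : ℝ) ^ 2 * ((n - a).factorial : ℝ) ^ 2)
      = (n.factorial : ℝ) ^ 2 := by
  rw [← Nat.choose_mul_factorial_mul_factorial ha]
  push_cast
  ring

/-- The bound for the low order terms in the velocity. -/
noncomputable def JA (Cs A A' B d : ℝ) (n a : ℕ) : ℝ :=
  (Cs * A' ^ 2 * ((B / d) ^ (2 * a + 1) * (a.factorial : ℝ) ^ 2 / (a + 1))) *
    TB A B d (n - a - 1)

/-- The bound for the high order terms in the velocity. -/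
noncomputable def JB (Cs A A' B d : ℝ) (n a : ℕ) : ℝ :=
  TB A' B d (a - 1) *
    (Cs * A ^ 2 * ((B / d) ^ (2 * (n - a) + 1) * ((n - a).factorial : ℝ) ^ 2 / ((n - a : ℕ) + 1)))

lemma JA_eq {Cs A A' B d : ℝ} (n a : ℕ) (ha : a < n) (hd : 0 < d) :
    (n.choose a : ℝ) ^ 2 * JA Cs A A' B d n a = Cs * A' ^ 2 * A ^ 2 * (B / d) ^ (2 * n - 1) *
      (n.factorial : ℝ) ^ 2 / (((a : ℝ) + 1) * ((n - a : ℕ) : ℝ) ^ 4) := by
  unfold JA TB
  obtain ⟨b, hb⟩ : ∃ b, n = a + b + 1 := ⟨n - a - 1, by omega⟩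
  have e1 : n - a - 1 = b := by omega
  have e2 : n - a = b + 1 := by omega
  have e3 : 2 * n - 1 = (2 * a + 1) + 2 * b := by omega
  rw [← ch_sq n a ha.le, e1, e2, e3, pow_add (B / d) (2 * a + 1) (2 * b), Nat.factorial_succ,
    show (2 * b) = b + b by ring, pow_add (B / d) b b]
  push_cast
  field_simp

lemma JB_eq {Cs A A' B d : ℝ} (n a : ℕ) (ha : a < n) (ha1 : 1 ≤ a) (hd : 0 < d) :
    (n.choose a : ℝ) ^ 2 * JB Cs A A' B d n a = Cs * A' ^ 2 * A ^ 2 * (B / d) ^ (2 * n - 1) *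
      (n.factorial : ℝ) ^ 2 / ((((n - a : ℕ) : ℝ) + 1) * (a : ℝ) ^ 4) := by
  unfold JB TB
  obtain ⟨c, hc⟩ : ∃ c, a = c + 1 := ⟨a - 1, by omega⟩
  subst hc
  obtain ⟨b, hb⟩ : ∃ b, n = c + 1 + b := ⟨n - (c + 1), by omega⟩
  have e2 : n - (c + 1) = b := by omega
  have e3 : 2 * n - 1 = (c + c) + (2 * b + 1) := by omega
  rw [← ch_sq n (c + 1) ha.le, e2, e3, pow_add (B / d) (c + c) (2 * b + 1), pow_add (B / d) c c,
    Nat.add_sub_cancel, Nat.factorial_succ c]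
  push_cast
  field_simp

/-- The sum over the terms with `W`. -/
lemma sumW {Cs A A' B d : ℝ} (n : ℕ) (hn : 8 ≤ n) (hCs : 0 ≤ Cs) (hB : 1 ≤ B) (hd : 0 < d)
    (hd1 : d ≤ 1 / 16) (J : ℕ → ℝ)
    (hJ1 : ∀ a, 1 ≤ a → 2 * a ≤ n → J a = JA Cs A A' B (gp n d) n a)
    (hJ2 : ∀ a, n < 2 * a → a < n → J a = JB Cs A A' B (gp n d) n a) :
    ∑ a ∈ Finset.Ico 1 n, 2 * n * ((n.choose a : ℝ) ^ 2 * J a)
      ≤ 16 * Cs * A' ^ 2 / B * TB A B d n := by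
  have h0 := gp_pos n hd
  have hn0 : (8 : ℝ) ≤ n := by exact_mod_cast hn
  obtain ⟨X, hX⟩ : ∃ X : ℝ, X = Cs * A' ^ 2 * A ^ 2 * (B / gp n d) ^ (2 * n - 1) *
      (n.factorial : ℝ) ^ 2 := ⟨_, rfl⟩
  have hX0 : 0 ≤ X := by rw [hX]; positivity
  have hterm : ∀ a ∈ Finset.Ico 1 n, 2 * n * ((n.choose a : ℝ) ^ 2 * J a)
      ≤ 16 * X / n ^ 3 := by
    intro a ha
    rw [Finset.mem_Ico] at ha
    have ha1 : (1 : ℝ) ≤ a := by exact_mod_cast ha.1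
    by_cases h : 2 * a ≤ n
    · rw [hJ1 a ha.1 h, JA_eq n a ha.2 h0, ← hX]
      have h2 : (n : ℝ) / 2 ≤ ((n - a : ℕ) : ℝ) := by
        rw [Nat.cast_sub ha.2.le]
        have : (2 * a : ℝ) ≤ n := by exact_mod_cast h
        linarith
      have h3 : ((n : ℝ) / 2) ^ 4 ≤ ((n - a : ℕ) : ℝ) ^ 4 :=
        pow_le_pow_left₀ (by positivity) h2 4
      have h4 : 2 * ((n : ℝ) / 2) ^ 4 ≤ ((a : ℝ) + 1) * ((n - a : ℕ) : ℝ) ^ 4 := by
        nlinarith [show (0 : ℝ) ≤ ((n : ℝ) / 2) ^ 4 by positivity]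
      have h5 : X / (((a : ℝ) + 1) * ((n - a : ℕ) : ℝ) ^ 4) ≤ X / (2 * ((n : ℝ) / 2) ^ 4) :=
        div_le_div_of_nonneg_left hX0 (by positivity) h4
      calc 2 * (n : ℝ) * (X / (((a : ℝ) + 1) * ((n - a : ℕ) : ℝ) ^ 4))
          ≤ 2 * (n : ℝ) * (X / (2 * ((n : ℝ) / 2) ^ 4)) := by gcongr
        _ = 16 * X / n ^ 3 := by
          field_simp
          ring
    · rw [hJ2 a (by omega) ha.2, JB_eq n a ha.2 ha.1 h0, ← hX]
      have h2 : (n : ℝ) / 2 ≤ (a : ℝ) := by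
        have : (n : ℝ) ≤ 2 * a := by exact_mod_cast (by omega : n ≤ 2 * a)
        linarith
      have h3 : ((n : ℝ) / 2) ^ 4 ≤ (a : ℝ) ^ 4 :=
        pow_le_pow_left₀ (by positivity) h2 4
      have h6 : (1 : ℝ) ≤ ((n - a : ℕ) : ℝ) := by exact_mod_cast (by omega : 1 ≤ n - a)
      have h4 : 2 * ((n : ℝ) / 2) ^ 4 ≤ (((n - a : ℕ) : ℝ) + 1) * (a : ℝ) ^ 4 := by
        nlinarith [show (0 : ℝ) ≤ ((n : ℝ) / 2) ^ 4 by positivity]
      have h5 : X / ((((n - a : ℕ) : ℝ) + 1) * (a : ℝ) ^ 4) ≤ X / (2 * ((n : ℝ) / 2) ^ 4) :=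
        div_le_div_of_nonneg_left hX0 (by positivity) h4
      calc 2 * (n : ℝ) * (X / ((((n - a : ℕ) : ℝ) + 1) * (a : ℝ) ^ 4))
          ≤ 2 * (n : ℝ) * (X / (2 * ((n : ℝ) / 2) ^ 4)) := by gcongr
        _ = 16 * X / n ^ 3 := by
          field_simp
          ring
  have h1 : ∑ a ∈ Finset.Ico 1 n, 2 * n * ((n.choose a : ℝ) ^ 2 * J a)
      ≤ n * (16 * X / n ^ 3) := by
    refine (Finset.sum_le_sum hterm).trans ?_
    rw [Finset.sum_const, Nat.card_Ico, nsmul_eq_mul]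
    apply mul_le_mul_of_nonneg_right _ (by positivity)
    rw [Nat.cast_sub (by omega)]
    push_cast
    linarith
  refine h1.trans ?_
  -- the power of `B / d'`
  have hp : (B / gp n d) ^ (2 * n - 1) ≤ 4 * (B / d) ^ (2 * n - 1) := by
    have e : 2 * n - 1 = n + (n - 1) := by omega
    rw [e, pow_add, pow_add]
    have p1 := gp_powB n n (by omega) hd (by linarith : 0 ≤ B)
    have p2 := gp_powB n (n - 1) (by omega) hd (by linarith : 0 ≤ B)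
    calc (B / gp n d) ^ n * (B / gp n d) ^ (n - 1)
        ≤ (2 * (B / d) ^ n) * (2 * (B / d) ^ (n - 1)) :=
          mul_le_mul p1 p2 (by positivity) (by positivity)
      _ = 4 * ((B / d) ^ n * (B / d) ^ (n - 1)) := by ring
  have hX1 : X ≤ Cs * A' ^ 2 * A ^ 2 * (4 * (B / d) ^ (2 * n - 1)) * (n.factorial : ℝ) ^ 2 := by
    rw [hX]
    gcongr
  have e5 : (B / d) ^ (2 * n) = (B / d) ^ (2 * n - 1) * (B / d) := by
    rw [← pow_succ]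
    congr 1
    omega
  have eT : TB A B d n = A ^ 2 * ((B / d) ^ (2 * n - 1) * (B / d)) * (n.factorial : ℝ) ^ 2
      / ((n : ℝ) + 1) ^ 2 := by
    unfold TB
    rw [← e5, mul_comm 2 n, pow_mul]
    field_simp
  rw [eT]
  obtain ⟨Z, hZ⟩ : ∃ Z : ℝ, Z = Cs * A' ^ 2 * A ^ 2 * (B / d) ^ (2 * n - 1) *
      (n.factorial : ℝ) ^ 2 := ⟨_, rfl⟩
  have hZ0 : 0 ≤ Z := by rw [hZ]; positivity
  have hX2 : X ≤ 4 * Z := by
    rw [hZ]
    linarith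
  have e6 : 16 * Cs * A' ^ 2 / B * (A ^ 2 * ((B / d) ^ (2 * n - 1) * (B / d)) *
      (n.factorial : ℝ) ^ 2 / ((n : ℝ) + 1) ^ 2) = Z * (16 / (d * ((n : ℝ) + 1) ^ 2)) := by
    rw [hZ]
    field_simp
  rw [e6]
  have e7 : (n : ℝ) * (16 * X / n ^ 3) = X * (16 / n ^ 2) := by
    field_simp
  rw [e7]
  have h8 : 4 * (16 / (n : ℝ) ^ 2) ≤ 16 / (d * ((n : ℝ) + 1) ^ 2) := by
    rw [show 4 * (16 / (n : ℝ) ^ 2) = 64 / (n : ℝ) ^ 2 by ring,
      div_le_div_iff₀ (by positivity) (by positivity)]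
    have h9 : ((n : ℝ) + 1) ^ 2 ≤ 4 * n ^ 2 := by nlinarith
    nlinarith [mul_nonneg hd.le (sq_nonneg ((n : ℝ) + 1))]
  calc X * (16 / (n : ℝ) ^ 2) ≤ 4 * Z * (16 / (n : ℝ) ^ 2) := by gcongr
    _ = Z * (4 * (16 / (n : ℝ) ^ 2)) := by ring
    _ ≤ _ := mul_le_mul_of_nonneg_left h8 hZ0

/-- The term of the highest order in `W`. -/
lemma sumN {A A' B d A₀ : ℝ} (n : ℕ) (hn : 8 ≤ n) (hA₀ : 0 ≤ A₀) (hA : 1 ≤ A) (hB : 1 ≤ B)
    (hd : 0 < d) (hd1 : d ≤ 1 / 16) :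
    2 * n * (TB A' B (gp n d) (n - 1) * A₀) ≤ A' ^ 2 * A₀ / B * TB A B d n := by
  have hn0 : (8 : ℝ) ≤ n := by exact_mod_cast hn
  have h1 := TB_shift n (n - 1) (by omega) (A := A') hd (by linarith : 0 ≤ B)
  obtain ⟨m, rfl⟩ : ∃ m, n = m + 1 := ⟨n - 1, by omega⟩
  simp only [Nat.add_sub_cancel] at h1 ⊢
  have hB0 : 0 < B := by linarith
  have e1 : TB A B d (m + 1) = A ^ 2 * ((B / d) ^ m * m.factorial) ^ 2 * (B / d) ^ 2 *
      ((m : ℝ) + 1) ^ 2 / ((m : ℝ) + 2) ^ 2 := by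
    unfold TB
    rw [Nat.factorial_succ]
    push_cast
    generalize B / d = q
    field_simp
    ring
  have e2 : TB A' B d m = A' ^ 2 * ((B / d) ^ m * m.factorial) ^ 2 / ((m : ℝ) + 1) ^ 2 := by
    unfold TB
    field_simp
  obtain ⟨Y, hY⟩ : ∃ Y : ℝ, Y = ((B / d) ^ m * m.factorial) ^ 2 := ⟨_, rfl⟩
  have hY0 : 0 ≤ Y := by rw [hY]; positivity
  rw [← hY] at e1 e2
  rw [e1]
  rw [e2] at h1
  have hm : (7 : ℝ) ≤ m := by
    push_cast at hn0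
    linarith
  have h2 : 2 * (((m + 1 : ℕ) : ℝ)) * (TB A' B (gp (m + 1) d) m * A₀)
      ≤ 2 * (((m + 1 : ℕ) : ℝ)) * (4 * (A' ^ 2 * Y / ((m : ℝ) + 1) ^ 2) * A₀) := by
    gcongr
  refine h2.trans ?_
  push_cast
  have e3 : 2 * ((m : ℝ) + 1) * (4 * (A' ^ 2 * Y / ((m : ℝ) + 1) ^ 2) * A₀)
      = A' ^ 2 * A₀ * Y * (8 / ((m : ℝ) + 1)) := by
    field_simp
    ring
  have e4 : A' ^ 2 * A₀ / B * (A ^ 2 * Y * (B / d) ^ 2 * ((m : ℝ) + 1) ^ 2 / ((m : ℝ) + 2) ^ 2)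
      = A' ^ 2 * A₀ * Y * (A ^ 2 * (B / d ^ 2) * (((m : ℝ) + 1) ^ 2 / ((m : ℝ) + 2) ^ 2)) := by
    field_simp
  rw [e3, e4]
  apply mul_le_mul_of_nonneg_left _ (by positivity)
  have h3 : 8 / ((m : ℝ) + 1) ≤ 1 := by
    rw [div_le_one (by positivity)]
    linarith
  have h4 : 1 / 4 ≤ ((m : ℝ) + 1) ^ 2 / ((m : ℝ) + 2) ^ 2 := by
    rw [div_le_div_iff₀ (by norm_num) (by positivity)]
    nlinarith
  have h5 : 256 ≤ B / d ^ 2 := by
    rw [le_div_iff₀ (by positivity)]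
    nlinarith
  have h6 : 1 ≤ A ^ 2 := one_le_pow₀ hA
  have h7 : 256 ≤ A ^ 2 * (B / d ^ 2) := by nlinarith
  nlinarith

/-- The sum over the terms with the harmonic part. -/
lemma sumH {A B d Hc : ℝ} (n : ℕ) (hHc : 1 ≤ Hc) (hB : 2 * Hc ^ 2 ≤ B) (hd : 0 < d)
    (hd1 : d ≤ 1 / 16) :
    ∑ a ∈ Finset.Ico 1 (n + 1), 2 ^ a * ((n.choose a : ℝ) ^ 2 *
      ((Hc ^ a * a.factorial) ^ 2 * TB A B (gp n d) (n - a)))
      ≤ 8 * Hc ^ 2 / B * TB A B d n := by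
  have h0 := gp_pos n hd
  have hH2 : 1 ≤ Hc ^ 2 := one_le_pow₀ hHc
  have hB0 : 0 < B := by linarith
  have hB1 : 1 ≤ B := by linarith
  have hterm : ∀ a ∈ Finset.Ico 1 (n + 1), 2 ^ a * ((n.choose a : ℝ) ^ 2 *
      ((Hc ^ a * a.factorial) ^ 2 * TB A B (gp n d) (n - a)))
      ≤ 4 * TB A B d n * (Hc ^ 2 / B) ^ a := by
    intro a ha
    rw [Finset.mem_Ico] at ha
    have han : a ≤ n := by omega
    have h1 := TB_shift n (n - a) (by omega) (A := A) hd hB0.le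
    have h2 : 2 ^ a * ((n.choose a : ℝ) ^ 2 * ((Hc ^ a * a.factorial) ^ 2 *
        TB A B (gp n d) (n - a))) ≤ 2 ^ a * ((n.choose a : ℝ) ^ 2 *
        ((Hc ^ a * a.factorial) ^ 2 * (4 * TB A B d (n - a)))) := by
      gcongr
    refine h2.trans ?_
    have e1 : (n.choose a : ℝ) ^ 2 * ((Hc ^ a * a.factorial) ^ 2 * (4 * TB A B d (n - a)))
        = 4 * A ^ 2 * (n.factorial : ℝ) ^ 2 * (Hc ^ 2) ^ a * ((B / d) ^ (n - a)) ^ 2
          / (((n - a : ℕ) : ℝ) + 1) ^ 2 := by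
      rw [← ch_sq n a han]
      unfold TB
      rw [← pow_mul, mul_comm 2 a, pow_mul Hc a 2]
      field_simp
    have e2 : 4 * TB A B d n * (Hc ^ 2 / B) ^ a = 4 * A ^ 2 * (n.factorial : ℝ) ^ 2 *
        (Hc ^ 2) ^ a * ((B / d) ^ (n - a)) ^ 2 * (((B / d) ^ a) ^ 2 / B ^ a)
          / ((n : ℝ) + 1) ^ 2 := by
      unfold TB
      have : (B / d) ^ n = (B / d) ^ (n - a) * (B / d) ^ a := by
        rw [← pow_add]
        congr 1
        omega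
      rw [this, div_pow (Hc ^ 2) B a]
      field_simp
    rw [e1, e2]
    obtain ⟨Y, hY⟩ : ∃ Y : ℝ, Y = 4 * A ^ 2 * (n.factorial : ℝ) ^ 2 * (Hc ^ 2) ^ a *
        ((B / d) ^ (n - a)) ^ 2 := ⟨_, rfl⟩
    have hY0 : 0 ≤ Y := by rw [hY]; positivity
    rw [← hY]
    have e3 : ((B / d) ^ a) ^ 2 / B ^ a = (B / d ^ 2) ^ a := by
      rw [← pow_mul, mul_comm a 2, pow_mul, ← div_pow]
      congr 1
      field_simp
    rw [e3]
    have h5 : (256 : ℝ) ^ a ≤ (B / d ^ 2) ^ a := by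
      apply pow_le_pow_left₀ (by norm_num)
      rw [le_div_iff₀ (by positivity)]
      nlinarith
    have h6 : ((a : ℝ) + 1) ^ 2 ≤ 4 ^ a := by
      have h7 : (a : ℝ) + 1 ≤ 2 ^ a := by
        have := one_add_mul_le_pow (a := (1 : ℝ)) (by norm_num) a
        norm_num at this
        linarith
      calc ((a : ℝ) + 1) ^ 2 ≤ (2 ^ a) ^ 2 := pow_le_pow_left₀ (by positivity) h7 2
        _ = 4 ^ a := by rw [← pow_mul, mul_comm, pow_mul]; norm_num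
    have h7 : (n : ℝ) + 1 ≤ ((a : ℝ) + 1) * (((n - a : ℕ) : ℝ) + 1) := by
      have h8 : (n : ℝ) = a + ((n - a : ℕ) : ℝ) := by
        rw [Nat.cast_sub han]
        ring
      have h9 : (0 : ℝ) ≤ ((n - a : ℕ) : ℝ) := Nat.cast_nonneg _
      have h10 : (0 : ℝ) ≤ a := Nat.cast_nonneg _
      rw [h8]
      nlinarith
    have h8 : 2 ^ a * (Y / (((n - a : ℕ) : ℝ) + 1) ^ 2)
        ≤ Y * (B / d ^ 2) ^ a / ((n : ℝ) + 1) ^ 2 := by
      rw [← mul_div_assoc, div_le_div_iff₀ (by positivity) (by positivity)]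
      have h9 : ((n : ℝ) + 1) ^ 2 ≤ (((a : ℝ) + 1) * (((n - a : ℕ) : ℝ) + 1)) ^ 2 :=
        pow_le_pow_left₀ (by positivity) h7 2
      have h10 : (2 : ℝ) ^ a * 4 ^ a ≤ 256 ^ a := by
        rw [← mul_pow]
        exact pow_le_pow_left₀ (by norm_num) (by norm_num) a
      calc 2 ^ a * Y * ((n : ℝ) + 1) ^ 2
          ≤ 2 ^ a * Y * (((a : ℝ) + 1) * (((n - a : ℕ) : ℝ) + 1)) ^ 2 := by gcongr
        _ = Y * (2 ^ a * ((a : ℝ) + 1) ^ 2) * (((n - a : ℕ) : ℝ) + 1) ^ 2 := by ring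
        _ ≤ Y * (2 ^ a * 4 ^ a) * (((n - a : ℕ) : ℝ) + 1) ^ 2 := by gcongr
        _ ≤ Y * (256 ^ a) * (((n - a : ℕ) : ℝ) + 1) ^ 2 := by gcongr
        _ ≤ Y * (B / d ^ 2) ^ a * (((n - a : ℕ) : ℝ) + 1) ^ 2 := by gcongr
    exact h8
  refine (Finset.sum_le_sum hterm).trans ?_
  rw [← Finset.mul_sum]
  have hq0 : 0 ≤ Hc ^ 2 / B := by positivity
  have hq : Hc ^ 2 / B ≤ 1 / 2 := by
    rw [div_le_div_iff₀ hB0 (by norm_num)]
    linarith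
  have hsum : ∀ N : ℕ, ∑ a ∈ Finset.Ico 1 (N + 1), (Hc ^ 2 / B) ^ a ≤ 2 * (Hc ^ 2 / B) := by
    intro N
    have h1 : ∀ N : ℕ, ∑ a ∈ Finset.Ico 1 (N + 1), (Hc ^ 2 / B) ^ a
        ≤ 2 * (Hc ^ 2 / B) * (1 - (1 / 2) ^ N) := by
      intro N
      induction N with
      | zero => simp
      | succ N ih =>
        rw [Finset.sum_Ico_succ_top (by omega)]
        have h2 : (Hc ^ 2 / B) ^ (N + 1) ≤ (Hc ^ 2 / B) * (1 / 2) ^ N := by
          rw [pow_succ, mul_comm]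
          exact mul_le_mul_of_nonneg_left (pow_le_pow_left₀ hq0 hq N) hq0
        have h3 : ((1 : ℝ) / 2) ^ (N + 1) = (1 / 2) ^ N * (1 / 2) := pow_succ _ _
        rw [h3]
        linarith
    refine (h1 N).trans ?_
    have : 0 ≤ ((1 : ℝ) / 2) ^ N := by positivity
    nlinarith
  have hT := TB_nn A B d n
  calc 4 * TB A B d n * ∑ a ∈ Finset.Ico 1 (n + 1), (Hc ^ 2 / B) ^ a
      ≤ 4 * TB A B d n * (2 * (Hc ^ 2 / B)) :=
        mul_le_mul_of_nonneg_left (hsum n) (by positivity)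
    _ = _ := by ring

end Pool.Agent.Y7.AN
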