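import Pool.Agent.Y7.AN.Ind0

/-!
Analytic bounds for the derivatives: the estimates at one time (helper7).
-/

set_option autoImplicit false
set_option linter.unusedVariables false

open MeasureTheory Set Metric Filter Topology
open scoped ContDiff

namespace Pool.Agent.Y7.AN

open H459R3.NS W221.NS Pool.Agent.TH305.DR Pool.Agent.Y7.WD
open Pool.Agent.W583.MD (sm_pd cs_pd pd_mul' Z Z.add Z.sub Z.smul Z.sum int_cs Z_pd hcs)
open Pool.Agent.W639.MH (int_ball)

/-- The weights. -/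
noncomputable def lamw (n a : ℕ) : ℝ := if a = 0 then 1 else 1 / n + (1 / 2) ^ a

lemma lamw_pos (n a : ℕ) : 0 < lamw n a := by
  unfold lamw
  split_ifs
  · exact one_pos
  · positivity

lemma lamw_sum (n : ℕ) (hn : 1 ≤ n) : ∑ a ∈ Finset.range (n + 1), lamw n a ≤ 3 := by
  have hn0 : (0 : ℝ) < n := by exact_mod_cast hn
  rw [Finset.range_eq_Ico, Finset.sum_eq_sum_Ico_succ_bot (by omega)]
  have h1 : lamw n 0 = 1 := by simp [lamw]
  have h2 : ∑ a ∈ Finset.Ico (0 + 1) (n + 1), lamw n a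
      = ∑ a ∈ Finset.Ico (0 + 1) (n + 1), (1 / (n : ℝ) + (1 / 2) ^ a) := by
    refine Finset.sum_congr rfl fun a ha => ?_
    rw [Finset.mem_Ico] at ha
    unfold lamw
    rw [if_neg (by omega)]
  rw [h1, h2, Finset.sum_add_distrib, Finset.sum_const, Nat.card_Ico, nsmul_eq_mul]
  have h3 : ∀ N : ℕ, ∑ a ∈ Finset.Ico (0 + 1) (N + 1), ((1 : ℝ) / 2) ^ a
      = 1 - (1 / 2) ^ N := by
    intro N
    induction N with
    | zero => simp
    | succ N ih =>
      rw [Finset.sum_Ico_succ_top (by omega), ih, pow_succ]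
      ring
  rw [h3]
  have h4 : ((n + 1 - (0 + 1) : ℕ) : ℝ) * (1 / (n : ℝ)) = 1 := by
    have : n + 1 - (0 + 1) = n := by omega
    rw [this]
    field_simp
  rw [h4]
  have : 0 ≤ ((1 : ℝ) / 2) ^ n := by positivity
  linarith

lemma lamw_n {n a : ℕ} (hn : 1 ≤ n) (ha : a ≠ 0) : 1 / lamw n a ≤ n := by
  have hn0 : (0 : ℝ) < n := by exact_mod_cast hn
  unfold lamw
  rw [if_neg ha, div_le_iff₀ (by positivity)]
  have h : (n : ℝ) * (1 / n + (1 / 2) ^ a) = 1 + n * (1 / 2) ^ a := by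
    field_simp
  rw [h]
  have : 0 ≤ (n : ℝ) * (1 / 2) ^ a := by positivity
  linarith

lemma lamw_a {n a : ℕ} (ha : a ≠ 0) : 1 / lamw n a ≤ 2 ^ a := by
  unfold lamw
  rw [if_neg ha, div_le_iff₀ (by positivity)]
  have h : (2 : ℝ) ^ a * (1 / n + (1 / 2) ^ a) = 2 ^ a * (1 / n) + 1 := by
    rw [mul_add, ← mul_pow]
    norm_num
  rw [h]
  have : 0 ≤ (2 : ℝ) ^ a * (1 / n) := by positivity
  linarith

section
variable {K : ℝ} {v W : V → V} {G : ℝ}

/-- The products with `W`. -/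
noncomputable def PW (n a : ℕ) (φ : V → ℝ) (v W : V → V) : ℝ :=
  ∫ x, SV a W x * ST (n - a) v x * φ x ^ 2

/-- The products with the harmonic part. -/
noncomputable def PH (n a : ℕ) (φ : V → ℝ) (v W : V → V) : ℝ :=
  ∫ x, SV a (fun y i => v y i - W y i) x * ST (n - a) v x * φ x ^ 2

/-- The nonlinear term at one time. -/
lemma nl1 (hL : S_LEIB) (n : ℕ) (hn : 1 ≤ n) {ρ' ρ M : ℝ} {φ : V → ℝ} (hφ : Cut ρ' ρ M φ)
    (hρ : ρ ≤ 1 / 4) (hD : SD K v W G) :
    QQ n φ v ≤ 108 * (6 * (K ^ 2 + G) * YY n φ v) + 108 * ∑ a ∈ Finset.Ico 1 (n + 1),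
      (2 * n * ((n.choose a : ℝ) ^ 2 * PW n a φ v W)
        + 2 * 2 ^ a * ((n.choose a : ℝ) ^ 2 * PH n a φ v W)) := by
  have hv := hD.cv
  have hW := hD.cW
  have hh : ∀ i, ContDiff ℝ ∞ (fun y => v y i - W y i) := fun i => (hv i).sub (hW i)
  have j1 : ∀ (p : Fin 3 × Fin 3) (m : Fin 3),
      Integrable (fun x => SS n (gg v p.1 p.2 m) x * φ x ^ 2) := fun p m =>
    int_ss n (gg_sm hv p.1 p.2 m) hφ.sm hφ.cs
  have j2 : ∀ a, Integrable (fun x => SV a v x * ST (n - a) v x * φ x ^ 2) := fun a =>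
    int_sv a (n - a) hv hv hφ
  have j3 : ∀ a, Integrable (fun x => SV a W x * ST (n - a) v x * φ x ^ 2) := fun a =>
    int_sv a (n - a) hW hv hφ
  have j4 : ∀ a, Integrable (fun x => SV a (fun y i => v y i - W y i) x * ST (n - a) v x
      * φ x ^ 2) := fun a => int_sv a (n - a) hh hv hφ
  have hp0 := p0 n hφ hρ hD
  have e0 : ∑ p : Fin 3 × Fin 3, ∫ x, SS n (Om p.1 p.2 v) x * φ x ^ 2 = YY n φ v := rfl
  rw [e0] at hp0
  have hn0 : (0 : ℝ) ≤ n := Nat.cast_nonneg n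
  -- pointwise
  have hpt : ∀ x, ∑ p : Fin 3 × Fin 3, ∑ m, SS n (gg v p.1 p.2 m) x * φ x ^ 2
      ≤ 108 * (SV 0 v x * ST n v x * φ x ^ 2) + 108 * ∑ a ∈ Finset.Ico 1 (n + 1),
        (2 * n * ((n.choose a : ℝ) ^ 2 * (SV a W x * ST (n - a) v x * φ x ^ 2))
        + 2 * 2 ^ a * ((n.choose a : ℝ) ^ 2 *
          (SV a (fun y i => v y i - W y i) x * ST (n - a) v x * φ x ^ 2))) := by
    intro x
    have h1 := hL n v hv (lamw n) (fun a => lamw_pos n a) x
    have h2 : 36 * (∑ a ∈ Finset.range (n + 1), lamw n a) *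
        ∑ a ∈ Finset.range (n + 1), (n.choose a : ℝ) ^ 2 / lamw n a * (SV a v x * ST (n - a) v x)
        ≤ 36 * 3 * ∑ a ∈ Finset.range (n + 1), (n.choose a : ℝ) ^ 2 / lamw n a *
          (SV a v x * ST (n - a) v x) := by
      apply mul_le_mul_of_nonneg_right
      · linarith [lamw_sum n hn]
      · refine Finset.sum_nonneg fun a _ => ?_
        have := lamw_pos n a
        have := SV_nonneg a v x
        have := ST_nonneg (n - a) v x
        positivity
    have h3 : ∑ a ∈ Finset.range (n + 1), (n.choose a : ℝ) ^ 2 / lamw n a *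
          (SV a v x * ST (n - a) v x) ≤ SV 0 v x * ST n v x + ∑ a ∈ Finset.Ico 1 (n + 1),
        (2 * n * ((n.choose a : ℝ) ^ 2 * (SV a W x * ST (n - a) v x))
        + 2 * 2 ^ a * ((n.choose a : ℝ) ^ 2 *
          (SV a (fun y i => v y i - W y i) x * ST (n - a) v x))) := by
      rw [Finset.range_eq_Ico, Finset.sum_eq_sum_Ico_succ_bot (by omega)]
      apply add_le_add
      · simp [lamw]
      · refine Finset.sum_le_sum fun a ha => ?_
        rw [Finset.mem_Ico] at ha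
        have ha0 : a ≠ 0 := by omega
        have k1 := SV_split a hD x
        have k2 := lamw_n hn ha0
        have k3 := lamw_a (n := n) ha0
        have k4 := ST_nonneg (n - a) v x
        have k5 := SV_nonneg a W x
        have k6 := SV_nonneg a (fun y i => v y i - W y i) x
        have k7 : 0 ≤ 1 / lamw n a := by
          have := lamw_pos n a
          positivity
        have k8 : (n.choose a : ℝ) ^ 2 / lamw n a * (SV a v x * ST (n - a) v x)
            = (1 / lamw n a) * ((n.choose a : ℝ) ^ 2 * ST (n - a) v x) * SV a v x := by ring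
        rw [k8]
        have k9 : 0 ≤ (n.choose a : ℝ) ^ 2 * ST (n - a) v x := by positivity
        calc (1 / lamw n a) * ((n.choose a : ℝ) ^ 2 * ST (n - a) v x) * SV a v x
            ≤ (1 / lamw n a) * ((n.choose a : ℝ) ^ 2 * ST (n - a) v x) *
              (2 * SV a W x + 2 * SV a (fun y i => v y i - W y i) x) :=
              mul_le_mul_of_nonneg_left k1 (mul_nonneg k7 k9)
          _ = (1 / lamw n a) * (((n.choose a : ℝ) ^ 2 * ST (n - a) v x) * (2 * SV a W x))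
            + (1 / lamw n a) * (((n.choose a : ℝ) ^ 2 * ST (n - a) v x) *
              (2 * SV a (fun y i => v y i - W y i) x)) := by ring
          _ ≤ n * (((n.choose a : ℝ) ^ 2 * ST (n - a) v x) * (2 * SV a W x))
            + 2 ^ a * (((n.choose a : ℝ) ^ 2 * ST (n - a) v x) *
              (2 * SV a (fun y i => v y i - W y i) x)) := by
              apply add_le_add
              · exact mul_le_mul_of_nonneg_right k2 (by positivity)
              · exact mul_le_mul_of_nonneg_right k3 (by positivity)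
          _ = _ := by ring
    have h4 : ∑ p : Fin 3 × Fin 3, ∑ m, SS n (gg v p.1 p.2 m) x * φ x ^ 2
        = (∑ p : Fin 3 × Fin 3, ∑ m, SS n (gg v p.1 p.2 m) x) * φ x ^ 2 := by
      simp only [← Finset.sum_mul]
    rw [h4]
    have h5 : ∑ p : Fin 3 × Fin 3, ∑ m, SS n (gg v p.1 p.2 m) x
        ≤ 108 * (SV 0 v x * ST n v x + ∑ a ∈ Finset.Ico 1 (n + 1),
        (2 * n * ((n.choose a : ℝ) ^ 2 * (SV a W x * ST (n - a) v x))
        + 2 * 2 ^ a * ((n.choose a : ℝ) ^ 2 *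
          (SV a (fun y i => v y i - W y i) x * ST (n - a) v x)))) := by
      refine (h1.trans h2).trans ?_
      linarith
    refine (mul_le_mul_of_nonneg_right h5 (sq_nonneg (φ x))).trans (le_of_eq ?_)
    rw [mul_assoc, add_mul, mul_add, Finset.sum_mul]
    congr 2
    refine Finset.sum_congr rfl fun a _ => ?_
    ring
  have e1 : QQ n φ v = ∫ x, ∑ p : Fin 3 × Fin 3, ∑ m, SS n (gg v p.1 p.2 m) x * φ x ^ 2 := by
    unfold QQ
    rw [integral_finsetSum _ fun p _ => integrable_finsetSum _ fun m _ => j1 p m]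
    refine Finset.sum_congr rfl fun p _ => ?_
    rw [integral_finsetSum _ fun m _ => j1 p m]
  have i1 : Integrable (fun x => 108 * (SV 0 v x * ST n v x * φ x ^ 2)) :=
    (int_sv 0 n hv hv hφ).const_mul _
  have i2 : ∀ a ∈ Finset.Ico 1 (n + 1), Integrable (fun x =>
      2 * n * ((n.choose a : ℝ) ^ 2 * (SV a W x * ST (n - a) v x * φ x ^ 2))
        + 2 * 2 ^ a * ((n.choose a : ℝ) ^ 2 *
          (SV a (fun y i => v y i - W y i) x * ST (n - a) v x * φ x ^ 2))) := fun a _ =>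
    (((j3 a).const_mul _).const_mul _).add (((j4 a).const_mul _).const_mul _)
  rw [e1]
  refine (integral_mono (integrable_finsetSum _ fun p _ => integrable_finsetSum _ fun m _ =>
    j1 p m) (i1.add ((integrable_finsetSum _ i2).const_mul 108)) hpt).trans ?_
  have e2 : ∫ x, (108 * (SV 0 v x * ST n v x * φ x ^ 2) + 108 * ∑ a ∈ Finset.Ico 1 (n + 1),
        (2 * n * ((n.choose a : ℝ) ^ 2 * (SV a W x * ST (n - a) v x * φ x ^ 2))
        + 2 * 2 ^ a * ((n.choose a : ℝ) ^ 2 *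
          (SV a (fun y i => v y i - W y i) x * ST (n - a) v x * φ x ^ 2))))
      = 108 * (∫ x, SV 0 v x * ST n v x * φ x ^ 2) + 108 * ∑ a ∈ Finset.Ico 1 (n + 1),
      (2 * n * ((n.choose a : ℝ) ^ 2 * PW n a φ v W)
        + 2 * 2 ^ a * ((n.choose a : ℝ) ^ 2 * PH n a φ v W)) := by
    rw [integral_add i1 ((integrable_finsetSum _ i2).const_mul 108), integral_const_mul,
      integral_const_mul, integral_finsetSum _ i2]
    congr 2
    refine Finset.sum_congr rfl fun a _ => ?_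
    rw [integral_add (((j3 a).const_mul _).const_mul _) (((j4 a).const_mul _).const_mul _),
      integral_const_mul, integral_const_mul, integral_const_mul, integral_const_mul]
    rfl
  have e3 : ∫ x, (fun x => (108 * (SV 0 v x * ST n v x * φ x ^ 2))) x
      + (fun x => 108 * ∑ a ∈ Finset.Ico 1 (n + 1),
        (2 * n * ((n.choose a : ℝ) ^ 2 * (SV a W x * ST (n - a) v x * φ x ^ 2))
        + 2 * 2 ^ a * ((n.choose a : ℝ) ^ 2 *
          (SV a (fun y i => v y i - W y i) x * ST (n - a) v x * φ x ^ 2)))) x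
      = 108 * (∫ x, SV 0 v x * ST n v x * φ x ^ 2) + 108 * ∑ a ∈ Finset.Ico 1 (n + 1),
      (2 * n * ((n.choose a : ℝ) ^ 2 * PW n a φ v W)
        + 2 * 2 ^ a * ((n.choose a : ℝ) ^ 2 * PH n a φ v W)) := e2
  refine (le_of_eq e3).trans ?_
  linarith

/-- Products: the first factor is bounded. -/
lemma prodL {ρ' ρ M S : ℝ} {φ : V → ℝ} (hφ : Cut ρ' ρ M φ) {F g : V → ℝ} (hF : Continuous F)
    (hg : Continuous g) (hF0 : ∀ x, 0 ≤ F x) (hg0 : ∀ x, 0 ≤ g x) (hS : 0 ≤ S)
    (h : ∀ x ∈ ball (0 : V) ρ, F x ≤ S) :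
    ∫ x, F x * g x * φ x ^ 2 ≤ S * ∫ x in ball (0 : V) ρ, g x := by
  have hφ2 : HasCompactSupport (fun x => φ x ^ 2) := by
    have := hφ.cs.comp_left (g := fun y : ℝ => y ^ 2) (by simp)
    exact this
  have h1 : ∫ x, F x * g x * φ x ^ 2 ≤ ∫ x, (S * g x) * φ x ^ 2 := by
    apply integral_mono
    · exact int_cs ((hF.mul hg).mul (hφ.sm.continuous.pow 2)) hφ2.mul_left
    · exact int_cs ((hg.const_mul S).mul (hφ.sm.continuous.pow 2)) hφ2.mul_left
    · intro x
      show F x * g x * φ x ^ 2 ≤ (S * g x) * φ x ^ 2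
      by_cases hx : x ∈ ball (0 : V) ρ
      · exact mul_le_mul_of_nonneg_right (mul_le_mul_of_nonneg_right (h x hx) (hg0 x))
          (sq_nonneg _)
      · rw [hφ.out x hx]
        simp
  have h2 := cut_le_N' hφ (hg.const_mul S) (fun x => mul_nonneg hS (hg0 x))
  rw [integral_const_mul] at h2
  exact h1.trans h2

lemma PW_le1 (n a : ℕ) {ρ' ρ M S : ℝ} {φ : V → ℝ} (hφ : Cut ρ' ρ M φ) (hD : SD K v W G)
    (hS : 0 ≤ S) (h : ∀ x ∈ ball (0 : V) ρ, SV a W x ≤ S) :
    PW n a φ v W ≤ S * NT (n - a) ρ v := by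
  have h1 := prodL hφ (SV_cont a hD.cW) (ST_cont (n - a) hD.cv) (SV_nonneg a W)
    (ST_nonneg (n - a) v) hS h
  rw [NT_eq (n - a) ρ hD.cv]
  exact h1

lemma PW_le2 (n a : ℕ) {ρ' ρ M S : ℝ} {φ : V → ℝ} (hφ : Cut ρ' ρ M φ) (hD : SD K v W G)
    (hS : 0 ≤ S) (h : ∀ x ∈ ball (0 : V) ρ, ST (n - a) v x ≤ S) :
    PW n a φ v W ≤ NV a ρ W * S := by
  have h1 := prodL hφ (ST_cont (n - a) hD.cv) (SV_cont a hD.cW) (ST_nonneg (n - a) v)
    (SV_nonneg a W) hS h
  rw [NV_eq a ρ hD.cW, mul_comm]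
  refine le_trans (le_of_eq ?_) h1
  unfold PW
  refine integral_congr_ae (Eventually.of_forall fun x => ?_)
  show SV a W x * ST (n - a) v x * φ x ^ 2 = ST (n - a) v x * SV a W x * φ x ^ 2
  ring

/-- The harmonic part, with the analytic constants. -/
lemma har_sup {C Hc : ℝ} (hC : 0 < C)
    (hH : ∀ (n : ℕ) (f : V → ℝ), ContDiff ℝ ∞ f → (∀ x ∈ ball (0 : V) (1 / 4), lap f x = 0) →
      ∀ x ∈ ball (0 : V) (1 / 8), SS n f x ≤ C * (Hc ^ n * n.factorial) ^ 2 * N 0 (1 / 4) f)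
    (a : ℕ) (hD : SD K v W G) {x : V} (hx : x ∈ ball (0 : V) (1 / 8)) :
    SV a (fun y i => v y i - W y i) x ≤ 24 * C * (Hc ^ a * a.factorial) ^ 2 * G := by
  have hG := hD.Gn
  have h1 : ∀ i, SS a (fun y => v y i - W y i) x ≤ C * (Hc ^ a * a.factorial) ^ 2 * (8 * G) := by
    intro i
    have hs : ContDiff ℝ ∞ (fun y => v y i - W y i) := (hD.cv i).sub (hD.cW i)
    refine (hH a _ hs (fun x hx => hD.lapH x hx i) x hx).trans ?_
    apply mul_le_mul_of_nonneg_left _ (by positivity)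
    apply N0_le (by norm_num) hG hs
    intro y hy
    have := hD.bH y hy i
    rw [← Real.sq_sqrt hG]
    exact sq_le_sq' (by linarith [(abs_le.1 this).1]) (abs_le.1 this).2
  have h2 : SV a (fun y i => v y i - W y i) x
      ≤ ∑ _i : Fin 3, C * (Hc ^ a * a.factorial) ^ 2 * (8 * G) :=
    Finset.sum_le_sum fun i _ => h1 i
  simp only [Finset.sum_const, Finset.card_univ, Fintype.card_fin] at h2
  refine h2.trans (le_of_eq ?_)
  norm_num
  ring

lemma PH_le {C Hc : ℝ} (hC : 0 < C)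
    (hH : ∀ (n : ℕ) (f : V → ℝ), ContDiff ℝ ∞ f → (∀ x ∈ ball (0 : V) (1 / 4), lap f x = 0) →
      ∀ x ∈ ball (0 : V) (1 / 8), SS n f x ≤ C * (Hc ^ n * n.factorial) ^ 2 * N 0 (1 / 4) f)
    (n a : ℕ) {ρ' ρ M : ℝ} {φ : V → ℝ} (hφ : Cut ρ' ρ M φ) (hρ : ρ ≤ 1 / 8) (hD : SD K v W G) :
    PH n a φ v W ≤ 24 * C * (Hc ^ a * a.factorial) ^ 2 * G * NT (n - a) ρ v := by
  have hG := hD.Gn
  have hh : ∀ i, ContDiff ℝ ∞ (fun y => v y i - W y i) := fun i => (hD.cv i).sub (hD.cW i)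
  have h1 := prodL (S := 24 * C * (Hc ^ a * a.factorial) ^ 2 * G) hφ (SV_cont a hh)
    (ST_cont (n - a) hD.cv) (SV_nonneg a _) (ST_nonneg (n - a) v) (by positivity)
    (fun x hx => har_sup hC hH a hD (ball_subset_ball hρ hx))
  rw [NT_eq (n - a) ρ hD.cv]
  exact h1

/-- The elliptic step. -/
lemma ell (k : ℕ) {ρ' ρ M : ℝ} {φ : V → ℝ} (hφ : Cut ρ' ρ M φ) (hM : 0 ≤ M) (hρ : ρ ≤ 1 / 4)
    (hD : SD K v W G) :
    NV (k + 1) ρ' W ≤ 10 * M * NV k ρ W + 4 * NT k ρ v := by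
  have h3 : ∀ i, N (k + 1) ρ' (fun y => W y i)
      ≤ 10 * M * N k ρ (fun y => W y i) + 4 * ∑ m, N k ρ (Om m i v) := by
    intro i
    have heq : ∀ x ∈ ball (0 : V) ρ, lap (fun y => W y i) x = ∑ m, pd m (Om m i v) x := by
      intro x hx
      have hx' : x ∈ ball (0 : V) (1 / 4) := ball_subset_ball hρ hx
      have b1 := hD.lapv x hx' i
      have b2 := hD.lapH x hx' i
      have b3 : lap (fun y => v y i - W y i) x
          = lap (fun y => v y i) x - lap (fun y => W y i) x := by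
        unfold lap
        rw [← Finset.sum_sub_distrib]
        refine Finset.sum_congr rfl fun j _ => ?_
        rw [pd_sub' (hD.cv i) (hD.cW i), pd_sub' (sm_pd (hD.cv i) j)
          (sm_pd (hD.cW i) j)]
      rw [b3] at b2
      linarith
    have h1 := elN k (hD.cW i) hφ.sm hφ.cs (fun m => om_sm hD.cv m i) heq hφ.out
    have h2 := N_le_cut (k + 1) hφ (hD.cW i)
    have h4 := cut1_le_N k hφ (hD.cW i)
    have h5 : ∑ m, ∫ x, SS k (Om m i v) x * φ x ^ 2 ≤ ∑ m, N k ρ (Om m i v) :=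
      Finset.sum_le_sum fun m _ => cut_le_N k hφ (om_sm hD.cv m i)
    linarith
  have c1 : NV (k + 1) ρ' W ≤ ∑ i, (10 * M * N k ρ (fun y => W y i)
      + 4 * ∑ m, N k ρ (Om m i v)) := Finset.sum_le_sum fun i _ => h3 i
  refine c1.trans (le_of_eq ?_)
  rw [Finset.sum_add_distrib, ← Finset.mul_sum, ← Finset.mul_sum]
  congr 2
  unfold NT
  rw [Fintype.sum_prod_type, Finset.sum_comm]

end

end Pool.Agent.Y7.AN
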