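import Pool.Agent.Y7.AN.Ind1

/-!
Analytic bounds for the derivatives: integrability, the elliptic estimates, the products
(helper7).
-/

set_option autoImplicit false
set_option linter.unusedVariables false

open MeasureTheory Set Metric Filter Topology
open scoped ContDiff

namespace Pool.Agent.Y7.AN

open H459R3.NS W221.NS Pool.Agent.TH305.DR Pool.Agent.Y7.WD
open Pool.Agent.W583.MD (sm_pd cs_pd pd_mul' Z Z.add Z.sub Z.smul Z.sum int_cs Z_pd hcs)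
open Pool.Agent.W639.MH (int_ball)

section
variable {H : Set ℝ}

/-- Restriction to a subinterval. -/
lemma rH6 (hfull : volume (Ioo (-3 / 64 : ℝ) 0 \ H) = 0) {A : Set ℝ} (hA : A ⊆ Ioo (-3 / 64) 0) :
    (volume : Measure ℝ).restrict A = volume.restrict (A ∩ H) := by
  apply Measure.restrict_congr_set
  have h0 : ∀ᵐ τ ∂(volume : Measure ℝ), τ ∉ Ioo (-3 / 64 : ℝ) 0 \ H :=
    measure_eq_zero_iff_ae_notMem.1 hfull
  filter_upwards [h0] with τ h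
  apply propext
  show A τ ↔ (A ∩ H) τ
  constructor
  · intro h1
    refine ⟨h1, ?_⟩
    by_contra h2
    exact h ⟨hA h1, h2⟩
  · intro h1
    exact h1.1

lemma ae_mem6 (hfull : volume (Ioo (-3 / 64 : ℝ) 0 \ H) = 0) {A : Set ℝ}
    (hA : A ⊆ Ioo (-3 / 64) 0) (hAm : MeasurableSet A) :
    ∀ᵐ τ ∂(volume.restrict A), τ ∈ A ∧ τ ∈ H := by
  have h0 : ∀ᵐ τ ∂(volume : Measure ℝ), τ ∉ Ioo (-3 / 64 : ℝ) 0 \ H :=
    measure_eq_zero_iff_ae_notMem.1 hfull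
  filter_upwards [ae_restrict_of_ae h0, ae_restrict_mem hAm] with τ h1 h2
  refine ⟨h2, ?_⟩
  by_contra h4
  exact h1 ⟨hA h2, h4⟩

/-- Domination. -/
lemma int_le6 (hH : IsOpen H) (hfull : volume (Ioo (-3 / 64 : ℝ) 0 \ H) = 0) {A : Set ℝ}
    (hA : A ⊆ Ioo (-3 / 64) 0) (hAm : MeasurableSet A) {f g : ℝ → ℝ} (hf : ContinuousOn f H)
    (hg : IntegrableOn g A) (h : ∀ τ ∈ A, τ ∈ H → |f τ| ≤ g τ) : IntegrableOn f A := by
  have hm : AEStronglyMeasurable f (volume.restrict A) := by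
    rw [rH6 hfull hA]
    exact (hf.aestronglyMeasurable hH.measurableSet).mono_measure
      (Measure.restrict_mono inter_subset_right le_rfl)
  refine Integrable.mono' hg hm ?_
  filter_upwards [ae_mem6 hfull hA hAm] with τ hτ
  exact h τ hτ.1 hτ.2

lemma int_mono6 (hfull : volume (Ioo (-3 / 64 : ℝ) 0 \ H) = 0) {A : Set ℝ}
    (hA : A ⊆ Ioo (-3 / 64) 0) (hAm : MeasurableSet A) {f g : ℝ → ℝ} (hf : IntegrableOn f A)
    (hg : IntegrableOn g A) (h : ∀ τ ∈ A, τ ∈ H → f τ ≤ g τ) :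
    ∫ τ in A, f τ ≤ ∫ τ in A, g τ := by
  refine integral_mono_ae hf hg ?_
  filter_upwards [ae_mem6 hfull hA hAm] with τ hτ
  exact h τ hτ.1 hτ.2

end

lemma sub6 {a b : ℝ} (ha : -3 / 64 ≤ a) (hb : b ≤ 0) : Ioo a b ⊆ Ioo (-3 / 64 : ℝ) 0 :=
  Ioo_subset_Ioo ha hb

section
variable {K A₀ : ℝ} {H : Set ℝ} {v W : ℝ → V → V} {G : ℝ → ℝ}

lemma EA.iC (h : EA K A₀ H v W G) {a b : ℝ} (c : ℝ) :
    IntegrableOn (fun _ : ℝ => c) (Ioo a b) :=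
  integrableOn_const measure_Ioo_lt_top.ne

lemma EA.iN (h : EA K A₀ H v W G) (n : ℕ) {ρ a b : ℝ} (hρ : ρ ≤ 1 / 8) (ha : -3 / 64 ≤ a)
    (hb : b ≤ 0) : IntegrableOn (fun t => NT n ρ (v t)) (Ioo a b) := by
  obtain ⟨B, hB⟩ := h.bd n
  refine int_le6 h.openH h.fullH (sub6 ha hb) measurableSet_Ioo (h.cN n ρ) (h.iC B)
    fun τ _ hτ => ?_
  rw [abs_of_nonneg (NT_nonneg _ _ _)]
  exact (NT_mono n hρ (h.sd τ hτ).cv).trans (hB τ hτ)

lemma YY_le {n : ℕ} {ρ' ρ ρ2 M : ℝ} {φ : V → ℝ} {u : V → V} (hφ : Cut ρ' ρ M φ) (hρ : ρ ≤ ρ2)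
    (hu : ∀ i, ContDiff ℝ ∞ (fun y => u y i)) : YY n φ u ≤ NT n ρ2 u :=
  YY_le_NT n hφ hρ hu

lemma EA.iY (h : EA K A₀ H v W G) (n : ℕ) {ρ' ρ M a b : ℝ} {φ : V → ℝ} (hφ : Cut ρ' ρ M φ)
    (hρ : ρ ≤ 1 / 8) (ha : -3 / 64 ≤ a) (hb : b ≤ 0) :
    IntegrableOn (fun t => YY n φ (v t)) (Ioo a b) := by
  refine int_le6 h.openH h.fullH (sub6 ha hb) measurableSet_Ioo (h.cY n ρ' ρ M φ hφ)
    (h.iN n le_rfl ha hb) fun τ _ hτ => ?_
  rw [abs_of_nonneg (YY_nonneg _ _ _)]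
  exact YY_le_NT n hφ hρ (h.sd τ hτ).cv

lemma EA.iG (h : EA K A₀ H v W G) {a b : ℝ} (ha : -3 / 64 ≤ a) (hb : b ≤ 0) :
    IntegrableOn G (Ioo a b) := by
  obtain ⟨M, hM⟩ := h.GM
  refine int_le6 h.openH h.fullH (sub6 ha hb) measurableSet_Ioo h.Gc (h.iC M)
    fun τ _ hτ => ?_
  rw [abs_of_nonneg (h.sd τ hτ).Gn]
  exact hM τ hτ

lemma EA.G_le (h : EA K A₀ H v W G) {a : ℝ} (ha : -3 / 64 ≤ a) : ∫ t in Ioo a 0, G t ≤ K := by
  refine le_trans ?_ h.Gi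
  apply setIntegral_mono_set (h.iG le_rfl le_rfl)
  · filter_upwards [ae_mem6 h.fullH (A := Ioo (-3 / 64) 0) Subset.rfl measurableSet_Ioo] with x hx
    exact (h.sd x hx.2).Gn
  · exact (Ioo_subset_Ioo_left ha).eventuallyLE

/-- The levels. -/
structure PN (A B : ℝ) (H : Set ℝ) (v : ℝ → V → V) (n : ℕ) : Prop where
  p1 : ∀ k < n, ∀ d : ℝ, 0 < d → d ≤ 1 / 16 → ∀ t ∈ H, -3 / 64 + d / 4 < t →
    NT k (1 / 8 - d) (v t) ≤ TB A B d k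
  p2 : ∀ k < n, ∀ d : ℝ, 0 < d → d ≤ 1 / 16 →
    ∫ t in Ioo (-3 / 64 + d / 4) 0, NT (k + 1) (1 / 8 - d) (v t) ≤ TB A B d k

lemma pn8 (h : EA K A₀ H v W G) {A B : ℝ} (hA0 : 0 ≤ A₀) (hA : A₀ ≤ A ^ 2) (hB : 1 ≤ B) :
    PN A B H v 8 := by
  refine ⟨fun k hk d hd hd1 t ht _ => ?_, fun k hk d hd hd1 => ?_⟩
  · refine ((NT_mono k (by linarith) (h.sd t ht).cv).trans (h.b1 k (by omega) t ht)).trans ?_
    exact hA.trans (TB_one k hd hd1 hB)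
  · have ha : -3 / 64 ≤ -3 / 64 + d / 4 := by linarith
    have h1 : ∫ t in Ioo (-3 / 64 + d / 4) 0, NT (k + 1) (1 / 8 - d) (v t)
        ≤ ∫ t in Ioo (-3 / 64 + d / 4) 0, A₀ :=
      int_mono6 h.fullH (sub6 ha le_rfl) measurableSet_Ioo
        (h.iN (k + 1) (by linarith) ha le_rfl) (h.iC A₀) fun τ _ hτ =>
          (NT_mono (k + 1) (by linarith) (h.sd τ hτ).cv).trans (h.b1 (k + 1) (by omega) τ hτ)
    refine h1.trans ?_
    rw [setIntegral_const, smul_eq_mul]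
    have h2 : (volume : Measure ℝ).real (Ioo (-3 / 64 + d / 4) 0) ≤ 1 := by
      rw [measureReal_def, Real.volume_Ioo, ENNReal.toReal_ofReal (by linarith)]
      linarith
    have h3 : (0 : ℝ) ≤ (volume : Measure ℝ).real (Ioo (-3 / 64 + d / 4) 0) := measureReal_nonneg
    have h4 := TB_one (A := A) k hd hd1 hB
    nlinarith

/-- The elliptic estimates. -/
lemma ellK {Cc A B : ℝ} (hCc : 0 < Cc)
    (hcut : ∀ ρ' ρ : ℝ, 0 < ρ' → ρ' < ρ → ρ ≤ 1 → ∃ φ : V → ℝ, Cut ρ' ρ (Cc / (ρ - ρ') ^ 2) φ)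
    (h : EA K A₀ H v W G) (hA0 : 0 ≤ A₀) (hA : A₀ ≤ A ^ 2) (hA1 : 0 ≤ A)
    (hB : 5120 * Cc + 1 ≤ B) {n : ℕ} (hP : PN A B H v n) (k : ℕ) :
    k < n → ∀ d : ℝ, 0 < d → d ≤ 1 / 16 → ∀ t ∈ H, -3 / 64 + d / 4 < t →
      NV (k + 1) (1 / 8 - d) (W t) ≤ TB (6 * A) B d k := by
  have hB1 : 1 ≤ B := by linarith
  induction k with
  | zero =>
    intro _ d hd hd1 t ht _
    refine ((NV_mono 1 (by linarith) (h.sd t ht).cW).trans (h.b2 t ht)).trans ?_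
    have h1 := TB_one (A := 6 * A) 0 hd hd1 hB1
    nlinarith [sq_nonneg A]
  | succ k ih =>
    intro hk d hd hd1 t ht hat
    obtain ⟨d', hd'⟩ : ∃ d', d' = gp (k + 1) d := ⟨_, rfl⟩
    have g0 : 0 < d' := hd' ▸ gp_pos (k + 1) hd
    have g1 : d' < d := hd' ▸ gp_lt (k + 1) hd
    have g2 : d - d' = d / (2 * ((k + 1 : ℕ) + 1)) := by
      rw [hd']
      unfold gp
      ring
    obtain ⟨φ, hφ⟩ := hcut (1 / 8 - d) (1 / 8 - d') (by linarith) (by linarith) (by linarith)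
    have e1 : (1 : ℝ) / 8 - d' - (1 / 8 - d) = d - d' := by ring
    rw [e1] at hφ
    have h1 := ell (k + 1) hφ (by positivity) (by linarith) (h.sd t ht)
    have h2 := ih (by omega) d' g0 (by linarith) t ht (by linarith)
    have h3 := hP.p1 (k + 1) hk d' g0 (by linarith) t ht (by linarith)
    have h4 := TB_step (k + 1) (by omega) (A := 6 * A) (B := B) hd (by linarith)
    have h5 := TB_shift (k + 1) (k + 1) (by omega) (A := A) (B := B) hd (by linarith)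
    rw [← hd'] at h4 h5
    simp only [Nat.add_sub_cancel] at h4
    have e2 : Cc / (d - d') ^ 2 = 4 * Cc * ((((k + 1 : ℕ) : ℝ) + 1) ^ 2 / d ^ 2) := by
      rw [g2]
      field_simp
      ring
    have e3 : TB A B d (k + 1) = TB (6 * A) B d (k + 1) / 36 := by
      unfold TB
      ring
    have hT := TB_nn (6 * A) B d (k + 1)
    have h6 : 10 * (Cc / (d - d') ^ 2) * NV (k + 1) (1 / 8 - d') (W t)
        ≤ 40 * Cc * (64 / B ^ 2 * TB (6 * A) B d (k + 1)) := by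
      rw [e2]
      have h7 : ((((k + 1 : ℕ) : ℝ) + 1) ^ 2 / d ^ 2) * NV (k + 1) (1 / 8 - d') (W t)
          ≤ 64 / B ^ 2 * TB (6 * A) B d (k + 1) :=
        (mul_le_mul_of_nonneg_left h2 (by positivity)).trans h4
      have h8 := mul_le_mul_of_nonneg_left h7 (by positivity : 0 ≤ 40 * Cc)
      refine le_trans (le_of_eq ?_) h8
      ring
    have h7 : 40 * Cc * (64 / B ^ 2) ≤ 1 / 2 := by
      rw [← mul_div_assoc, div_le_iff₀ (by positivity)]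
      nlinarith
    have h8 : 40 * Cc * (64 / B ^ 2 * TB (6 * A) B d (k + 1))
        ≤ 1 / 2 * TB (6 * A) B d (k + 1) := by
      rw [← mul_assoc]
      exact mul_le_mul_of_nonneg_right h7 hT
    rw [e3] at h5
    linarith

/-- The pointwise bound for vector fields. -/
lemma sobV {Cs : ℝ} (hS : ∀ (n : ℕ) (f : V → ℝ), ContDiff ℝ ∞ f →
    ∀ γ ρ : ℝ, 0 < γ → γ ≤ 1 → 0 < ρ → ∀ x ∈ ball (0 : V) ρ,
    γ ^ 3 * SS n f x ≤ Cs * ∑ j ∈ Finset.range 4, γ ^ (2 * j) * N (n + j) (ρ + γ) f)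
    (n : ℕ) {w : V → V} (hw : ∀ i, ContDiff ℝ ∞ (fun y => w y i)) {γ ρ : ℝ} (h1 : 0 < γ)
    (h2 : γ ≤ 1) (h3 : 0 < ρ) {x : V} (hx : x ∈ ball (0 : V) ρ) :
    γ ^ 3 * SV n w x ≤ Cs * ∑ j ∈ Finset.range 4, γ ^ (2 * j) * NV (n + j) (ρ + γ) w := by
  unfold SV NV
  rw [Finset.mul_sum]
  refine (Finset.sum_le_sum fun i _ => hS n _ (hw i) γ ρ h1 h2 h3 x hx).trans (le_of_eq ?_)
  rw [← Finset.mul_sum, Finset.sum_comm]
  simp only [Finset.mul_sum]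

lemma sobT {Cs : ℝ} (hS : ∀ (n : ℕ) (f : V → ℝ), ContDiff ℝ ∞ f →
    ∀ γ ρ : ℝ, 0 < γ → γ ≤ 1 → 0 < ρ → ∀ x ∈ ball (0 : V) ρ,
    γ ^ 3 * SS n f x ≤ Cs * ∑ j ∈ Finset.range 4, γ ^ (2 * j) * N (n + j) (ρ + γ) f)
    (n : ℕ) {w : V → V} (hw : ∀ i, ContDiff ℝ ∞ (fun y => w y i)) {γ ρ : ℝ} (h1 : 0 < γ)
    (h2 : γ ≤ 1) (h3 : 0 < ρ) {x : V} (hx : x ∈ ball (0 : V) ρ) :
    γ ^ 3 * ST n w x ≤ Cs * ∑ j ∈ Finset.range 4, γ ^ (2 * j) * NT (n + j) (ρ + γ) w := by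
  unfold Pool.Agent.TH305.DR.ST NT
  rw [Finset.mul_sum]
  refine (Finset.sum_le_sum fun p _ => hS n _ (om_sm hw p.1 p.2) γ ρ h1 h2 h3 x hx).trans
    (le_of_eq ?_)
  rw [← Finset.mul_sum, Finset.sum_comm]
  simp only [Finset.mul_sum]

end

end Pool.Agent.Y7.AN
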