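import Pool.Agent.Y7.AN.Ind2

/-!
Analytic bounds for the derivatives: the products in the induction (helper7).
-/

set_option autoImplicit false
set_option linter.unusedVariables false

open MeasureTheory Set Metric Filter Topology
open scoped ContDiff

namespace Pool.Agent.Y7.AN

open H459R3.NS W221.NS Pool.Agent.TH305.DR Pool.Agent.Y7.WD
open Pool.Agent.W583.MD (sm_pd cs_pd pd_mul' Z Z.add Z.sub Z.smul Z.sum int_cs Z_pd hcs)
open Pool.Agent.W639.MH (int_ball)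

/-- The constants of the pointwise bound and of the inequality between real numbers. -/
def SobC (Cs : ℝ) : Prop := ∀ (n : ℕ) (f : V → ℝ), ContDiff ℝ ∞ f →
    ∀ γ ρ : ℝ, 0 < γ → γ ≤ 1 → 0 < ρ → ∀ x ∈ ball (0 : V) ρ,
    γ ^ 3 * SS n f x ≤ Cs * ∑ j ∈ Finset.range 4, γ ^ (2 * j) * N (n + j) (ρ + γ) f

def RealC (C₂ : ℝ) : Prop := ∀ (C A B d γ Q : ℝ) (a : ℕ) (X : ℕ → ℝ), 0 ≤ C → 0 ≤ A →
  1 ≤ B → 0 < d → d ≤ 1 → 1 ≤ a → γ = d / (2 * B * (a + 4)) →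
    (∀ j < 4, X j ≤ (A * ((B / (d - γ)) ^ (a + j - 1) * (a + j - 1).factorial / (a + j : ℕ))) ^ 2) →
    γ ^ 3 * Q ≤ C * ∑ j ∈ Finset.range 4, γ ^ (2 * j) * X j →
      Q ≤ C₂ * C * A ^ 2 * ((B / d) ^ (2 * a + 1) * (a.factorial : ℝ) ^ 2 / (a + 1))

def HarC (CH Hc : ℝ) : Prop := ∀ (n : ℕ) (f : V → ℝ), ContDiff ℝ ∞ f →
    (∀ x ∈ ball (0 : V) (1 / 4), lap f x = 0) → ∀ x ∈ ball (0 : V) (1 / 8),
      SS n f x ≤ CH * (Hc ^ n * n.factorial) ^ 2 * N 0 (1 / 4) f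

/-- The elliptic bounds. -/
def EN (A' B : ℝ) (H : Set ℝ) (W : ℝ → V → V) (n : ℕ) : Prop :=
  ∀ k < n, ∀ d : ℝ, 0 < d → d ≤ 1 / 16 → ∀ t ∈ H, -3 / 64 + d / 4 < t →
    NV (k + 1) (1 / 8 - d) (W t) ≤ TB A' B d k

lemma TB_real (A B d : ℝ) (m : ℕ) (hm : 1 ≤ m) :
    TB A B d (m - 1) = (A * ((B / d) ^ (m - 1) * (m - 1).factorial / (m : ℕ))) ^ 2 := by
  unfold TB
  obtain ⟨k, rfl⟩ : ∃ k, m = k + 1 := ⟨m - 1, by omega⟩
  simp only [Nat.add_sub_cancel]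
  push_cast
  rfl

lemma gam {B d : ℝ} (a : ℕ) (hB : 1 ≤ B) (hd : 0 < d) :
    0 < d / (2 * B * (a + 4)) ∧ d / (2 * B * (a + 4)) ≤ d / 8 := by
  have ha : (0 : ℝ) ≤ a := Nat.cast_nonneg a
  refine ⟨by positivity, ?_⟩
  apply div_le_div_of_nonneg_left hd.le (by norm_num)
  nlinarith

section
variable {K A₀ : ℝ} {H : Set ℝ} {v W : ℝ → V → V} {G : ℝ → ℝ}

/-- Products of low order in `W`. -/
lemma pwA {C₂ Cs A A' B : ℝ} (hCs : 0 ≤ Cs) (hC₂ : 0 ≤ C₂) (hS : SobC Cs) (hR : RealC C₂)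
    (h : EA K A₀ H v W G) (hA' : 0 ≤ A') (hB : 1 ≤ B) {n : ℕ} (hP : PN A B H v n)
    (hE : EN A' B H W n) (hn : 8 ≤ n) {a : ℕ} (ha1 : 1 ≤ a) (ha : 2 * a ≤ n) {d : ℝ} (hd : 0 < d)
    (hd1 : d ≤ 1 / 16) {ρ' ρ M : ℝ} {φ : V → ℝ} (hφ : Cut ρ' ρ M φ) (hρ : ρ ≤ 1 / 8 - d) :
    ∃ w : ℝ → ℝ, IntegrableOn w (Ioo (-3 / 64 + d / 4) 0) ∧
      (∀ t ∈ H, -3 / 64 + d / 4 < t → 0 ≤ w t ∧ PW n a φ (v t) (W t) ≤ w t) ∧
      ∫ t in Ioo (-3 / 64 + d / 4) 0, w t ≤ JA (C₂ * Cs) A A' B d n a := by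
  obtain ⟨γ, hγ⟩ : ∃ γ, γ = d / (2 * B * (a + 4)) := ⟨_, rfl⟩
  obtain ⟨γ0, γ8⟩ := gam (B := B) a hB hd
  rw [← hγ] at γ0 γ8
  obtain ⟨S, hSd⟩ : ∃ S : ℝ, S = C₂ * Cs * A' ^ 2 *
      ((B / d) ^ (2 * a + 1) * (a.factorial : ℝ) ^ 2 / (a + 1)) := ⟨_, rfl⟩
  have hS0 : 0 ≤ S := by rw [hSd]; positivity
  have ha0 : -3 / 64 ≤ -3 / 64 + d / 4 := by linarith
  refine ⟨fun t => S * NT (n - a) (1 / 8 - d) (v t),
    (h.iN (n - a) (by linarith) ha0 le_rfl).const_mul S, fun t ht hat => ⟨?_, ?_⟩, ?_⟩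
  · exact mul_nonneg hS0 (NT_nonneg _ _ _)
  · have hcv := (h.sd t ht).cv
    have h1 : ∀ x ∈ ball (0 : V) ρ, SV a (W t) x ≤ S := by
      intro x hx
      have hx' : x ∈ ball (0 : V) (1 / 8 - d) := ball_subset_ball hρ hx
      have h2 := sobV hS a (h.sd t ht).cW γ0 (by linarith) (by linarith) hx'
      rw [show 1 / 8 - d + γ = 1 / 8 - (d - γ) by ring] at h2
      rw [hSd]
      refine hR Cs A' B d γ (SV a (W t) x) a
        (fun j => NV (a + j) (1 / 8 - (d - γ)) (W t)) hCs hA' hB hd (by linarith) ha1 hγ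
        (fun j hj => ?_) h2
      have h3 := hE (a + j - 1) (by omega) (d - γ) (by linarith) (by linarith) t ht
        (by linarith)
      rw [TB_real _ _ _ (a + j) (by omega)] at h3
      rw [show a + j - 1 + 1 = a + j by omega] at h3
      exact h3
    refine (PW_le1 n a hφ (h.sd t ht) hS0 h1).trans ?_
    exact mul_le_mul_of_nonneg_left (NT_mono (n - a) hρ hcv) hS0
  · rw [integral_const_mul]
    unfold JA
    rw [← hSd]
    apply mul_le_mul_of_nonneg_left _ hS0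
    have h3 := hP.p2 (n - a - 1) (by omega) d hd hd1
    rw [show n - a - 1 + 1 = n - a by omega] at h3
    exact h3

/-- Products of high order in `W`. -/
lemma pwB {C₂ Cs A A' B : ℝ} (hCs : 0 ≤ Cs) (hC₂ : 0 ≤ C₂) (hS : SobC Cs) (hR : RealC C₂)
    (h : EA K A₀ H v W G) (hA : 0 ≤ A) (hB : 1 ≤ B) {n : ℕ} (hP : PN A B H v n)
    (hE : EN A' B H W n) (hn : 8 ≤ n) {a : ℕ} (ha : n < 2 * a) (han : a < n) {d : ℝ} (hd : 0 < d)
    (hd1 : d ≤ 1 / 16) {ρ' ρ M : ℝ} {φ : V → ℝ} (hφ : Cut ρ' ρ M φ) (hρ : ρ ≤ 1 / 8 - d) :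
    ∃ w : ℝ → ℝ, IntegrableOn w (Ioo (-3 / 64 + d / 4) 0) ∧
      (∀ t ∈ H, -3 / 64 + d / 4 < t → 0 ≤ w t ∧ PW n a φ (v t) (W t) ≤ w t) ∧
      ∫ t in Ioo (-3 / 64 + d / 4) 0, w t ≤ JB (C₂ * Cs) A A' B d n a := by
  obtain ⟨b, hb⟩ : ∃ b, b = n - a := ⟨_, rfl⟩
  have hb1 : 1 ≤ b := by omega
  have hbn : 2 * b < n := by omega
  obtain ⟨γ, hγ⟩ : ∃ γ, γ = d / (2 * B * (b + 4)) := ⟨_, rfl⟩
  obtain ⟨γ0, γ8⟩ := gam (B := B) b hB hd
  rw [← hγ] at γ0 γ8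
  have ha0 : -3 / 64 ≤ -3 / 64 + d / 4 := by linarith
  obtain ⟨U, hU⟩ : ∃ U : ℝ → ℝ, U = fun t => Cs / γ ^ 3 *
      ∑ j ∈ Finset.range 4, γ ^ (2 * j) * NT (b + j) (1 / 8 - (d - γ)) (v t) := ⟨_, rfl⟩
  have hU0 : ∀ t, 0 ≤ U t := fun t => by
    rw [hU]
    exact mul_nonneg (by positivity) (Finset.sum_nonneg fun j _ =>
      mul_nonneg (by positivity) (NT_nonneg _ _ _))
  have iX : ∀ j ∈ Finset.range 4, IntegrableOn
      (fun t => γ ^ (2 * j) * NT (b + j) (1 / 8 - (d - γ)) (v t)) (Ioo (-3 / 64 + d / 4) 0) :=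
    fun j _ => (h.iN (b + j) (by linarith) ha0 le_rfl).const_mul _
  have iU : IntegrableOn U (Ioo (-3 / 64 + d / 4) 0) := by
    rw [hU]
    exact (integrable_finsetSum _ iX).const_mul _
  have hT := TB_nn A' B d (a - 1)
  refine ⟨fun t => TB A' B d (a - 1) * U t, iU.const_mul _, fun t ht hat => ⟨?_, ?_⟩, ?_⟩
  · exact mul_nonneg hT (hU0 t)
  · have hcv := (h.sd t ht).cv
    have h1 : ∀ x ∈ ball (0 : V) ρ, Pool.Agent.TH305.DR.ST (n - a) (v t) x ≤ U t := by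
      intro x hx
      have hx' : x ∈ ball (0 : V) (1 / 8 - d) := ball_subset_ball hρ hx
      have h2 := sobT hS b hcv γ0 (by linarith) (by linarith) hx'
      rw [show 1 / 8 - d + γ = 1 / 8 - (d - γ) by ring] at h2
      rw [← hb, hU]
      show Pool.Agent.TH305.DR.ST b (v t) x ≤ Cs / γ ^ 3 *
        ∑ j ∈ Finset.range 4, γ ^ (2 * j) * NT (b + j) (1 / 8 - (d - γ)) (v t)
      rw [div_mul_eq_mul_div, le_div_iff₀ (by positivity), mul_comm]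
      exact h2
    refine (PW_le2 n a hφ (h.sd t ht) (hU0 t) h1).trans ?_
    apply mul_le_mul_of_nonneg_right _ (hU0 t)
    have h3 := hE (a - 1) (by omega) d hd hd1 t ht hat
    rw [show a - 1 + 1 = a by omega] at h3
    exact (NV_mono a hρ (h.sd t ht).cW).trans h3
  · rw [integral_const_mul]
    unfold JB
    apply mul_le_mul_of_nonneg_left _ hT
    rw [← hb]
    refine hR Cs A B d γ (∫ t in Ioo (-3 / 64 + d / 4) 0, U t) b
      (fun j => ∫ t in Ioo (-3 / 64 + d / 4) 0, NT (b + j) (1 / 8 - (d - γ)) (v t)) hCs hA hB hd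
      (by linarith) hb1 hγ (fun j hj => ?_) (le_of_eq ?_)
    · have h3 := hP.p2 (b + j - 1) (by omega) (d - γ) (by linarith) (by linarith)
      rw [TB_real _ _ _ (b + j) (by omega), show b + j - 1 + 1 = b + j by omega] at h3
      refine le_trans ?_ h3
      apply setIntegral_mono_set (h.iN (b + j) (by linarith) (by linarith) le_rfl)
      · exact Eventually.of_forall fun t => NT_nonneg _ _ _
      · exact (Ioo_subset_Ioo_left (by linarith)).eventuallyLE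
    · rw [hU, integral_const_mul, integral_finsetSum _ iX]
      simp only [integral_const_mul]
      field_simp

/-- The product of the highest order in `W`. -/
lemma pwN {A A' B : ℝ} (h : EA K A₀ H v W G) (hA0 : 0 ≤ A₀) {n : ℕ} (hE : EN A' B H W n)
    (hn : 8 ≤ n) {d : ℝ} (hd : 0 < d) (hd1 : d ≤ 1 / 16) {ρ' ρ M : ℝ} {φ : V → ℝ}
    (hφ : Cut ρ' ρ M φ) (hρ : ρ ≤ 1 / 8 - d) :
    ∃ w : ℝ → ℝ, IntegrableOn w (Ioo (-3 / 64 + d / 4) 0) ∧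
      (∀ t ∈ H, -3 / 64 + d / 4 < t → 0 ≤ w t ∧ PW n n φ (v t) (W t) ≤ w t) ∧
      ∫ t in Ioo (-3 / 64 + d / 4) 0, w t ≤ TB A' B d (n - 1) * A₀ := by
  have hT := TB_nn A' B d (n - 1)
  refine ⟨fun t => TB A' B d (n - 1) * A₀, h.iC _, fun t ht hat => ⟨by positivity, ?_⟩, ?_⟩
  · have h1 : ∀ x ∈ ball (0 : V) ρ, Pool.Agent.TH305.DR.ST (n - n) (v t) x ≤ A₀ := by
      intro x hx
      rw [Nat.sub_self]
      exact h.b3 t ht x (ball_subset_ball (by linarith) hx)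
    refine (PW_le2 n n hφ (h.sd t ht) hA0 h1).trans ?_
    apply mul_le_mul_of_nonneg_right _ hA0
    have h3 := hE (n - 1) (by omega) d hd hd1 t ht hat
    rw [show n - 1 + 1 = n by omega] at h3
    exact (NV_mono n hρ (h.sd t ht).cW).trans h3
  · rw [setIntegral_const, smul_eq_mul]
    have h2 : (volume : Measure ℝ).real (Ioo (-3 / 64 + d / 4) 0) ≤ 1 := by
      rw [measureReal_def, Real.volume_Ioo, ENNReal.toReal_ofReal (by linarith)]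
      linarith
    exact mul_le_of_le_one_left (by positivity) h2

/-- The products with the harmonic part. -/
lemma phA {CH Hc A B : ℝ} (hCH : 0 < CH) (hH : HarC CH Hc) (h : EA K A₀ H v W G) {n : ℕ}
    (hP : PN A B H v n) {a : ℕ} (ha1 : 1 ≤ a) (han : a ≤ n) {d : ℝ} (hd : 0 < d)
    (hd1 : d ≤ 1 / 16) {ρ' ρ M : ℝ} {φ : V → ℝ} (hφ : Cut ρ' ρ M φ) (hρ : ρ ≤ 1 / 8 - d) :
    ∃ w : ℝ → ℝ, IntegrableOn w (Ioo (-3 / 64 + d / 4) 0) ∧
      (∀ t ∈ H, -3 / 64 + d / 4 < t → 0 ≤ w t ∧ PH n a φ (v t) (W t) ≤ w t) ∧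
      ∫ t in Ioo (-3 / 64 + d / 4) 0, w t
        ≤ 24 * CH * K * ((Hc ^ a * a.factorial) ^ 2 * TB A B d (n - a)) := by
  have hT := TB_nn A B d (n - a)
  have ha0 : -3 / 64 ≤ -3 / 64 + d / 4 := by linarith
  refine ⟨fun t => 24 * CH * (Hc ^ a * a.factorial) ^ 2 * TB A B d (n - a) * G t,
    (h.iG ha0 le_rfl).const_mul _, fun t ht hat => ⟨?_, ?_⟩, ?_⟩
  · have := (h.sd t ht).Gn
    positivity
  · refine (PH_le hCH hH n a hφ (by linarith) (h.sd t ht)).trans ?_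
    have h1 : NT (n - a) ρ (v t) ≤ TB A B d (n - a) :=
      (NT_mono (n - a) hρ (h.sd t ht).cv).trans (hP.p1 (n - a) (by omega) d hd hd1 t ht hat)
    have hG := (h.sd t ht).Gn
    calc 24 * CH * (Hc ^ a * a.factorial) ^ 2 * G t * NT (n - a) ρ (v t)
        ≤ 24 * CH * (Hc ^ a * a.factorial) ^ 2 * G t * TB A B d (n - a) := by gcongr
      _ = _ := by ring
  · rw [integral_const_mul]
    have h2 := h.G_le ha0
    calc 24 * CH * (Hc ^ a * a.factorial) ^ 2 * TB A B d (n - a)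
          * ∫ t in Ioo (-3 / 64 + d / 4) 0, G t
        ≤ 24 * CH * (Hc ^ a * a.factorial) ^ 2 * TB A B d (n - a) * K := by gcongr
      _ = _ := by ring

end

end Pool.Agent.Y7.AN
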