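import Pool.Agent.Y7.AN.Ind3

/-!
Analytic bounds for the derivatives: the induction (helper7).
-/

set_option autoImplicit false
set_option linter.unusedVariables false

open MeasureTheory Set Metric Filter Topology
open scoped ContDiff

namespace Pool.Agent.Y7.AN

open H459R3.NS W221.NS Pool.Agent.TH305.DR Pool.Agent.Y7.WD
open Pool.Agent.W583.MD (sm_pd cs_pd pd_mul' Z Z.add Z.sub Z.smul Z.sum int_cs Z_pd hcs)
open Pool.Agent.W639.MH (int_ball)

/-- The constants of the cut-off functions. -/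
def CutC (Cc : ℝ) : Prop := ∀ ρ' ρ : ℝ, 0 < ρ' → ρ' < ρ → ρ ≤ 1 →
  ∃ φ : V → ℝ, Cut ρ' ρ (Cc / (ρ - ρ') ^ 2) φ

lemma QQ_nonneg (n : ℕ) (φ : V → ℝ) (v : V → V) : 0 ≤ QQ n φ v :=
  Finset.sum_nonneg fun p _ => Finset.sum_nonneg fun m _ => integral_nonneg fun x =>
    mul_nonneg (SS_nonneg _ _ _) (sq_nonneg _)

section
variable {K A₀ : ℝ} {H : Set ℝ} {v W : ℝ → V → V} {G : ℝ → ℝ}

/-- The estimate of the nonlinear term in the induction. -/
lemma nlR {Cs C₂ CH Hc A B : ℝ} (hL : S_LEIB) (hCs : 0 ≤ Cs) (hC₂ : 0 ≤ C₂) (hCH : 0 < CH)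
    (hHc : 1 ≤ Hc) (hS : SobC Cs) (hR : RealC C₂) (hH : HarC CH Hc) (hK : 0 ≤ K) (hA0 : 0 ≤ A₀)
    (hA1 : 1 ≤ A) (hB1 : 1 ≤ B) (hBH : 2 * Hc ^ 2 ≤ B) (h : EA K A₀ H v W G) {n : ℕ}
    (hn : 8 ≤ n) (hP : PN A B H v n) (hE : EN (6 * A) B H W n) {d : ℝ} (hd : 0 < d)
    (hd1 : d ≤ 1 / 16) {ρ' ρ M : ℝ} {φ : V → ℝ} (hφ : Cut ρ' ρ M φ)
    (hρ : ρ ≤ 1 / 8 - gp n d) :
    ∃ R : ℝ → ℝ, IntegrableOn R (Ioo (-3 / 64 + gp n d / 4) 0) ∧
      (∀ t ∈ H, -3 / 64 + gp n d / 4 < t → 0 ≤ R t ∧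
        4 * QQ n φ (v t) ≤ 2592 * (K ^ 2 + G t) * YY n φ (v t) + R t) ∧
      ∫ t in Ioo (-3 / 64 + gp n d / 4) 0, R t
        ≤ 432 * ((16 * (C₂ * Cs) * (6 * A) ^ 2 + (6 * A) ^ 2 * A₀ + 384 * CH * K * Hc ^ 2) / B)
          * TB A B d n := by
  obtain ⟨d', hd'⟩ : ∃ d', d' = gp n d := ⟨_, rfl⟩
  have g0 : 0 < d' := hd' ▸ gp_pos n hd
  have g1 : d' < d := hd' ▸ gp_lt n hd
  have g16 : d' ≤ 1 / 16 := by linarith
  rw [← hd'] at hρ ⊢
  have hA : 0 ≤ A := by linarith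
  have hw : ∀ a : ℕ, ∃ w : ℝ → ℝ, 1 ≤ a → a ≤ n → IntegrableOn w (Ioo (-3 / 64 + d' / 4) 0) ∧
      (∀ t ∈ H, -3 / 64 + d' / 4 < t → 0 ≤ w t ∧ PW n a φ (v t) (W t) ≤ w t) ∧
      ∫ t in Ioo (-3 / 64 + d' / 4) 0, w t ≤ if a = n then TB (6 * A) B d' (n - 1) * A₀ else
        if 2 * a ≤ n then JA (C₂ * Cs) A (6 * A) B d' n a else JB (C₂ * Cs) A (6 * A) B d' n a := by
    intro a
    by_cases h1 : 1 ≤ a
    · by_cases h2 : a ≤ n
      · by_cases h3 : a = n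
        · rw [if_pos h3, h3]
          obtain ⟨w, hw⟩ := pwN (A := A) h hA0 hE hn g0 g16 hφ hρ
          exact ⟨w, fun _ _ => hw⟩
        · rw [if_neg h3]
          by_cases h4 : 2 * a ≤ n
          · rw [if_pos h4]
            obtain ⟨w, hw⟩ := pwA hCs hC₂ hS hR h (by positivity) hB1 hP hE hn h1 h4 g0 g16 hφ hρ
            exact ⟨w, fun _ _ => hw⟩
          · rw [if_neg h4]
            obtain ⟨w, hw⟩ := pwB hCs hC₂ hS hR h hA hB1 hP hE hn (by omega : n < 2 * a)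
              (by omega) g0 g16 hφ hρ
            exact ⟨w, fun _ _ => hw⟩
      · exact ⟨0, fun _ h3 => absurd h3 h2⟩
    · exact ⟨0, fun h3 => absurd h3 h1⟩
  choose w hw using hw
  have hh : ∀ a : ℕ, ∃ w : ℝ → ℝ, 1 ≤ a → a ≤ n → IntegrableOn w (Ioo (-3 / 64 + d' / 4) 0) ∧
      (∀ t ∈ H, -3 / 64 + d' / 4 < t → 0 ≤ w t ∧ PH n a φ (v t) (W t) ≤ w t) ∧
      ∫ t in Ioo (-3 / 64 + d' / 4) 0, w t
        ≤ 24 * CH * K * ((Hc ^ a * a.factorial) ^ 2 * TB A B d' (n - a)) := by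
    intro a
    by_cases h1 : 1 ≤ a
    · by_cases h2 : a ≤ n
      · obtain ⟨w, hw⟩ := phA hCH hH h hP h1 h2 g0 g16 hφ hρ
        exact ⟨w, fun _ _ => hw⟩
      · exact ⟨0, fun _ h3 => absurd h3 h2⟩
    · exact ⟨0, fun h3 => absurd h3 h1⟩
  choose wh hwh using hh
  have iS : ∀ a ∈ Finset.Ico 1 (n + 1), IntegrableOn (fun t =>
      2 * n * ((n.choose a : ℝ) ^ 2 * w a t) + 2 * 2 ^ a * ((n.choose a : ℝ) ^ 2 * wh a t))
      (Ioo (-3 / 64 + d' / 4) 0) := by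
    intro a ha
    rw [Finset.mem_Ico] at ha
    exact (((hw a ha.1 (by omega)).1.const_mul _).const_mul _).add
      (((hwh a ha.1 (by omega)).1.const_mul _).const_mul _)
  refine ⟨fun t => 432 * ∑ a ∈ Finset.Ico 1 (n + 1), (2 * n * ((n.choose a : ℝ) ^ 2 * w a t)
    + 2 * 2 ^ a * ((n.choose a : ℝ) ^ 2 * wh a t)), (integrable_finsetSum _ iS).const_mul _,
    fun t ht hat => ⟨?_, ?_⟩, ?_⟩
  · refine mul_nonneg (by norm_num) (Finset.sum_nonneg fun a ha => ?_)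
    rw [Finset.mem_Ico] at ha
    have h1 := ((hw a ha.1 (by omega)).2.1 t ht hat).1
    have h2 := ((hwh a ha.1 (by omega)).2.1 t ht hat).1
    positivity
  · have h1 := nl1 hL n (by omega) hφ (by linarith) (h.sd t ht)
    have h2 : ∑ a ∈ Finset.Ico 1 (n + 1),
      (2 * n * ((n.choose a : ℝ) ^ 2 * PW n a φ (v t) (W t))
        + 2 * 2 ^ a * ((n.choose a : ℝ) ^ 2 * PH n a φ (v t) (W t)))
      ≤ ∑ a ∈ Finset.Ico 1 (n + 1), (2 * n * ((n.choose a : ℝ) ^ 2 * w a t)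
        + 2 * 2 ^ a * ((n.choose a : ℝ) ^ 2 * wh a t)) := by
      refine Finset.sum_le_sum fun a ha => ?_
      rw [Finset.mem_Ico] at ha
      have h1 := ((hw a ha.1 (by omega)).2.1 t ht hat).2
      have h2 := ((hwh a ha.1 (by omega)).2.1 t ht hat).2
      gcongr
    linarith
  · rw [integral_const_mul, integral_finsetSum _ iS]
    have e1 : ∀ a ∈ Finset.Ico 1 (n + 1), ∫ t in Ioo (-3 / 64 + d' / 4) 0,
        (2 * n * ((n.choose a : ℝ) ^ 2 * w a t) + 2 * 2 ^ a * ((n.choose a : ℝ) ^ 2 * wh a t))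
        = 2 * n * ((n.choose a : ℝ) ^ 2 * ∫ t in Ioo (-3 / 64 + d' / 4) 0, w a t)
          + 2 * 2 ^ a * ((n.choose a : ℝ) ^ 2 * ∫ t in Ioo (-3 / 64 + d' / 4) 0, wh a t) := by
      intro a ha
      rw [Finset.mem_Ico] at ha
      rw [integral_add (((hw a ha.1 (by omega)).1.const_mul _).const_mul _)
        (((hwh a ha.1 (by omega)).1.const_mul _).const_mul _)]
      simp only [integral_const_mul]
    rw [Finset.sum_congr rfl e1, Finset.sum_add_distrib]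
    -- the terms with `W`
    have s1 : ∑ a ∈ Finset.Ico 1 (n + 1),
        2 * n * ((n.choose a : ℝ) ^ 2 * ∫ t in Ioo (-3 / 64 + d' / 4) 0, w a t)
        ≤ 16 * (C₂ * Cs) * (6 * A) ^ 2 / B * TB A B d n + (6 * A) ^ 2 * A₀ / B * TB A B d n := by
      rw [Finset.sum_Ico_succ_top (by omega)]
      apply add_le_add
      · refine le_trans (Finset.sum_le_sum fun a ha => ?_) (sumW (A := A) (A' := 6 * A) n hn
          (by positivity : 0 ≤ C₂ * Cs) hB1 hd hd1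
          (fun a => if 2 * a ≤ n then JA (C₂ * Cs) A (6 * A) B d' n a else
            JB (C₂ * Cs) A (6 * A) B d' n a) (fun a _ h2 => ?_) (fun a h2 _ => ?_))
        · rw [Finset.mem_Ico] at ha
          have h1 := (hw a ha.1 (by omega)).2.2
          rw [if_neg (by omega : a ≠ n)] at h1
          apply mul_le_mul_of_nonneg_left _ (by positivity)
          exact mul_le_mul_of_nonneg_left h1 (by positivity)
        · show (if 2 * a ≤ n then _ else _) = _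
          rw [if_pos h2, hd']
        · show (if 2 * a ≤ n then _ else _) = _
          rw [if_neg (by omega), hd']
      · have h1 := (hw n (by omega) le_rfl).2.2
        rw [if_pos rfl] at h1
        have h2 := sumN (A := A) (A' := 6 * A) n hn hA0 hA1 hB1 hd hd1
        rw [← hd'] at h2
        rw [Nat.choose_self, Nat.cast_one, one_pow, one_mul]
        exact (mul_le_mul_of_nonneg_left h1 (by positivity)).trans h2
    have s2 : ∑ a ∈ Finset.Ico 1 (n + 1),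
        2 * 2 ^ a * ((n.choose a : ℝ) ^ 2 * ∫ t in Ioo (-3 / 64 + d' / 4) 0, wh a t)
        ≤ 48 * CH * K * (8 * Hc ^ 2 / B * TB A B d n) := by
      have h1 := sumH (A := A) n hHc hBH hd hd1
      rw [← hd'] at h1
      refine le_trans ?_ (mul_le_mul_of_nonneg_left h1 (by positivity : 0 ≤ 48 * CH * K))
      rw [Finset.mul_sum]
      refine Finset.sum_le_sum fun a ha => ?_
      rw [Finset.mem_Ico] at ha
      have h2 := (hwh a ha.1 (by omega)).2.2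
      calc 2 * 2 ^ a * ((n.choose a : ℝ) ^ 2 * ∫ t in Ioo (-3 / 64 + d' / 4) 0, wh a t)
          ≤ 2 * 2 ^ a * ((n.choose a : ℝ) ^ 2 *
            (24 * CH * K * ((Hc ^ a * a.factorial) ^ 2 * TB A B d' (n - a)))) := by gcongr
        _ = _ := by ring
    have hB0 : 0 < B := by linarith
    have e2 : 432 * ((16 * (C₂ * Cs) * (6 * A) ^ 2 + (6 * A) ^ 2 * A₀ + 384 * CH * K * Hc ^ 2) / B)
        * TB A B d n = 432 * ((16 * (C₂ * Cs) * (6 * A) ^ 2 / B * TB A B d n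
          + (6 * A) ^ 2 * A₀ / B * TB A B d n) + 48 * CH * K * (8 * Hc ^ 2 / B * TB A B d n)) := by
      field_simp
      ring
    rw [e2]
    linarith

/-- The step of the induction. -/
lemma stepI {Cc Cs C₂ CH Hc A B : ℝ} (hL : S_LEIB) (hG : S_GRON) (hCc : 0 < Cc)
    (hcut : CutC Cc) (hCs : 0 ≤ Cs) (hC₂ : 0 ≤ C₂) (hCH : 0 < CH) (hHc : 1 ≤ Hc) (hS : SobC Cs)
    (hR : RealC C₂) (hH : HarC CH Hc) (hK : 0 ≤ K) (hA0 : 0 ≤ A₀) (hA1 : 1 ≤ A) (hB1 : 1 ≤ B)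
    (hBH : 2 * Hc ^ 2 ≤ B)
    (hBB : Real.exp (2592 * (K ^ 2 + K)) * (64 * (8 + 160 * Cc) + 432 *
      (16 * (C₂ * Cs) * (6 * A) ^ 2 + (6 * A) ^ 2 * A₀ + 384 * CH * K * Hc ^ 2)) ≤ B)
    (h : EA K A₀ H v W G) {n : ℕ} (hn : 8 ≤ n) (hP : PN A B H v n) (hE : EN (6 * A) B H W n)
    {d : ℝ} (hd : 0 < d) (hd1 : d ≤ 1 / 16) :
    (∀ t ∈ H, -3 / 64 + d / 4 < t → NT n (1 / 8 - d) (v t) ≤ TB A B d n) ∧
      ∫ t in Ioo (-3 / 64 + d / 4) 0, NT (n + 1) (1 / 8 - d) (v t) ≤ TB A B d n := by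
  obtain ⟨d', hd'⟩ : ∃ d', d' = gp n d := ⟨_, rfl⟩
  have g0 : 0 < d' := hd' ▸ gp_pos n hd
  have g1 : d' < d := hd' ▸ gp_lt n hd
  have g16 : d' ≤ 1 / 16 := by linarith
  have g2 : d - d' = d / (2 * ((n : ℝ) + 1)) := by
    rw [hd']
    unfold gp
    ring
  obtain ⟨ρ, hρ⟩ : ∃ ρ, ρ = 1 / 8 - d + (d - d') / 2 := ⟨_, rfl⟩
  obtain ⟨φ, hφ⟩ := hcut (1 / 8 - d) ρ (by linarith) (by linarith) (by linarith)
  obtain ⟨M, hM⟩ : ∃ M, M = Cc / (ρ - (1 / 8 - d)) ^ 2 := ⟨_, rfl⟩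
  rw [← hM] at hφ
  have eM : M = 16 * Cc * (((n : ℝ) + 1) ^ 2 / d ^ 2) := by
    rw [hM, hρ, show 1 / 8 - d + (d - d') / 2 - (1 / 8 - d) = (d - d') / 2 by ring, g2]
    field_simp
    ring
  have hM0 : 0 ≤ M := by rw [eM]; positivity
  obtain ⟨R, iR, hR1, hR2⟩ := nlR hL hCs hC₂ hCH hHc hS hR hH hK hA0 hA1 hB1 hBH h hn hP hE hd hd1
    hφ (by rw [← hd']; linarith)
  rw [← hd'] at iR hR1 hR2
  obtain ⟨α, hα⟩ : ∃ α : ℝ, α = -3 / 64 + d' / 4 := ⟨_, rfl⟩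
  rw [← hα] at iR hR1 hR2
  have a0 : -3 / 64 ≤ α := by linarith
  have aH : ∀ t ∈ H ∪ Ioo (-1 : ℝ) (-3 / 64), α < t → t ∈ H := by
    intro t ht hat
    rcases ht with ht | ht
    · exact ht
    · linarith [ht.2]
  obtain ⟨MG, hMG⟩ := h.GM
  have hcvH : ∀ t ∈ H, ∀ i, ContDiff ℝ ∞ (fun y => v t y i) := fun t ht => (h.sd t ht).cv
  have iN : IntegrableOn (fun t => NT n (1 / 8 - d') (v t)) (Ioo α 0) :=
    h.iN n (by linarith) a0 le_rfl
  have iY : IntegrableOn (fun t => YY n φ (v t)) (Ioo α 0) := h.iY n hφ (by linarith) a0 le_rfl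
  have iG : IntegrableOn G (Ioo α 0) := h.iG a0 le_rfl
  have iK : IntegrableOn (fun _ : ℝ => K ^ 2) (Ioo α 0) := h.iC _
  have iA : IntegrableOn (fun t => 2592 * (K ^ 2 + G t)) (Ioo α 0) := (iK.add iG).const_mul _
  have iAY : IntegrableOn (fun t => 2592 * (K ^ 2 + G t) * YY n φ (v t)) (Ioo α 0) := by
    refine int_le6 h.openH h.fullH (sub6 a0 le_rfl) measurableSet_Ioo
      ((continuousOn_const.mul (continuousOn_const.add h.Gc)).mul (h.cY n _ _ _ φ hφ))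
      (iY.const_mul (2592 * (K ^ 2 + MG))) fun τ _ hτ => ?_
    have h1 := (h.sd τ hτ).Gn
    have h2 := hMG τ hτ
    have h3 := YY_nonneg n φ (v τ)
    rw [abs_of_nonneg (by positivity)]
    apply mul_le_mul_of_nonneg_right _ h3
    linarith
  have iR' : IntegrableOn (fun t => 10 * M * NT n (1 / 8 - d') (v t) + R t) (Ioo α 0) :=
    (iN.const_mul _).add iR
  have iF : IntegrableOn (fun t => 2592 * (K ^ 2 + G t) * YY n φ (v t)
      + (10 * M * NT n (1 / 8 - d') (v t) + R t)) (Ioo α 0) := iAY.add iR'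
  have hT1 : ∫ t in Ioo α 0, NT n (1 / 8 - d') (v t) ≤ TB A B d' (n - 1) := by
    have h1 := hP.p2 (n - 1) (by omega) d' g0 g16
    rw [show n - 1 + 1 = n by omega, ← hα] at h1
    exact h1
  obtain ⟨T1, hT⟩ : ∃ T1, T1 = TB A B d' (n - 1) := ⟨_, rfl⟩
  have hT0 : 0 ≤ T1 := hT ▸ TB_nn _ _ _ _
  rw [← hT] at hT1
  obtain ⟨Tn, hTn⟩ : ∃ Tn, Tn = TB A B d n := ⟨_, rfl⟩
  have hTn0 : 0 ≤ Tn := hTn ▸ TB_nn _ _ _ _
  have hstep : ((n : ℝ) + 1) ^ 2 / d ^ 2 * T1 ≤ 64 / B ^ 2 * Tn := by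
    rw [hT, hTn, hd']
    exact TB_step n (by omega) hd (by linarith)
  rw [← hTn] at hR2 ⊢
  obtain ⟨E₁, hE₁⟩ : ∃ E₁, E₁ = 16 * (C₂ * Cs) * (6 * A) ^ 2 + (6 * A) ^ 2 * A₀
    + 384 * CH * K * Hc ^ 2 := ⟨_, rfl⟩
  have hE₁0 : 0 ≤ E₁ := by rw [hE₁]; positivity
  rw [← hE₁] at hR2 hBB
  obtain ⟨g3, g4, g5⟩ := hG (H ∪ Ioo (-1) (-3 / 64)) (h.openH.union isOpen_Ioo) (by
      refine measure_mono_null (t := (Ioo (-3 / 64 : ℝ) 0 \ H) ∪ {-3 / 64}) ?_ ?_
      · intro x hx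
        by_cases h1 : x < -3 / 64
        · exact absurd (Or.inr ⟨hx.1.1, h1⟩) hx.2
        · by_cases h2 : x = -3 / 64
          · right
            exact h2
          · left
            refine ⟨⟨lt_of_le_of_ne (not_lt.1 h1) (Ne.symm h2), hx.1.2⟩, fun h3 => hx.2 (Or.inl h3)⟩
      · rw [measure_union_null_iff]
        exact ⟨h.fullH, measure_singleton _⟩)
    (union_subset (h.subH.trans (Ioo_subset_Ioo_left (by norm_num)))
      (Ioo_subset_Ioo_right (by norm_num))) α (-3 / 64 + d / 4) (2592 * (K ^ 2 + K)) T1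
    (10 * M * T1 + 432 * (E₁ / B) * Tn)
    (fun t => YY n φ (v t)) (fun t => YY (n + 1) φ (v t)) (fun t => 2592 * (K ^ 2 + G t))
    (fun t => 10 * M * NT n (1 / 8 - d') (v t) + R t) (by linarith) (by linarith) (by linarith)
    (fun t _ => YY_nonneg _ _ _) (fun t _ => YY_nonneg _ _ _)
    (fun t ht hat => by
      have := (h.sd t (aH t ht hat)).Gn
      positivity)
    (fun t ht hat => by
      have h1 := (hR1 t (aH t ht hat) hat).1
      have h2 := NT_nonneg n (1 / 8 - d') (v t)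
      positivity) iY iA iR' iAY
    (fun s hs t ht has hst => by
      have hsH := aH s hs has
      have htH := aH t ht (has.trans_le hst)
      have hs1 := h.subH hsH
      have ht1 := h.subH htH
      refine ⟨h.iY (n + 1) hφ (by linarith) hs1.1.le ht1.2.le, ?_⟩
      refine (h.en n (1 / 8 - d) ρ (1 / 8 - d') M φ (by linarith) (by linarith) (by linarith)
        (by linarith) hM0 hφ s hsH t htH hst).trans ?_
      apply add_le_add le_rfl
      have hss : Ioo s t ⊆ Ioo (-3 / 64 : ℝ) 0 := sub6 hs1.1.le ht1.2.le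
      have hpt : ∀ τ ∈ Ioo s t, τ ∈ H → 10 * M * NT n (1 / 8 - d') (v τ) + 4 * QQ n φ (v τ)
          ≤ 2592 * (K ^ 2 + G τ) * YY n φ (v τ)
            + (10 * M * NT n (1 / 8 - d') (v τ) + R τ) := by
        intro τ hτ hτH
        have := (hR1 τ hτH (has.trans hτ.1)).2
        linarith
      have iF' := iF.mono_set (Ioo_subset_Ioo has.le ht1.2.le : Ioo s t ⊆ Ioo α 0)
      refine int_mono6 h.fullH hss measurableSet_Ioo ?_ iF' hpt
      refine int_le6 h.openH h.fullH hss measurableSet_Ioo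
        ((continuousOn_const.mul (h.cN n _)).add (continuousOn_const.mul (h.cQ n _ _ _ φ hφ)))
        iF' fun τ hτ hτH => ?_
      rw [abs_of_nonneg]
      · exact hpt τ hτ hτH
      · have h1 := NT_nonneg n (1 / 8 - d') (v τ)
        have h2 := QQ_nonneg n φ (v τ)
        positivity)
    (by
      rw [integral_const_mul, integral_add iK iG, setIntegral_const, smul_eq_mul]
      have h2 : (volume : Measure ℝ).real (Ioo α 0) ≤ 1 := by
        rw [measureReal_def, Real.volume_Ioo, ENNReal.toReal_ofReal (by linarith)]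
        linarith
      have h3 := h.G_le a0
      have h4 : (volume : Measure ℝ).real (Ioo α 0) * K ^ 2 ≤ K ^ 2 :=
        mul_le_of_le_one_left (sq_nonneg K) h2
      linarith)
    ((int_mono6 h.fullH (sub6 a0 le_rfl) measurableSet_Ioo iY iN fun τ _ hτ =>
      YY_le_NT n hφ (by linarith) (hcvH τ hτ)).trans hT1)
    (by
      rw [integral_add (iN.const_mul _) iR, integral_const_mul]
      have := mul_le_mul_of_nonneg_left hT1 (by positivity : 0 ≤ 10 * M)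
      linarith)
    (by positivity) hT0 (by positivity)
  have hclose : Real.exp (2592 * (K ^ 2 + K)) * (T1 / (-3 / 64 + d / 4 - α)
      + (10 * M * T1 + 432 * (E₁ / B) * Tn)) ≤ Tn := by
    have hB0 : 0 < B := by linarith
    have e1 : -3 / 64 + d / 4 - α = d / (8 * ((n : ℝ) + 1)) := by
      rw [hα, show -3 / 64 + d / 4 - (-3 / 64 + d' / 4) = (d - d') / 4 by ring, g2]
      field_simp
      norm_num
    have e2 : T1 / (-3 / 64 + d / 4 - α) = 8 * (((n : ℝ) + 1) / d * T1) := by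
      rw [e1]
      field_simp
    have hq : 1 ≤ ((n : ℝ) + 1) / d := by
      rw [le_div_iff₀ hd]
      have : (0 : ℝ) ≤ n := Nat.cast_nonneg n
      linarith
    have h1 : ((n : ℝ) + 1) / d * T1 ≤ ((n : ℝ) + 1) ^ 2 / d ^ 2 * T1 := by
      apply mul_le_mul_of_nonneg_right _ hT0
      rw [← div_pow]
      nlinarith
    have h2 : 64 / B ^ 2 * Tn ≤ 64 / B * Tn := by
      apply mul_le_mul_of_nonneg_right _ hTn0
      apply div_le_div_of_nonneg_left (by norm_num) hB0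
      nlinarith
    have h3 : ((n : ℝ) + 1) ^ 2 / d ^ 2 * T1 ≤ 64 / B * Tn := hstep.trans h2
    have h4 : 10 * M * T1 ≤ 160 * Cc * (64 / B * Tn) := by
      rw [eM]
      have := mul_le_mul_of_nonneg_left h3 (by positivity : 0 ≤ 160 * Cc)
      refine le_trans (le_of_eq ?_) this
      ring
    have h5 : T1 / (-3 / 64 + d / 4 - α) + (10 * M * T1 + 432 * (E₁ / B) * Tn)
        ≤ (64 * (8 + 160 * Cc) + 432 * E₁) / B * Tn := by
      rw [e2]
      have e3 : (64 * (8 + 160 * Cc) + 432 * E₁) / B * Tn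
          = 8 * (64 / B * Tn) + (160 * Cc * (64 / B * Tn) + 432 * (E₁ / B) * Tn) := by
        field_simp
        ring
      rw [e3]
      linarith
    refine (mul_le_mul_of_nonneg_left h5 (Real.exp_pos _).le).trans ?_
    have h6 : Real.exp (2592 * (K ^ 2 + K)) * ((64 * (8 + 160 * Cc) + 432 * E₁) / B) ≤ 1 := by
      rw [← mul_div_assoc, div_le_one hB0]
      exact hBB
    rw [← mul_assoc]
    exact mul_le_of_le_one_left hTn0 h6
  refine ⟨fun t ht hat => ?_, ?_⟩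
  · exact ((NT_le_YY n hφ (hcvH t ht)).trans (g3 t (Or.inl ht) hat)).trans hclose
  · refine le_trans ?_ (g5.trans hclose)
    exact int_mono6 h.fullH (sub6 (by linarith) le_rfl) measurableSet_Ioo
      (h.iN (n + 1) (by linarith) (by linarith) le_rfl) g4 fun τ _ hτ =>
        NT_le_YY (n + 1) hφ (hcvH τ hτ)

end

/-- The induction. -/
theorem t_ind (hL : S_LEIB) (hC : S_CUTQ) (hS : S_SOBG) (hH : S_HARA) (hG : S_GRON)
    (hR : S_REAL1) : S_IND := by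
  obtain ⟨Cc, hCc, hcut⟩ := hC
  obtain ⟨Cs, hCs, hS⟩ := hS
  obtain ⟨CH, Hc, hCH, hHc, hH⟩ := hH
  obtain ⟨C₂, hC₂, hR⟩ := hR
  intro K A₀ hK hA0
  obtain ⟨A, hA⟩ : ∃ A : ℝ, A = 1 + A₀ := ⟨_, rfl⟩
  have hA1 : 1 ≤ A := by linarith
  have hAA : A₀ ≤ A ^ 2 := by
    rw [hA]
    nlinarith
  obtain ⟨E₂, hE₂⟩ : ∃ E₂, E₂ = Real.exp (2592 * (K ^ 2 + K)) * (64 * (8 + 160 * Cc) + 432 *
      (16 * (C₂ * Cs) * (6 * A) ^ 2 + (6 * A) ^ 2 * A₀ + 384 * CH * K * Hc ^ 2)) := ⟨_, rfl⟩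
  have hE₂0 : 0 ≤ E₂ := by
    have := Real.exp_pos (2592 * (K ^ 2 + K))
    rw [hE₂]
    positivity
  obtain ⟨B, hB⟩ : ∃ B, B = 1 + 5120 * Cc + 2 * Hc ^ 2 + E₂ := ⟨_, rfl⟩
  have hHc2 : 0 ≤ 2 * Hc ^ 2 := by positivity
  have hB1 : 1 ≤ B := by linarith
  refine ⟨6 * A, B, by linarith, hB1, fun H v W G h => ?_⟩
  have hEN : ∀ n, PN A B H v n → EN (6 * A) B H W n := fun n hP k hk d hd hd1 t ht hat =>
    ellK hCc hcut h hA0 hAA (by linarith) (by linarith) hP k hk d hd hd1 t ht hat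
  have hPN : ∀ m, PN A B H v (m + 8) := by
    intro m
    induction m with
    | zero =>
      rw [Nat.zero_add]
      exact pn8 h hA0 hAA hB1
    | succ m ih =>
      have key := fun {d : ℝ} (hd : 0 < d) (hd1 : d ≤ 1 / 16) =>
        stepI hL hG hCc hcut hCs.le hC₂.le hCH hHc hS hR hH hK hA0 hA1 hB1 (by linarith)
          (by rw [← hE₂]; linarith) h (by omega) ih (hEN _ ih) hd hd1
      rw [show m + 1 + 8 = m + 8 + 1 by ring]
      refine ⟨fun k hk d hd hd1 t ht hat => ?_, fun k hk d hd hd1 => ?_⟩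
      · rcases Nat.lt_succ_iff_lt_or_eq.1 hk with hlt | heq
        · exact ih.p1 k hlt d hd hd1 t ht hat
        · subst heq
          exact (key hd hd1).1 t ht hat
      · rcases Nat.lt_succ_iff_lt_or_eq.1 hk with hlt | heq
        · exact ih.p2 k hlt d hd hd1
        · subst heq
          exact (key hd hd1).2
  intro n d hd hd1 t ht hat
  have hP := hPN (n + 1)
  refine ⟨?_, hEN _ hP n (by omega) d hd hd1 t ht hat⟩
  exact (hP.p1 n (by omega) d hd hd1 t ht hat).trans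
    (TB_mono B d n (by linarith) (by linarith) (by linarith) hd.le)

end Pool.Agent.Y7.AN
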