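import Pool.Agent.Y7.WDer

/-!
Analytic bounds for the derivatives: definitions and statements (helper7).
-/

set_option autoImplicit false
set_option linter.unusedVariables false

open MeasureTheory Set Metric Filter Topology
open scoped ContDiff

namespace Pool.Agent.Y7.AN

open H459R3.NS W221.NS Pool.Agent.TH305.DR Pool.Agent.Y7.WD

/-- The weighted derivatives of the nonlinear term. -/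
noncomputable def QQ (n : ℕ) (φ : V → ℝ) (v : V → V) : ℝ :=
  ∑ p : Fin 3 × Fin 3, ∑ m, ∫ x, SS n (gg v p.1 p.2 m) x * φ x ^ 2

/-- Energy data between the times `-3/64` and `0`. -/
structure EA (K A₀ : ℝ) (H : Set ℝ) (v W : ℝ → V → V) (G : ℝ → ℝ) : Prop where
  openH : IsOpen H
  subH : H ⊆ Ioo (-3 / 64) 0
  fullH : volume (Ioo (-3 / 64 : ℝ) 0 \ H) = 0
  sd : ∀ t ∈ H, SD K (v t) (W t) (G t)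
  cN : ∀ (n : ℕ) (ρ : ℝ), ContinuousOn (fun t => NT n ρ (v t)) H
  cY : ∀ (n : ℕ) (ρ ρ1 M : ℝ) (φ : V → ℝ), Cut ρ ρ1 M φ → ContinuousOn (fun t => YY n φ (v t)) H
  cQ : ∀ (n : ℕ) (ρ ρ1 M : ℝ) (φ : V → ℝ), Cut ρ ρ1 M φ → ContinuousOn (fun t => QQ n φ (v t)) H
  Gc : ContinuousOn G H
  GM : ∃ M, ∀ t ∈ H, G t ≤ M
  Gi : ∫ t in Ioo (-3 / 64) 0, G t ≤ K
  bd : ∀ n, ∃ B, ∀ t ∈ H, NT n (1 / 8) (v t) ≤ B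
  b1 : ∀ n ≤ 8, ∀ t ∈ H, NT n (1 / 8) (v t) ≤ A₀
  b2 : ∀ t ∈ H, NV 1 (1 / 8) (W t) ≤ A₀
  b3 : ∀ t ∈ H, ∀ x ∈ ball (0 : V) (1 / 8), ST 0 (v t) x ≤ A₀
  en : ∀ (n : ℕ) (ρ ρ1 ρ2 M : ℝ) (φ : V → ℝ), 0 < ρ → ρ < ρ1 → ρ1 < ρ2 → ρ2 ≤ 1 / 8 → 0 ≤ M →
    Cut ρ ρ1 M φ → ∀ s ∈ H, ∀ t ∈ H, s ≤ t →
      YY n φ (v t) + ∫ τ in Ioo s t, YY (n + 1) φ (v τ) ≤ YY n φ (v s)
        + ∫ τ in Ioo s t, (10 * M * NT n ρ2 (v τ) + 4 * QQ n φ (v τ))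

/-- The bounds of the induction. -/
noncomputable def TB (A B d : ℝ) (k : ℕ) : ℝ := (A * ((B / d) ^ k * k.factorial / (k + 1))) ^ 2

/-- Leibniz with exact coefficients and weights. -/
def S_LEIB : Prop := ∀ (n : ℕ) (v : V → V), (∀ i, ContDiff ℝ ∞ (fun y => v y i)) →
  ∀ lam : ℕ → ℝ, (∀ a, 0 < lam a) → ∀ x,
    ∑ p : Fin 3 × Fin 3, ∑ m, SS n (gg v p.1 p.2 m) x
      ≤ 36 * (∑ a ∈ Finset.range (n + 1), lam a) *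
        ∑ a ∈ Finset.range (n + 1), (n.choose a : ℝ) ^ 2 / lam a * (SV a v x * ST (n - a) v x)

/-- Cut-off functions with the sharp bound for the gradient. -/
def S_CUTQ : Prop := ∃ C : ℝ, 0 < C ∧ ∀ ρ' ρ : ℝ, 0 < ρ' → ρ' < ρ → ρ ≤ 1 →
  ∃ φ : V → ℝ, Cut ρ' ρ (C / (ρ - ρ') ^ 2) φ

/-- The pointwise bound with the gap. -/
def S_SOBG : Prop := ∃ C : ℝ, 0 < C ∧ ∀ (n : ℕ) (f : V → ℝ), ContDiff ℝ ∞ f →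
  ∀ γ ρ : ℝ, 0 < γ → γ ≤ 1 → 0 < ρ → ∀ x ∈ ball (0 : V) ρ,
    γ ^ 3 * SS n f x ≤ C * ∑ j ∈ Finset.range 4, γ ^ (2 * j) * N (n + j) (ρ + γ) f

/-- Analytic bounds for harmonic functions. -/
def S_HARA : Prop := ∃ C Hc : ℝ, 0 < C ∧ 1 ≤ Hc ∧ ∀ (n : ℕ) (f : V → ℝ), ContDiff ℝ ∞ f →
  (∀ x ∈ ball (0 : V) (1 / 4), lap f x = 0) → ∀ x ∈ ball (0 : V) (1 / 8),
    SS n f x ≤ C * (Hc ^ n * n.factorial) ^ 2 * N 0 (1 / 4) f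

/-- Gronwall's inequality with dissipation. -/
def S_GRON : Prop := ∀ (H : Set ℝ), IsOpen H → volume (Ioo (-1 : ℝ) 0 \ H) = 0 →
  H ⊆ Ioo (-1) 0 → ∀ (a a' KA KY KR : ℝ) (Y Z A R : ℝ → ℝ), -1 ≤ a → a < a' → a' < 0 →
    (∀ t ∈ H, 0 ≤ Y t) → (∀ t ∈ H, 0 ≤ Z t) → (∀ t ∈ H, a < t → 0 ≤ A t) →
    (∀ t ∈ H, a < t → 0 ≤ R t) →
    IntegrableOn Y (Ioo a 0) → IntegrableOn A (Ioo a 0) → IntegrableOn R (Ioo a 0) →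
    IntegrableOn (fun t => A t * Y t) (Ioo a 0) →
    (∀ s ∈ H, ∀ t ∈ H, a < s → s ≤ t → IntegrableOn Z (Ioo s t) ∧
      Y t + ∫ τ in Ioo s t, Z τ ≤ Y s + ∫ τ in Ioo s t, (A τ * Y τ + R τ)) →
    ∫ t in Ioo a 0, A t ≤ KA → ∫ t in Ioo a 0, Y t ≤ KY → ∫ t in Ioo a 0, R t ≤ KR →
    0 ≤ KA → 0 ≤ KY → 0 ≤ KR →
    (∀ t ∈ H, a' < t → Y t ≤ Real.exp KA * (KY / (a' - a) + KR)) ∧
      IntegrableOn Z (Ioo a' 0) ∧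
      ∫ t in Ioo a' 0, Z t ≤ Real.exp KA * (KY / (a' - a) + KR)

/-- Weak local data are energy data. -/
def S_EAW : Prop := ∀ K : ℝ, 0 ≤ K → ∃ A₀ : ℝ, 0 ≤ A₀ ∧
  ∀ (M : ℝ) (H : Set ℝ) (v W : ℝ → V → V) (G k : ℝ → ℝ), WK K M H v W G k →
    EA K A₀ (H ∩ Ioo (-3 / 64) 0) v W G

/-- Smooth local data are energy data. -/
def S_EAD : Prop := ∀ K : ℝ, 0 ≤ K → ∃ A₀ : ℝ, 0 ≤ A₀ ∧
  ∀ (v W : ℝ → V → V) (G : ℝ → ℝ), Dat K v W G → ∀ β ∈ Ioo (-1 / 128 : ℝ) 0,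
    EA K A₀ (Ioo (-3 / 64) 0) (fun s => v (s + β)) (fun s => W (s + β)) (fun s => G (s + β))

/-- An inequality between real numbers. -/
def S_REAL1 : Prop := ∃ C₂ : ℝ, 0 < C₂ ∧ ∀ (C A B d γ Q : ℝ) (a : ℕ) (X : ℕ → ℝ), 0 ≤ C → 0 ≤ A →
  1 ≤ B → 0 < d → d ≤ 1 → 1 ≤ a → γ = d / (2 * B * (a + 4)) →
    (∀ j < 4, X j ≤ (A * ((B / (d - γ)) ^ (a + j - 1) * (a + j - 1).factorial / (a + j : ℕ))) ^ 2) →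
    γ ^ 3 * Q ≤ C * ∑ j ∈ Finset.range 4, γ ^ (2 * j) * X j →
      Q ≤ C₂ * C * A ^ 2 * ((B / d) ^ (2 * a + 1) * (a.factorial : ℝ) ^ 2 / (a + 1))

/-- The induction. -/
def S_IND : Prop := ∀ K A₀ : ℝ, 0 ≤ K → 0 ≤ A₀ → ∃ A B : ℝ, 1 ≤ A ∧ 1 ≤ B ∧
  ∀ (H : Set ℝ) (v W : ℝ → V → V) (G : ℝ → ℝ), EA K A₀ H v W G →
    ∀ (n : ℕ) (d : ℝ), 0 < d → d ≤ 1 / 16 → ∀ t ∈ H, -3 / 64 + d / 4 < t →
      NT n (1 / 8 - d) (v t) ≤ TB A B d n ∧ NV (n + 1) (1 / 8 - d) (W t) ≤ TB A B d n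

/-- Pointwise analytic bounds. -/
def S_PTA : Prop := ∀ K A₀ : ℝ, 0 ≤ K → 0 ≤ A₀ → ∃ c : ℝ, 1 ≤ c ∧
  ∀ (H : Set ℝ) (v W : ℝ → V → V) (G : ℝ → ℝ), EA K A₀ H v W G →
    ∀ n, ∀ t ∈ H, -1 / 32 < t → ∀ x ∈ ball (0 : V) (1 / 16),
      ST n (v t) x ≤ (c ^ (n + 1) * n.factorial) ^ 2 ∧ SV n (W t) x ≤ (c ^ (n + 1) * n.factorial) ^ 2

/-- Weak local solutions with small dissipation. -/
def S_WDERA : Prop := ∃ ε : ℝ, 0 < ε ∧ ∃ c : ℝ, 1 ≤ c ∧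
  ∀ (H : Set ℝ) (v : ℝ → V → V) (q : ℝ → V → ℝ) (k : ℝ → ℝ), Pool.Agent.Y8.WL2 H v q k →
    IntegrableOn (fun t => B2 0 8 (v t)) (Ioo (-1) 0) →
    ∫ t in Ioo (-1) 0, B2 0 8 (v t) ≤ ε →
      ∀ n, ∀ t ∈ H, -1 / 32 < t → ∀ x ∈ ball (0 : V) (1 / 16),
        ST n (v t) x ≤ (c ^ (n + 1) * n.factorial) ^ 2 ∧
          SV n (v t) x ≤ (c ^ (n + 1) * n.factorial) ^ 2 * (1 + A2 0 4 (v t))

/-- Smooth local solutions with small dissipation. -/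
def S_LOCA : Prop := ∃ ε : ℝ, 0 < ε ∧ ∃ c : ℝ, 1 ≤ c ∧
  ∀ (v : ℝ → V → V) (q : ℝ → V → ℝ), Loc2 v q →
    IntegrableOn (fun t => B2 0 8 (v t)) (Ioo (-1) 0) →
    ∫ t in Ioo (-1) 0, B2 0 8 (v t) ≤ ε →
      ∀ n, ∀ t ∈ Ioo (-1 / 32 : ℝ) 0, ∀ x ∈ ball (0 : V) (1 / 16),
        ST n (v t) x ≤ (c ^ (n + 1) * n.factorial) ^ 2 ∧
          SV n (v t) x ≤ (c ^ (n + 1) * n.factorial) ^ 2 * (1 + A2 0 4 (v t))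

end Pool.Agent.Y7.AN
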